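import Mathlib

set_option autoImplicit false

open Finset

namespace Pool.Agent.CoprimeSieve

/-- The primes `p ≤ x`. -/
noncomputable def pr (x : ℝ) : Finset ℕ := (Finset.Icc 1 ⌊x⌋₊).filter Nat.Prime

/-- `E(x) = ∑_{p ≤ x} (log p)/p`. -/
noncomputable def mE (x : ℝ) : ℝ := ∑ p ∈ pr x, Real.log p / p

lemma mem_pr {x : ℝ} {p : ℕ} : p ∈ pr x ↔ p.Prime ∧ (p : ℝ) ≤ x := by
  unfold pr
  rw [mem_filter, mem_Icc]
  constructor
  · rintro ⟨⟨h1, h2⟩, h3⟩
    refine ⟨h3, ?_⟩
    exact (Nat.le_floor_iff' (by omega)).mp h2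
  · rintro ⟨h1, h2⟩
    exact ⟨⟨h1.one_lt.le, (Nat.le_floor_iff' h1.ne_zero).mpr h2⟩, h1⟩

lemma pr_mono {x y : ℝ} (h : x ≤ y) : pr x ⊆ pr y := by
  intro p hp
  rw [mem_pr] at *
  exact ⟨hp.1, hp.2.trans h⟩

lemma pr_floor (x : ℝ) : pr x = pr (⌊x⌋₊ : ℝ) := by
  unfold pr
  rw [Nat.floor_natCast]

lemma logdiv_nonneg (p : ℕ) : 0 ≤ Real.log p / p :=
  div_nonneg (Real.log_natCast_nonneg p) (Nat.cast_nonneg p)

lemma mE_nonneg (x : ℝ) : 0 ≤ mE x := Finset.sum_nonneg (fun p _ => logdiv_nonneg p)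

lemma mE_mono {x y : ℝ} (h : x ≤ y) : mE x ≤ mE y :=
  Finset.sum_le_sum_of_subset_of_nonneg (pr_mono h) (fun p _ _ => logdiv_nonneg p)

lemma sum_log_eq (N : ℕ) :
    ∑ n ∈ Finset.Ioc 0 N, Real.log n
      = ∑ n ∈ Finset.Ioc 0 N, ArithmeticFunction.vonMangoldt n * ((N / n : ℕ) : ℝ) := by
  have h := ArithmeticFunction.sum_Ioc_mul_zeta_eq_sum ArithmeticFunction.vonMangoldt N
  rw [ArithmeticFunction.vonMangoldt_mul_zeta] at h
  simpa [ArithmeticFunction.log_apply] using h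

lemma mE_upper_nat (N : ℕ) (hN : 1 ≤ N) : mE N ≤ Real.log N + (Real.log 4 + 4) := by
  have hN0 : (0:ℝ) < N := by exact_mod_cast hN
  have h1 : (N:ℝ) * mE N ≤ ∑ n ∈ Finset.Ioc 0 N, ArithmeticFunction.vonMangoldt n * ((N:ℝ) / n) := by
    unfold mE
    rw [Finset.mul_sum]
    have hsub : pr N ⊆ Finset.Ioc 0 N := by
      intro p hp
      rw [mem_pr] at hp
      rw [mem_Ioc]
      exact ⟨hp.1.pos, by exact_mod_cast hp.2⟩
    calc ∑ p ∈ pr N, (N:ℝ) * (Real.log p / p)
        = ∑ p ∈ pr N, ArithmeticFunction.vonMangoldt p * ((N:ℝ) / p) := by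
          apply Finset.sum_congr rfl
          intro p hp
          rw [ArithmeticFunction.vonMangoldt_apply_prime (mem_pr.mp hp).1]
          ring
      _ ≤ ∑ n ∈ Finset.Ioc 0 N, ArithmeticFunction.vonMangoldt n * ((N:ℝ) / n) := by
          apply Finset.sum_le_sum_of_subset_of_nonneg hsub
          intro n _ _
          exact mul_nonneg ArithmeticFunction.vonMangoldt_nonneg (by positivity)
  have h2 : ∑ n ∈ Finset.Ioc 0 N, ArithmeticFunction.vonMangoldt n * ((N:ℝ) / n)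
      ≤ ∑ n ∈ Finset.Ioc 0 N, (ArithmeticFunction.vonMangoldt n * ((N / n : ℕ) : ℝ)
        + ArithmeticFunction.vonMangoldt n) := by
    apply Finset.sum_le_sum
    intro n hn
    rw [mem_Ioc] at hn
    have hn0 : (0:ℝ) < n := by exact_mod_cast hn.1
    have h3 : (N:ℝ) / n ≤ ((N / n : ℕ) : ℝ) + 1 := by
      have := Nat.lt_floor_add_one ((N:ℝ)/n)
      rw [Nat.floor_div_natCast, Nat.floor_natCast] at this
      exact this.le
    have := mul_le_mul_of_nonneg_left h3 (ArithmeticFunction.vonMangoldt_nonneg (n := n))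
    linarith
  rw [Finset.sum_add_distrib, ← sum_log_eq] at h2
  have h3 : ∑ n ∈ Finset.Ioc 0 N, Real.log n ≤ N * Real.log N := by
    calc ∑ n ∈ Finset.Ioc 0 N, Real.log n ≤ ∑ n ∈ Finset.Ioc 0 N, Real.log N := by
          apply Finset.sum_le_sum
          intro n hn
          rw [mem_Ioc] at hn
          apply Real.log_le_log
          · exact_mod_cast hn.1
          · exact_mod_cast hn.2
      _ = N * Real.log N := by simp
  have h4 : ∑ n ∈ Finset.Ioc 0 N, ArithmeticFunction.vonMangoldt n ≤ (Real.log 4 + 4) * N := by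
    have := Chebyshev.psi_le_const_mul_self (x := (N:ℝ)) hN0.le
    unfold Chebyshev.psi at this
    rwa [Nat.floor_natCast] at this
  have h5 : (N:ℝ) * mE N ≤ N * (Real.log N + (Real.log 4 + 4)) := by linarith
  exact le_of_mul_le_mul_left h5 hN0

lemma summable_aux : Summable (fun n : ℕ => 4 * (1 / (n:ℝ) ^ (3/2 : ℝ))) :=
  (Real.summable_one_div_nat_rpow.mpr (by norm_num)).mul_left 4

lemma log_div_le (n : ℕ) (hn : 2 ≤ n) :
    Real.log n / ((n:ℝ) * (n - 1)) ≤ 4 * (1 / (n:ℝ) ^ (3/2 : ℝ)) := by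
  have hn0 : (0:ℝ) < n := by exact_mod_cast (by omega : 0 < n)
  have hn2 : (2:ℝ) ≤ n := by exact_mod_cast hn
  have h1 : Real.log n ≤ (n:ℝ) ^ (1/2 : ℝ) / (1/2) := Real.log_le_rpow_div hn0.le (by norm_num)
  have h2 : (n:ℝ) * n / 2 ≤ (n:ℝ) * (n - 1) := by nlinarith
  have h3 : (n:ℝ) ^ (3/2:ℝ) * (n:ℝ)^(1/2:ℝ) = n * n := by
    rw [← Real.rpow_add hn0]
    norm_num
    ring
  have h4 : 0 < (n:ℝ) ^ (3/2:ℝ) := Real.rpow_pos_of_pos hn0 _
  have h5 : 0 < (n:ℝ) ^ (1/2:ℝ) := Real.rpow_pos_of_pos hn0 _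
  rw [mul_one_div, div_le_div_iff₀ (by nlinarith) h4]
  have h6 : Real.log n * (n:ℝ) ^ (3/2:ℝ) ≤ (n:ℝ) ^ (1/2 : ℝ) / (1/2) * (n:ℝ) ^ (3/2:ℝ) :=
    mul_le_mul_of_nonneg_right h1 h4.le
  have h7 : (n:ℝ) ^ (1/2 : ℝ) / (1/2) * (n:ℝ) ^ (3/2:ℝ) = 2 * (n * n) := by
    rw [← h3]; ring
  linarith

lemma mE_lower_nat : ∃ C : ℝ, 0 ≤ C ∧ ∀ N : ℕ, 1 ≤ N → Real.log N - C ≤ mE N := by
  refine ⟨1 + ∑' n : ℕ, 4 * (1 / (n:ℝ) ^ (3/2 : ℝ)), ?_, ?_⟩
  · have : 0 ≤ ∑' n : ℕ, 4 * (1 / (n:ℝ) ^ (3/2 : ℝ)) := tsum_nonneg (fun n => by positivity)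
    linarith
  · intro N hN
    have hN0 : (0:ℝ) < N := by exact_mod_cast hN
    have hfac : N.factorial ≠ 0 := Nat.factorial_ne_zero N
    have h1 : Real.log N.factorial = ∑ p ∈ pr N, ((N.factorial).factorization p : ℝ) * Real.log p := by
      have hpf : (N.factorial).primeFactors = pr N := by
        ext p
        rw [mem_pr, Nat.mem_primeFactors]
        constructor
        · rintro ⟨h1, h2, _⟩
          exact ⟨h1, by exact_mod_cast (h1.dvd_factorial.mp h2)⟩
        · rintro ⟨h1, h2⟩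
          exact ⟨h1, h1.dvd_factorial.mpr (by exact_mod_cast h2), hfac⟩
      conv_lhs => rw [Nat.prod_primeFactors_pow_factorization hfac]
      rw [Nat.cast_prod, Real.log_prod, hpf]
      · apply Finset.sum_congr rfl
        intro p _
        rw [Nat.cast_pow, Real.log_pow]
      · intro p hp
        have := Nat.pos_of_mem_primeFactors hp
        positivity
    have h2 : Real.log N.factorial ≤ ∑ p ∈ pr N, ((N:ℝ) * (Real.log p / p)
        + N * (Real.log p / ((p:ℝ) * (p - 1)))) := by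
      rw [h1]
      apply Finset.sum_le_sum
      intro p hp
      have hp' := (mem_pr.mp hp).1
      have : Fact p.Prime := ⟨hp'⟩
      have h3 := sub_one_mul_padicValNat_factorial (p := p) N
      have h4 : (p - 1) * (N.factorial).factorization p ≤ N := by
        rw [Nat.factorization_def _ hp', h3]
        exact Nat.sub_le _ _
      have hp2 : (2:ℝ) ≤ p := by exact_mod_cast hp'.two_le
      have h5 : ((p:ℝ) - 1) * ((N.factorial).factorization p : ℝ) ≤ N := by
        have : ((p - 1 : ℕ) : ℝ) = (p:ℝ) - 1 := by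
          rw [Nat.cast_sub hp'.one_lt.le]; simp
        rw [← this]
        exact_mod_cast h4
      have h6 : ((N.factorial).factorization p : ℝ) ≤ N / ((p:ℝ) - 1) := by
        rw [le_div_iff₀ (by linarith)]
        linarith
      have h7 : (N:ℝ) * (Real.log p / p) + N * (Real.log p / ((p:ℝ) * (p - 1)))
          = N / ((p:ℝ) - 1) * Real.log p := by
        have h8 : (p:ℝ) ≠ 0 := by positivity
        have h9 : (p:ℝ) - 1 ≠ 0 := by linarith
        field_simp
        ring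
      rw [h7]
      exact mul_le_mul_of_nonneg_right h6 (Real.log_natCast_nonneg p)
    rw [Finset.sum_add_distrib, ← Finset.mul_sum, ← Finset.mul_sum] at h2
    have h3 : ∑ p ∈ pr N, Real.log p / ((p:ℝ) * (p - 1)) ≤ ∑' n : ℕ, 4 * (1 / (n:ℝ) ^ (3/2 : ℝ)) := by
      calc ∑ p ∈ pr N, Real.log p / ((p:ℝ) * (p - 1)) ≤ ∑ p ∈ pr N, 4 * (1 / (p:ℝ) ^ (3/2 : ℝ)) := by
            apply Finset.sum_le_sum
            intro p hp
            exact log_div_le p (mem_pr.mp hp).1.two_le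
        _ ≤ _ := Summable.sum_le_tsum _ (fun n _ => by positivity) summable_aux
    have h4 : (N:ℝ) * Real.log N - N ≤ Real.log N.factorial := by
      have h5 := Stirling.le_log_factorial_stirling (n := N) (by omega)
      have h6 : 0 ≤ Real.log N := Real.log_natCast_nonneg N
      have h7 : 0 ≤ Real.log (2 * Real.pi) := Real.log_nonneg (by linarith [Real.pi_gt_three])
      linarith
    have h5 : (N:ℝ) * (Real.log N - (1 + ∑' n : ℕ, 4 * (1 / (n:ℝ) ^ (3/2 : ℝ)))) ≤ N * mE N := by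
      have h8 : (N:ℝ) * ∑ p ∈ pr N, Real.log p / ((p:ℝ) * (p - 1))
          ≤ N * ∑' n : ℕ, 4 * (1 / (n:ℝ) ^ (3/2 : ℝ)) := mul_le_mul_of_nonneg_left h3 hN0.le
      have h9 : mE N = ∑ p ∈ pr N, Real.log p / p := rfl
      rw [h9]
      linarith
    exact le_of_mul_le_mul_left h5 hN0

/-- Mertens' first theorem with a bounded error. -/
lemma mertens_first : ∃ C : ℝ, 0 ≤ C ∧ ∀ x : ℝ, 1 ≤ x → |mE x - Real.log x| ≤ C := by
  obtain ⟨C, hC, h⟩ := mE_lower_nat
  refine ⟨(C + Real.log 2) + (Real.log 4 + 4), ?_, ?_⟩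
  · have := Real.log_nonneg (show (1:ℝ) ≤ 2 by norm_num)
    have := Real.log_nonneg (show (1:ℝ) ≤ 4 by norm_num)
    linarith
  · intro x hx
    have hl2 := Real.log_nonneg (show (1:ℝ) ≤ 2 by norm_num)
    have hl4 := Real.log_nonneg (show (1:ℝ) ≤ 4 by norm_num)
    have hN : 1 ≤ ⌊x⌋₊ := Nat.le_floor (by simpa using hx)
    have hN0 : (0:ℝ) < (⌊x⌋₊:ℝ) := by exact_mod_cast hN
    have e1 : mE x = mE (⌊x⌋₊:ℝ) := by unfold mE; rw [← pr_floor]
    have h1 := h ⌊x⌋₊ hN
    have h2 := mE_upper_nat ⌊x⌋₊ hN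
    have h3 : (⌊x⌋₊:ℝ) ≤ x := Nat.floor_le (by linarith)
    have h4 : x ≤ 2 * (⌊x⌋₊:ℝ) := by
      have h5 := (Nat.lt_floor_add_one x).le
      have h6 : (1:ℝ) ≤ (⌊x⌋₊:ℝ) := by exact_mod_cast hN
      linarith
    have h5 : Real.log (⌊x⌋₊:ℝ) ≤ Real.log x := Real.log_le_log hN0 h3
    have h6 : Real.log x ≤ Real.log 2 + Real.log (⌊x⌋₊:ℝ) := by
      rw [← Real.log_mul (by norm_num) hN0.ne']
      exact Real.log_le_log (by linarith) h4
    rw [abs_le]
    constructor <;> rw [e1] <;> linarith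

/-- coefficients `log p / p` supported on primes -/
noncomputable def mc (k : ℕ) : ℝ := if k.Prime then Real.log k / k else 0

lemma sum_mc (x : ℝ) : ∑ k ∈ Finset.Icc 0 ⌊x⌋₊, mc k = mE x := by
  unfold mE pr mc
  rw [← Finset.sum_filter]
  apply Finset.sum_congr _ (fun _ _ => rfl)
  ext p
  simp only [mem_filter, mem_Icc, zero_le, true_and]
  constructor
  · rintro ⟨h1, h2⟩
    exact ⟨⟨h2.one_lt.le, h1⟩, h2⟩
  · rintro ⟨⟨_, h1⟩, h2⟩
    exact ⟨h1, h2⟩

lemma mertens_second_upper : ∃ C : ℝ, 0 ≤ C ∧ ∀ a b : ℝ, 2 ≤ a → a ≤ b →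
    ∑ p ∈ (pr b).filter (fun p : ℕ => a < (p:ℝ)), (1:ℝ) / p
      ≤ Real.log (Real.log b / Real.log a) + C / Real.log a := by
  obtain ⟨C, hC, hM⟩ := mertens_first
  refine ⟨2 * C, by linarith, ?_⟩
  intro a b ha hab
  have hloga : 0 < Real.log a := Real.log_pos (by linarith)
  have hlogb : 0 < Real.log b := Real.log_pos (by linarith)
  have hlog : ∀ t ∈ Set.Icc a b, 0 < Real.log t := fun t ht => Real.log_pos (by linarith [ht.1])
  have hpos : ∀ t ∈ Set.Icc a b, 0 < t := fun t ht => by linarith [ht.1]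
  have hderiv : ∀ t ∈ Set.Icc a b, HasDerivAt (fun t => (Real.log t)⁻¹) (-(t⁻¹) / (Real.log t)^2) t := by
    intro t ht
    exact (Real.hasDerivAt_log (hpos t ht).ne').inv (hlog t ht).ne'
  have hderiv' : ∀ t ∈ Set.Icc a b, deriv (fun t => (Real.log t)⁻¹) t = -(t⁻¹) / (Real.log t)^2 :=
    fun t ht => (hderiv t ht).deriv
  have hcont : ContinuousOn (fun t : ℝ => -(t⁻¹) / (Real.log t)^2) (Set.Icc a b) := by
    apply ContinuousOn.div
    · apply ContinuousOn.neg
      apply ContinuousOn.inv₀ continuousOn_id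
      intro t ht; exact (hpos t ht).ne'
    · apply ContinuousOn.pow
      apply Real.continuousOn_log.mono
      intro t ht
      simp only [Set.mem_compl_iff, Set.mem_singleton_iff]
      exact (hpos t ht).ne'
    · intro t ht
      have := hlog t ht
      positivity
  have hint : MeasureTheory.IntegrableOn (deriv (fun t => (Real.log t)⁻¹)) (Set.Icc a b) := by
    apply (hcont.integrableOn_Icc).congr_fun _ measurableSet_Icc
    intro t ht
    exact (hderiv' t ht).symm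
  have key := sum_mul_eq_sub_sub_integral_mul (𝕜 := ℝ) mc (f := fun t => (Real.log t)⁻¹) (a := a) (b := b)
    (by linarith) hab (fun t ht => (hderiv t ht).differentiableAt) hint
  have hLHS : ∑ k ∈ Finset.Ioc ⌊a⌋₊ ⌊b⌋₊, (Real.log (k:ℝ))⁻¹ * mc k
      = ∑ p ∈ (pr b).filter (fun p : ℕ => a < (p:ℝ)), (1:ℝ) / p := by
    have e1 : ∑ k ∈ Finset.Ioc ⌊a⌋₊ ⌊b⌋₊, (Real.log (k:ℝ))⁻¹ * mc k
        = ∑ k ∈ Finset.Ioc ⌊a⌋₊ ⌊b⌋₊, if k.Prime then (1:ℝ)/k else 0 := by
      apply Finset.sum_congr rfl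
      intro k _
      unfold mc
      split_ifs with h
      · have hk : 0 < Real.log k := Real.log_pos (by exact_mod_cast h.one_lt)
        have hk0 : (0:ℝ) < k := by exact_mod_cast h.pos
        field_simp
      · simp
    rw [e1, ← Finset.sum_filter]
    apply Finset.sum_congr _ (fun _ _ => rfl)
    ext p
    simp only [mem_filter, mem_Ioc, mem_pr]
    constructor
    · rintro ⟨⟨h1, h2⟩, h3⟩
      exact ⟨⟨h3, (Nat.le_floor_iff' h3.ne_zero).mp h2⟩, Nat.lt_of_floor_lt h1⟩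
    · rintro ⟨⟨h1, h2⟩, h3⟩
      exact ⟨⟨(Nat.floor_lt (by linarith)).mpr h3, (Nat.le_floor_iff' h1.ne_zero).mpr h2⟩, h1⟩
  rw [hLHS, sum_mc, sum_mc] at key
  rw [key]
  -- bound the integral
  have hmE : ∀ t ∈ Set.Icc a b, mE t ≤ Real.log t + C := by
    intro t ht
    have := (abs_le.mp (hM t (by linarith [ht.1]))).2
    linarith
  have hint2 : MeasureTheory.IntegrableOn (fun t => deriv (fun t => (Real.log t)⁻¹) t *
      ∑ k ∈ Finset.Icc 0 ⌊t⌋₊, mc k) (Set.Icc a b) :=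
    integrableOn_mul_sum_Icc mc (by linarith) hint
  have hint3 : ContinuousOn (fun t : ℝ => -(t⁻¹) / (Real.log t)^2 * (Real.log t + C)) (Set.Icc a b) := by
    apply hcont.mul
    apply ContinuousOn.add _ continuousOn_const
    apply Real.continuousOn_log.mono
    intro t ht
    simp only [Set.mem_compl_iff, Set.mem_singleton_iff]
    exact (hpos t ht).ne'
  have hI : ∫ t in Set.Ioc a b, -(t⁻¹) / (Real.log t)^2 * (Real.log t + C)
      ≤ ∫ t in Set.Ioc a b, deriv (fun t => (Real.log t)⁻¹) t * ∑ k ∈ Finset.Icc 0 ⌊t⌋₊, mc k := by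
    apply MeasureTheory.setIntegral_mono_on
    · exact hint3.integrableOn_Icc.mono_set Set.Ioc_subset_Icc_self
    · exact hint2.mono_set Set.Ioc_subset_Icc_self
    · exact measurableSet_Ioc
    · intro t ht
      have ht' := Set.Ioc_subset_Icc_self ht
      rw [hderiv' t ht', sum_mc]
      have h1 := hmE t ht'
      have h2 : -(t⁻¹) / (Real.log t)^2 ≤ 0 := by
        apply div_nonpos_of_nonpos_of_nonneg
        · have := hpos t ht'
          simp only [Left.neg_nonpos_iff]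
          positivity
        · positivity
      nlinarith
  have hI2 : ∫ t in Set.Ioc a b, -(t⁻¹) / (Real.log t)^2 * (Real.log t + C)
      = (-(Real.log (Real.log b)) + C * (Real.log b)⁻¹) - (-(Real.log (Real.log a)) + C * (Real.log a)⁻¹) := by
    rw [← intervalIntegral.integral_of_le hab]
    apply intervalIntegral.integral_eq_sub_of_hasDerivAt
    · intro t ht
      rw [Set.uIcc_of_le hab] at ht
      have h0 := hpos t ht
      have h1 := hlog t ht
      have h2 : HasDerivAt (fun t => Real.log (Real.log t)) (t⁻¹ / Real.log t) t :=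
        (Real.hasDerivAt_log h0.ne').log h1.ne'
      have h3 := h2.neg.add ((hderiv t ht).const_mul C)
      refine h3.congr_deriv ?_
      field_simp
      ring
    · apply ContinuousOn.intervalIntegrable
      rw [Set.uIcc_of_le hab]
      exact hint3
  have h1 := (abs_le.mp (hM b (by linarith))).2
  have h2 := (abs_le.mp (hM a (by linarith))).1
  have h3 : (Real.log b)⁻¹ * mE b ≤ 1 + C * (Real.log b)⁻¹ := by
    have : (Real.log b)⁻¹ * mE b ≤ (Real.log b)⁻¹ * (Real.log b + C) :=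
      mul_le_mul_of_nonneg_left (by linarith) (by positivity)
    have e : (Real.log b)⁻¹ * (Real.log b + C) = 1 + C * (Real.log b)⁻¹ := by
      field_simp
    linarith
  have h4 : 1 - C * (Real.log a)⁻¹ ≤ (Real.log a)⁻¹ * mE a := by
    have : (Real.log a)⁻¹ * (Real.log a - C) ≤ (Real.log a)⁻¹ * mE a :=
      mul_le_mul_of_nonneg_left (by linarith) (by positivity)
    have e : (Real.log a)⁻¹ * (Real.log a - C) = 1 - C * (Real.log a)⁻¹ := by
      field_simp
    linarith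
  rw [Real.log_div hlogb.ne' hloga.ne']
  have e2 : 2 * C / Real.log a = 2 * (C * (Real.log a)⁻¹) := by rw [div_eq_mul_inv]; ring
  rw [e2]
  linarith

end Pool.Agent.CoprimeSieve
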