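import Mathlib
import Pool.Agent.CoprimeSieve.Mertens

set_option autoImplicit false

open Finset

namespace Pool.Agent.CoprimeSieve

/-- The integers `1 ≤ m ≤ x` divisible by no element of `A`. -/
noncomputable def Tset (A : Finset ℕ) (x : ℝ) : Finset ℕ :=
  (Finset.Icc 1 ⌊x⌋₊).filter (fun m => ∀ a ∈ A, ¬ a ∣ m)

/-- Their number, as a real number. -/
noncomputable def Sc (A : Finset ℕ) (x : ℝ) : ℝ := ((Tset A x).card : ℝ)

lemma mem_Tset {A : Finset ℕ} {x : ℝ} {m : ℕ} :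
    m ∈ Tset A x ↔ (1 ≤ m ∧ (m:ℝ) ≤ x) ∧ ∀ a ∈ A, ¬ a ∣ m := by
  unfold Tset
  rw [mem_filter, mem_Icc]
  constructor
  · rintro ⟨⟨h1, h2⟩, h3⟩
    exact ⟨⟨h1, (Nat.le_floor_iff' (by omega)).mp h2⟩, h3⟩
  · rintro ⟨⟨h1, h2⟩, h3⟩
    exact ⟨⟨h1, (Nat.le_floor_iff' (by omega)).mpr h2⟩, h3⟩

lemma Sc_nonneg (A : Finset ℕ) (x : ℝ) : 0 ≤ Sc A x := Nat.cast_nonneg _

/-- number of multiples of `d` (coprime to `A`) among the unsieved integers. -/
lemma card_multiples {A : Finset ℕ} {d : ℕ} (hd : 0 < d) (hc : ∀ a ∈ A, Nat.Coprime a d) (x : ℝ) :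
    (((Tset A x).filter (fun m => d ∣ m)).card : ℝ) = Sc A (x / d) := by
  unfold Sc
  congr 1
  have hd0 : (0:ℝ) < d := by exact_mod_cast hd
  symm
  apply Finset.card_bij (fun m _ => d * m)
  · intro m hm
    rw [mem_Tset] at hm
    rw [mem_filter, mem_Tset]
    obtain ⟨⟨h1, h2⟩, h3⟩ := hm
    refine ⟨⟨⟨Nat.mul_pos hd h1, ?_⟩, ?_⟩, Dvd.intro _ rfl⟩
    · rw [le_div_iff₀ hd0] at h2
      push_cast
      linarith
    · intro a ha hdvd
      exact h3 a ha ((hc a ha).dvd_of_dvd_mul_left hdvd)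
  · intro m1 _ m2 _ h
    exact Nat.eq_of_mul_eq_mul_left hd h
  · intro m hm
    rw [mem_filter, mem_Tset] at hm
    obtain ⟨⟨⟨h1, h2⟩, h3⟩, k, hk⟩ := hm
    refine ⟨k, ?_, hk.symm⟩
    rw [mem_Tset]
    have hk1 : 1 ≤ k := by
      rcases Nat.eq_zero_or_pos k with h | h
      · subst h; simp at hk; omega
      · exact h
    refine ⟨⟨hk1, ?_⟩, ?_⟩
    · rw [le_div_iff₀ hd0]
      have : (m:ℝ) = d * k := by rw [hk]; push_cast; ring
      linarith
    · intro a ha hdvd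
      exact h3 a ha (hk ▸ Dvd.dvd.mul_left hdvd d)

lemma Sc_insert {A : Finset ℕ} {d : ℕ} (hd : 0 < d) (hc : ∀ a ∈ A, Nat.Coprime a d) (x : ℝ) :
    Sc (insert d A) x = Sc A x - Sc A (x / d) := by
  rw [← card_multiples hd hc]
  have h := Finset.card_filter_add_card_filter_not (s := Tset A x) (fun m => d ∣ m)
  have e : (Tset A x).filter (fun m => ¬ d ∣ m) = Tset (insert d A) x := by
    ext m
    simp only [mem_filter, mem_Tset, mem_insert]
    constructor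
    · rintro ⟨⟨h1, h2⟩, h3⟩
      refine ⟨h1, ?_⟩
      rintro a (ha | ha)
      · subst ha; exact h3
      · exact h2 a ha
    · rintro ⟨h1, h2⟩
      exact ⟨⟨h1, fun a ha => h2 a (Or.inr ha)⟩, h2 d (Or.inl rfl)⟩
  rw [e] at h
  unfold Sc
  rw [← h]
  push_cast
  ring

lemma Sc_empty {x : ℝ} : Sc ∅ x = (⌊x⌋₊ : ℝ) := by
  unfold Sc Tset
  simp

/-- Density with error `2^{|A|}` for pairwise coprime `A`. -/
lemma Sc_approx (A : Finset ℕ) (h2 : ∀ a ∈ A, 2 ≤ a)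
    (hc : ∀ a ∈ A, ∀ b ∈ A, a ≠ b → Nat.Coprime a b) (x : ℝ) (hx : 0 ≤ x) :
    |Sc A x - (∏ a ∈ A, (1 - 1/(a:ℝ))) * x| ≤ 2 ^ A.card := by
  induction A using Finset.induction_on generalizing x with
  | empty =>
    rw [Sc_empty]
    simp only [Finset.prod_empty, one_mul, Finset.card_empty, pow_zero]
    rw [abs_le]
    constructor
    · linarith [Nat.lt_floor_add_one x]
    · linarith [Nat.floor_le hx]
  | insert a A ha ih =>
    have h2' : ∀ b ∈ A, 2 ≤ b := fun b hb => h2 b (mem_insert_of_mem hb)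
    have hc' : ∀ b ∈ A, ∀ d ∈ A, b ≠ d → Nat.Coprime b d := fun b hb d hd =>
      hc b (mem_insert_of_mem hb) d (mem_insert_of_mem hd)
    have ha2 : 2 ≤ a := h2 a (mem_insert_self a A)
    have hcop : ∀ b ∈ A, Nat.Coprime b a := by
      intro b hb
      apply hc b (mem_insert_of_mem hb) a (mem_insert_self a A)
      intro h; subst h; exact ha hb
    rw [Sc_insert (by omega) hcop, Finset.prod_insert ha, Finset.card_insert_of_notMem ha]
    have i1 := ih h2' hc' x hx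
    have i2 := ih h2' hc' (x / a) (by positivity)
    have e : Sc A x - Sc A (x / ↑a) - (1 - 1 / (a:ℝ)) * (∏ b ∈ A, (1 - 1/(b:ℝ))) * x
        = (Sc A x - (∏ b ∈ A, (1 - 1/(b:ℝ))) * x) - (Sc A (x / a) - (∏ b ∈ A, (1 - 1/(b:ℝ))) * (x / a)) := by
      ring
    rw [e, pow_succ]
    calc _ ≤ |Sc A x - (∏ b ∈ A, (1 - 1/(b:ℝ))) * x| + |Sc A (x / a) - (∏ b ∈ A, (1 - 1/(b:ℝ))) * (x / a)| :=
          abs_sub _ _
      _ ≤ 2 ^ A.card * 2 := by linarith

/-- Union bound. -/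
lemma Sc_union (A D : Finset ℕ) (x : ℝ) (hx : 0 ≤ x) (hD : ∀ d ∈ D, 0 < d) :
    Sc A x - ∑ d ∈ D.filter (fun d : ℕ => (d:ℝ) ≤ x), x / d ≤ Sc (A ∪ D) x := by
  have hsub : Tset A x ⊆ Tset (A ∪ D) x ∪
      (D.filter (fun d : ℕ => (d:ℝ) ≤ x)).biUnion (fun d => (Finset.Icc 1 ⌊x⌋₊).filter (fun m => d ∣ m)) := by
    intro m hm
    rw [mem_Tset] at hm
    rw [mem_union, mem_Tset]
    by_cases h : ∀ a ∈ A ∪ D, ¬ a ∣ m
    · exact Or.inl ⟨hm.1, h⟩
    · right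
      push Not at h
      obtain ⟨a, ha, hdvd⟩ := h
      rw [mem_biUnion]
      rcases mem_union.mp ha with h1 | h1
      · exact absurd hdvd (hm.2 a h1)
      · refine ⟨a, ?_, ?_⟩
        · rw [mem_filter]
          refine ⟨h1, ?_⟩
          have : a ≤ m := Nat.le_of_dvd (by omega) hdvd
          have : (a:ℝ) ≤ m := by exact_mod_cast this
          linarith [hm.1.2]
        · rw [mem_filter, mem_Icc]
          exact ⟨⟨hm.1.1, (Nat.le_floor_iff' (by omega)).mpr hm.1.2⟩, hdvd⟩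
  have h1 := Finset.card_le_card hsub
  have h2 := Finset.card_union_le (Tset (A ∪ D) x)
    ((D.filter (fun d : ℕ => (d:ℝ) ≤ x)).biUnion (fun d => (Finset.Icc 1 ⌊x⌋₊).filter (fun m => d ∣ m)))
  have h3 : (((D.filter (fun d : ℕ => (d:ℝ) ≤ x)).biUnion
      (fun d => (Finset.Icc 1 ⌊x⌋₊).filter (fun m => d ∣ m))).card : ℝ)
      ≤ ∑ d ∈ D.filter (fun d : ℕ => (d:ℝ) ≤ x), x / d := by
    have h4 := Finset.card_biUnion_le (s := D.filter (fun d : ℕ => (d:ℝ) ≤ x))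
      (t := fun d => (Finset.Icc 1 ⌊x⌋₊).filter (fun m => d ∣ m))
    have h5 : ((∑ d ∈ D.filter (fun d : ℕ => (d:ℝ) ≤ x),
        ((Finset.Icc 1 ⌊x⌋₊).filter (fun m => d ∣ m)).card : ℕ) : ℝ)
        ≤ ∑ d ∈ D.filter (fun d : ℕ => (d:ℝ) ≤ x), x / d := by
      push_cast
      apply Finset.sum_le_sum
      intro d hd
      have hd0 := hD d (mem_filter.mp hd).1
      have e : (Finset.Icc 1 ⌊x⌋₊).filter (fun m => d ∣ m) = (Finset.Ioc 0 ⌊x⌋₊).filter (fun m => d ∣ m) := by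
        ext m; simp only [mem_filter, mem_Icc, mem_Ioc]; constructor <;> rintro ⟨⟨h1, h2⟩, h3⟩ <;>
          exact ⟨⟨by omega, h2⟩, h3⟩
      rw [e, Nat.Ioc_filter_dvd_card_eq_div]
      calc ((⌊x⌋₊ / d : ℕ) : ℝ) ≤ (⌊x⌋₊ : ℝ) / d := Nat.cast_div_le
        _ ≤ x / d := div_le_div_of_nonneg_right (Nat.floor_le hx) (Nat.cast_nonneg d)
    calc _ ≤ _ := by exact_mod_cast h4
      _ ≤ _ := h5
  unfold Sc
  have h6 : ((Tset A x).card : ℝ) ≤ ((Tset (A ∪ D) x).card : ℝ) +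
    (((D.filter (fun d : ℕ => (d:ℝ) ≤ x)).biUnion
      (fun d => (Finset.Icc 1 ⌊x⌋₊).filter (fun m => d ∣ m))).card : ℝ) := by
    exact_mod_cast h1.trans h2
  linarith

lemma sum_log_primes_le {m : ℕ} (hm : 1 ≤ m) (R : Finset ℕ) (hR : ∀ p ∈ R, p.Prime) :
    ∑ p ∈ R.filter (fun p => p ∣ m), Real.log p ≤ Real.log m := by
  have hsub : R.filter (fun p => p ∣ m) ⊆ m.primeFactors := by
    intro p hp
    rw [mem_filter] at hp
    rw [Nat.mem_primeFactors]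
    exact ⟨hR p hp.1, hp.2, by omega⟩
  have h1 : ∑ p ∈ R.filter (fun p => p ∣ m), Real.log p ≤ ∑ p ∈ m.primeFactors, Real.log p :=
    Finset.sum_le_sum_of_subset_of_nonneg hsub (fun p _ _ => Real.log_natCast_nonneg p)
  have h2 : ∑ p ∈ m.primeFactors, Real.log p = Real.log (∏ p ∈ m.primeFactors, p : ℕ) := by
    rw [Nat.cast_prod, Real.log_prod]
    intro p hp
    have := Nat.pos_of_mem_primeFactors hp
    positivity
  have h3 : (∏ p ∈ m.primeFactors, p : ℕ) ≤ m := Nat.le_of_dvd (by omega) (Nat.prod_primeFactors_dvd m)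
  have h4 : 0 < (∏ p ∈ m.primeFactors, p : ℕ) := Finset.prod_pos (fun p hp => Nat.pos_of_mem_primeFactors hp)
  rw [h2] at h1
  refine h1.trans (Real.log_le_log (by exact_mod_cast h4) (by exact_mod_cast h3))

/-- The sieve recursion. -/
lemma Sc_recursion (A R : Finset ℕ) (hR : ∀ p ∈ R, p.Prime) (hc : ∀ p ∈ R, ∀ a ∈ A, Nat.Coprime a p)
    (x : ℝ) :
    ∑ p ∈ R, Real.log p * Sc A (x / p) ≤ Real.log x * Sc A x := by
  have h1 : ∑ m ∈ Tset A x, Real.log m ≤ Real.log x * Sc A x := by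
    calc ∑ m ∈ Tset A x, Real.log m ≤ ∑ m ∈ Tset A x, Real.log x := by
          apply Finset.sum_le_sum
          intro m hm
          rw [mem_Tset] at hm
          apply Real.log_le_log _ hm.1.2
          exact_mod_cast hm.1.1
      _ = Real.log x * Sc A x := by
          rw [Finset.sum_const, nsmul_eq_mul, mul_comm]; rfl
  have h2 : ∑ m ∈ Tset A x, ∑ p ∈ R.filter (fun p => p ∣ m), Real.log p ≤ ∑ m ∈ Tset A x, Real.log m := by
    apply Finset.sum_le_sum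
    intro m hm
    rw [mem_Tset] at hm
    exact sum_log_primes_le hm.1.1 R hR
  have h3 : ∑ m ∈ Tset A x, ∑ p ∈ R.filter (fun p => p ∣ m), Real.log p
      = ∑ p ∈ R, Real.log p * Sc A (x / p) := by
    simp only [Finset.sum_filter]
    rw [Finset.sum_comm]
    apply Finset.sum_congr rfl
    intro p hp
    rw [← Finset.sum_filter, Finset.sum_const, nsmul_eq_mul, mul_comm,
      card_multiples (hR p hp).pos (hc p hp)]
  linarith

end Pool.Agent.CoprimeSieve
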