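import Mathlib

set_option autoImplicit false

namespace Pool.Agent.CoprimeSieve

/-- `A` is admissible for the bound `c` and the integer `n`: every element `a` of the finite set `A`
satisfies `1 < a ≤ n`, distinct elements are coprime, and the sum of the reciprocals is `< c`. -/
def Admissible (c : ℝ) (n : ℕ) (A : Finset ℕ) : Prop :=
  (∀ a ∈ A, 1 < a ∧ a ≤ n) ∧ (∀ a ∈ A, ∀ b ∈ A, a ≠ b → Nat.Coprime a b) ∧
    ∑ a ∈ A, (1 : ℝ) / a < c

/-- `N_n(A)`: the number of integers `1 ≤ m ≤ n` divisible by no element of `A`. -/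
def unsieved (n : ℕ) (A : Finset ℕ) : ℕ :=
  ((Finset.Icc 1 n).filter (fun m => ∀ a ∈ A, ¬ a ∣ m)).card

/-- `M_n(c)`: the minimum of `N_n(A)` over the admissible sets `A`. -/
noncomputable def minUnsieved (c : ℝ) (n : ℕ) : ℕ :=
  sInf {N : ℕ | ∃ A : Finset ℕ, Admissible c n A ∧ N = unsieved n A}

/-- `Q_n`: the primes `q ≤ n` such that the reciprocals of all primes `p` with `q ≤ p ≤ n` sum to
at most `c`; that is, the longest initial segment of the primes `≤ n`, listed in decreasing order,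
whose reciprocal sum is at most `c`. -/
noncomputable def largestPrimes (c : ℝ) (n : ℕ) : Finset ℕ :=
  (Finset.Icc 1 n).filter
    (fun q => q.Prime ∧ ∑ p ∈ (Finset.Icc q n).filter Nat.Prime, (1 : ℝ) / p ≤ c)

/-- `ρ` is the Dickman function: continuous on `[0,∞)`, equal to `1` on `[0,1]`, and
`u ρ'(u) = -ρ(u-1)` for `u > 1`. -/
def IsDickman (ρ : ℝ → ℝ) : Prop :=
  ContinuousOn ρ (Set.Ici 0) ∧ (∀ u ∈ Set.Icc (0 : ℝ) 1, ρ u = 1) ∧
    ∀ u : ℝ, 1 < u → HasDerivAt ρ (-(ρ (u - 1) / u)) u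

end Pool.Agent.CoprimeSieve
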