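import Mathlib

set_option autoImplicit false

open MeasureTheory intervalIntegral Set Filter Topology

namespace Pool.Agent.CoprimeSieve

/-- Successive approximations to the Dickman function. -/
noncomputable def rhoAux : ℕ → ℝ → ℝ
  | 0 => fun _ => 1
  | (k+1) => fun u => 1 - ∫ t in (1:ℝ)..(max u 1), rhoAux k (t-1) / max t 1

/-- The Dickman function. -/
noncomputable def rho (u : ℝ) : ℝ := rhoAux ⌊u⌋₊ u

lemma rhoAux_cont (k : ℕ) : Continuous (rhoAux k) := by
  induction k with
  | zero => exact continuous_const
  | succ k ih =>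
    have h1 : Continuous (fun t : ℝ => rhoAux k (t-1) / max t 1) := by
      apply Continuous.div
      · exact ih.comp (continuous_id.sub continuous_const)
      · exact continuous_id.max continuous_const
      · intro x
        have : (1:ℝ) ≤ max x 1 := le_max_right _ _
        positivity
    have h2 : Continuous (fun u : ℝ => ∫ t in (1:ℝ)..u, rhoAux k (t-1) / max t 1) :=
      intervalIntegral.continuous_primitive (fun a b => h1.intervalIntegrable a b) 1
    have h3 : Continuous (fun u : ℝ => ∫ t in (1:ℝ)..(max u 1), rhoAux k (t-1) / max t 1) :=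
      h2.comp (continuous_id.max continuous_const)
    exact continuous_const.sub h3

lemma rhoAux_integrand_cont (k : ℕ) : Continuous (fun t : ℝ => rhoAux k (t-1) / max t 1) := by
  apply Continuous.div
  · exact (rhoAux_cont k).comp (continuous_id.sub continuous_const)
  · exact continuous_id.max continuous_const
  · intro x
    have : (1:ℝ) ≤ max x 1 := le_max_right _ _
    positivity

lemma rhoAux_succ_eq (k : ℕ) : ∀ u : ℝ, u ≤ k + 1 → rhoAux (k+1) u = rhoAux k u := by
  induction k with
  | zero =>
    intro u hu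
    simp only [Nat.cast_zero, zero_add] at hu
    simp [rhoAux, max_eq_right hu]
  | succ k ih =>
    intro u hu
    show 1 - ∫ t in (1:ℝ)..(max u 1), rhoAux (k+1) (t-1) / max t 1
      = 1 - ∫ t in (1:ℝ)..(max u 1), rhoAux k (t-1) / max t 1
    congr 1
    apply intervalIntegral.integral_congr
    intro t ht
    have h1 : (1:ℝ) ≤ max u 1 := le_max_right _ _
    rw [uIcc_of_le h1] at ht
    have h2 : max u 1 ≤ k + 2 := by
      apply max_le
      · push_cast at hu; linarith
      · have : (0:ℝ) ≤ k := Nat.cast_nonneg k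
        linarith
    have h3 : t - 1 ≤ k + 1 := by linarith [ht.2]
    simp only [ih (t-1) h3]

lemma rhoAux_eq_of_le {k m : ℕ} (hkm : k ≤ m) {u : ℝ} (hu : u ≤ k + 1) :
    rhoAux m u = rhoAux k u := by
  induction m, hkm using Nat.le_induction with
  | base => rfl
  | succ m hm ih =>
    rw [rhoAux_succ_eq m u ?_, ih]
    have : (k:ℝ) ≤ m := by exact_mod_cast hm
    linarith

lemma rho_eq_aux {k : ℕ} {u : ℝ} (hu : u < k + 1) : rho u = rhoAux k u := by
  unfold rho
  have h1 : ⌊u⌋₊ ≤ k := by
    rcases le_or_gt 0 u with h | h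
    · have h2 : (⌊u⌋₊ : ℝ) ≤ u := Nat.floor_le h
      have h3 : (⌊u⌋₊ : ℝ) < k + 1 := lt_of_le_of_lt h2 hu
      have h4 : ⌊u⌋₊ < k + 1 := by exact_mod_cast h3
      omega
    · rw [Nat.floor_of_nonpos h.le]; exact Nat.zero_le _
  rw [rhoAux_eq_of_le h1]
  exact (Nat.lt_floor_add_one u).le

lemma rho_of_le_one {u : ℝ} (hu : u ≤ 1) : rho u = 1 := by
  have h := @rho_eq_aux 1 u (by norm_num; linarith)
  rw [h, rhoAux_succ_eq 0 u (by simpa using hu)]
  rfl

lemma rho_cont : Continuous rho := by
  rw [continuous_iff_continuousAt]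
  intro u
  obtain ⟨k, hk⟩ := exists_nat_gt u
  have h1 : rho =ᶠ[𝓝 u] rhoAux k := by
    have : Set.Iio ((k:ℝ)+1) ∈ 𝓝 u := Iio_mem_nhds (by linarith)
    filter_upwards [this] with v hv
    exact rho_eq_aux hv
  exact (rhoAux_cont k).continuousAt.congr h1.symm

lemma rho_integrand_cont : Continuous (fun t : ℝ => rho (t-1) / max t 1) := by
  apply Continuous.div
  · exact rho_cont.comp (continuous_id.sub continuous_const)
  · exact continuous_id.max continuous_const
  · intro x
    have : (1:ℝ) ≤ max x 1 := le_max_right _ _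
    positivity

lemma rho_eq (u : ℝ) : rho u = 1 - ∫ t in (1:ℝ)..(max u 1), rho (t-1) / max t 1 := by
  obtain ⟨k, hk⟩ := exists_nat_gt (max u 1)
  have hu : u < (k+1:ℕ) + 1 := by
    push_cast
    have := le_max_left u 1
    linarith
  rw [rho_eq_aux hu]
  show 1 - ∫ t in (1:ℝ)..(max u 1), rhoAux k (t-1) / max t 1 = _
  congr 1
  apply intervalIntegral.integral_congr
  intro t ht
  have h1 : (1:ℝ) ≤ max u 1 := le_max_right _ _
  rw [uIcc_of_le h1] at ht
  have h3 : t - 1 < k + 1 := by linarith [ht.2]
  simp only [rho_eq_aux h3]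

lemma rho_sub {a b : ℝ} (ha : 1 ≤ a) (hab : a ≤ b) :
    rho a - rho b = ∫ t in a..b, rho (t-1) / t := by
  rw [rho_eq a, rho_eq b, max_eq_left ha, max_eq_left (ha.trans hab)]
  have h1 : (∫ t in (1:ℝ)..b, rho (t-1) / max t 1) - ∫ t in (1:ℝ)..a, rho (t-1) / max t 1
      = ∫ t in a..b, rho (t-1) / max t 1 := by
    rw [intervalIntegral.integral_interval_sub_left]
    · exact rho_integrand_cont.intervalIntegrable _ _
    · exact rho_integrand_cont.intervalIntegrable _ _
  have h2 : ∫ t in a..b, rho (t-1) / max t 1 = ∫ t in a..b, rho (t-1) / t := by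
    apply intervalIntegral.integral_congr
    intro t ht
    rw [uIcc_of_le hab] at ht
    simp only [max_eq_left (ha.trans ht.1)]
  linarith

lemma rho_hasDerivAt {u : ℝ} (hu : 1 < u) : HasDerivAt rho (-(rho (u-1) / u)) u := by
  have h1 : HasDerivAt (fun v => 1 - ∫ t in (1:ℝ)..v, rho (t-1) / max t 1)
      (-(rho (u-1) / max u 1)) u := by
    have := (intervalIntegral.integral_hasDerivAt_right
      (rho_integrand_cont.intervalIntegrable 1 u)
      (rho_integrand_cont.stronglyMeasurableAtFilter _ _)
      rho_integrand_cont.continuousAt)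
    exact this.const_sub 1
  rw [max_eq_left hu.le] at h1
  apply h1.congr_of_eventuallyEq
  filter_upwards [Ioi_mem_nhds hu] with v hv
  rw [rho_eq v, max_eq_left (le_of_lt hv)]

lemma rho_hasDerivWithinAt {u : ℝ} (hu : 1 ≤ u) :
    HasDerivWithinAt rho (-(rho (u-1) / u)) (Set.Ici u) u := by
  have h1 : HasDerivAt (fun v => 1 - ∫ t in (1:ℝ)..v, rho (t-1) / max t 1)
      (-(rho (u-1) / max u 1)) u := by
    have := (intervalIntegral.integral_hasDerivAt_right
      (rho_integrand_cont.intervalIntegrable 1 u)
      (rho_integrand_cont.stronglyMeasurableAtFilter _ _)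
      rho_integrand_cont.continuousAt)
    exact this.const_sub 1
  rw [max_eq_left hu] at h1
  apply h1.hasDerivWithinAt.congr
  · intro v hv
    rw [rho_eq v, max_eq_left (hu.trans hv)]
  · rw [rho_eq u, max_eq_left hu]

/-- `u ρ(u) = ∫_{u-1}^u ρ`. -/
lemma rho_integral {u : ℝ} (hu : 1 ≤ u) : ∫ t in (u-1)..u, rho t = u * rho u := by
  have hII : ∀ a b : ℝ, IntervalIntegrable rho volume a b := fun a b => rho_cont.intervalIntegrable a b
  have hP : ∀ v : ℝ, HasDerivAt (fun w => ∫ t in (0:ℝ)..w, rho t) (rho v) v := fun v =>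
    intervalIntegral.integral_hasDerivAt_right (hII 0 v)
      (rho_cont.stronglyMeasurableAtFilter _ _) rho_cont.continuousAt
  have key : ∀ x ∈ Icc 1 u, (fun v => v * rho v - ((∫ t in (0:ℝ)..v, rho t) - ∫ t in (0:ℝ)..(v-1), rho t)) x
      = (fun v => v * rho v - ((∫ t in (0:ℝ)..v, rho t) - ∫ t in (0:ℝ)..(v-1), rho t)) 1 := by
    apply constant_of_has_deriv_right_zero
    · apply Continuous.continuousOn
      have hc : Continuous (fun w : ℝ => ∫ t in (0:ℝ)..w, rho t) :=
        intervalIntegral.continuous_primitive hII 0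
      exact (continuous_id.mul rho_cont).sub (hc.sub (hc.comp (continuous_id.sub continuous_const)))
    · intro x hx
      have h1 : HasDerivWithinAt (fun v => v * rho v) (1 * rho x + x * (-(rho (x-1)/x))) (Ici x) x :=
        (hasDerivWithinAt_id x _).mul (rho_hasDerivWithinAt hx.1)
      have h2 : HasDerivAt (fun w : ℝ => ∫ t in (0:ℝ)..(w-1), rho t) (rho (x-1)) x := by
        exact HasDerivAt.comp_sub_const x 1 (hP (x-1))
      have h3 := h1.sub ((hP x).hasDerivWithinAt.sub (h2.hasDerivWithinAt (s := Ici x)))
      have h4 : 1 * rho x + x * (-(rho (x-1)/x)) - (rho x - rho (x-1)) = 0 := by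
        have : x ≠ 0 := by linarith [hx.1]
        field_simp
        ring
      exact h3.congr_deriv h4
  have h1 := key u ⟨hu, le_rfl⟩
  simp only at h1
  have h2 : (∫ t in (0:ℝ)..1, rho t) = 1 := by
    have : ∫ t in (0:ℝ)..1, rho t = ∫ t in (0:ℝ)..1, (1:ℝ) := by
      apply intervalIntegral.integral_congr
      intro t ht
      rw [uIcc_of_le zero_le_one] at ht
      exact rho_of_le_one ht.2
    rw [this]; simp
  rw [h2, rho_of_le_one le_rfl] at h1
  simp only [sub_self, intervalIntegral.integral_same] at h1
  have h3 : (∫ t in (0:ℝ)..u, rho t) - ∫ t in (0:ℝ)..(u-1), rho t = ∫ t in (u-1)..u, rho t :=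
    intervalIntegral.integral_interval_sub_left (hII _ _) (hII _ _)
  rw [h3] at h1
  linarith

lemma rho_pos (u : ℝ) : 0 < rho u := by
  by_contra hcon
  push Not at hcon
  set S : Set ℝ := {v | rho v ≤ 0} with hS
  have hclosed : IsClosed S := isClosed_le rho_cont continuous_const
  have hbdd : BddBelow S := ⟨1, fun v hv => by
    by_contra h
    push Not at h
    have := rho_of_le_one h.le
    have hv' : rho v ≤ 0 := hv
    linarith⟩
  have hne : S.Nonempty := ⟨u, hcon⟩
  set w := sInf S
  have hw : w ∈ S := hclosed.csInf_mem hne hbdd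
  have hw1 : 1 < w := by
    by_contra h
    push Not at h
    have := rho_of_le_one h
    have hv' : rho w ≤ 0 := hw
    linarith
  have hpos : ∀ v, v < w → 0 < rho v := by
    intro v hv
    by_contra h
    push Not at h
    have : w ≤ v := csInf_le hbdd h
    linarith
  have h1 := rho_integral hw1.le
  have h2 : 0 < ∫ t in (w-1)..w, rho t := by
    apply intervalIntegral.intervalIntegral_pos_of_pos_on (rho_cont.intervalIntegrable _ _)
    · intro x hx
      exact hpos x hx.2
    · linarith
  have h3 : w * rho w ≤ 0 := by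
    have hv' : rho w ≤ 0 := hw
    nlinarith
  linarith

lemma rho_anti : Antitone rho := by
  intro a b hab
  rcases le_total a 1 with ha | ha
  · rw [rho_of_le_one ha]
    have h1 : rho b = 1 - ∫ t in (1:ℝ)..(max b 1), rho (t-1) / max t 1 := rho_eq b
    have h2 : 0 ≤ ∫ t in (1:ℝ)..(max b 1), rho (t-1) / max t 1 := by
      apply intervalIntegral.integral_nonneg (le_max_right _ _)
      intro x _
      have := rho_pos (x-1)
      have : (1:ℝ) ≤ max x 1 := le_max_right _ _
      positivity
    linarith
  · have h1 := rho_sub ha hab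
    have h2 : 0 ≤ ∫ t in a..b, rho (t-1) / t := by
      apply intervalIntegral.integral_nonneg hab
      intro x hx
      have h3 := rho_pos (x-1)
      have h4 : (0:ℝ) < x := by linarith [hx.1]
      positivity
    linarith

lemma rho_le_one (u : ℝ) : rho u ≤ 1 := by
  rcases le_total u 1 with h | h
  · exact (rho_of_le_one h).le
  · have := rho_anti h
    rwa [rho_of_le_one le_rfl] at this

lemma rho_sub_le_log {a b : ℝ} (ha : 1 ≤ a) (hab : a ≤ b) :
    rho a - rho b ≤ rho (a-1) * Real.log (b/a) := by
  rw [rho_sub ha hab]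
  have ha0 : 0 < a := by linarith
  have h1 : ∫ t in a..b, rho (t-1) / t ≤ ∫ t in a..b, rho (a-1) * (1 / t) := by
    apply intervalIntegral.integral_mono_on hab
    · apply ContinuousOn.intervalIntegrable
      apply ContinuousOn.div
      · exact (rho_cont.comp (continuous_id.sub continuous_const)).continuousOn
      · exact continuousOn_id
      · intro x hx
        rw [uIcc_of_le hab] at hx
        have : 0 < x := by linarith [hx.1]
        exact this.ne'
    · apply ContinuousOn.intervalIntegrable
      apply ContinuousOn.mul continuousOn_const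
      apply ContinuousOn.div continuousOn_const continuousOn_id
      intro x hx
      rw [uIcc_of_le hab] at hx
      have : 0 < x := by linarith [hx.1]
      exact this.ne'
    · intro x hx
      have hx0 : 0 < x := by linarith [hx.1]
      have h2 : rho (x-1) ≤ rho (a-1) := rho_anti (by linarith [hx.1])
      rw [div_eq_mul_one_div]
      apply mul_le_mul_of_nonneg_right h2
      positivity
  have h2 : ∫ t in a..b, rho (a-1) * (1 / t) = rho (a-1) * Real.log (b/a) := by
    rw [intervalIntegral.integral_const_mul, integral_one_div_of_pos ha0 (by linarith)]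
  linarith

lemma rho_sub_ge_log {a b : ℝ} (ha : 1 ≤ a) (hab : a ≤ b) :
    rho (b-1) * Real.log (b/a) ≤ rho a - rho b := by
  rw [rho_sub ha hab]
  have ha0 : 0 < a := by linarith
  have h1 : ∫ t in a..b, rho (b-1) * (1 / t) ≤ ∫ t in a..b, rho (t-1) / t := by
    apply intervalIntegral.integral_mono_on hab
    · apply ContinuousOn.intervalIntegrable
      apply ContinuousOn.mul continuousOn_const
      apply ContinuousOn.div continuousOn_const continuousOn_id
      intro x hx
      rw [uIcc_of_le hab] at hx
      have : 0 < x := by linarith [hx.1]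
      exact this.ne'
    · apply ContinuousOn.intervalIntegrable
      apply ContinuousOn.div
      · exact (rho_cont.comp (continuous_id.sub continuous_const)).continuousOn
      · exact continuousOn_id
      · intro x hx
        rw [uIcc_of_le hab] at hx
        have : 0 < x := by linarith [hx.1]
        exact this.ne'
    · intro x hx
      have hx0 : 0 < x := by linarith [hx.1]
      have h2 : rho (b-1) ≤ rho (x-1) := rho_anti (by linarith [hx.2])
      rw [div_eq_mul_one_div (rho (x-1))]
      apply mul_le_mul_of_nonneg_right h2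
      positivity
  have h2 : ∫ t in a..b, rho (b-1) * (1 / t) = rho (b-1) * Real.log (b/a) := by
    rw [intervalIntegral.integral_const_mul, integral_one_div_of_pos ha0 (by linarith)]
  linarith

/-- `ρ` is 1-Lipschitz (one-sided form). -/
lemma rho_lip {a b : ℝ} (hab : a ≤ b) : rho a - rho b ≤ b - a := by
  rcases le_total b 1 with hb | hb
  · rw [rho_of_le_one hb, rho_of_le_one (hab.trans hb)]; linarith
  · rcases le_total a 1 with ha | ha
    · rw [rho_of_le_one ha]
      have h1 := rho_sub_le_log le_rfl hb
      have h2 := rho_le_one (1-1)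
      have h3 : Real.log (b/1) ≤ b - 1 := by
        rw [div_one]
        exact (Real.log_le_sub_one_of_pos (by linarith))
      have h4 : 0 ≤ Real.log (b/1) := by
        rw [div_one]; exact Real.log_nonneg hb
      rw [rho_of_le_one le_rfl] at h1
      have h5 : rho (1-1) * Real.log (b/1) ≤ Real.log (b/1) := mul_le_of_le_one_left h4 h2
      linarith
    · have h1 := rho_sub_le_log ha hab
      have h2 := rho_le_one (a-1)
      have ha0 : 0 < a := by linarith
      have h3 : Real.log (b/a) ≤ b/a - 1 := Real.log_le_sub_one_of_pos (by positivity)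
      have h4 : 0 ≤ Real.log (b/a) := Real.log_nonneg (by rw [le_div_iff₀ ha0]; linarith)
      have h5 : b/a - 1 ≤ b - a := by
        rw [div_sub_one ha0.ne', div_le_iff₀ ha0]
        nlinarith
      have h6 : rho (a-1) * Real.log (b/a) ≤ Real.log (b/a) := mul_le_of_le_one_left h4 h2
      linarith

lemma rho_eq_log {u : ℝ} (h1 : 1 ≤ u) (h2 : u ≤ 2) : rho u = 1 - Real.log u := by
  have h := rho_sub le_rfl h1
  have h3 : ∫ t in (1:ℝ)..u, rho (t-1) / t = ∫ t in (1:ℝ)..u, 1 / t := by
    apply intervalIntegral.integral_congr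
    intro t ht
    rw [uIcc_of_le h1] at ht
    simp only [rho_of_le_one (show t - 1 ≤ 1 by linarith [ht.2])]
  rw [h3, integral_one_div_of_pos one_pos (by linarith), rho_of_le_one le_rfl, div_one] at h
  linarith

lemma rho_scaled_integral {l x : ℝ} (hl : 0 < l) (hx : 1 ≤ l * x) :
    ∫ s in (x - 1/l)..x, rho (l * s) = x * rho (l * x) := by
  rw [intervalIntegral.integral_comp_mul_left (fun y => rho y) hl.ne']
  have h1 : l * (x - 1/l) = l * x - 1 := by field_simp
  rw [h1, rho_integral hx, smul_eq_mul]
  field_simp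

lemma rho_mul_exp {t : ℝ} (ht0 : 0 ≤ t) (ht : t ≤ 1/2) {x0 : ℝ} (hx0 : 1 ≤ x0) :
    rho (Real.exp t * x0) ≤ (1 - t) * rho x0 := by
  set l := Real.exp t with hl
  have hl1 : 1 ≤ l := Real.one_le_exp ht0
  have hl0 : 0 < l := by linarith
  have hlogl : Real.log l = t := Real.log_exp t
  have hl2 : l < 2 := by
    have h1 : Real.exp t ≤ Real.exp (1/2) := Real.exp_le_exp.mpr ht
    have h2 : Real.exp (1/2) < 2 := by
      have h3 : Real.exp (1/2) * Real.exp (1/2) = Real.exp 1 := by
        rw [← Real.exp_add]; norm_num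
      have h4 := Real.exp_one_lt_d9
      have h5 := Real.exp_pos (1/2)
      nlinarith
    linarith
  set D : ℝ → ℝ := fun x => (1 - t) * rho x - rho (l * x) with hD
  have hDc : Continuous D := by
    apply Continuous.sub
    · exact continuous_const.mul rho_cont
    · exact rho_cont.comp (continuous_const.mul continuous_id)
  have hDI : ∀ a b : ℝ, IntervalIntegrable D volume a b := fun a b => hDc.intervalIntegrable a b
  have hrI : ∀ a b : ℝ, IntervalIntegrable rho volume a b := fun a b => rho_cont.intervalIntegrable a b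
  have hlI : ∀ a b : ℝ, IntervalIntegrable (fun s => rho (l * s)) volume a b := fun a b =>
    (rho_cont.comp (continuous_const.mul continuous_id)).intervalIntegrable a b
  by_contra hcon
  push Not at hcon
  have hneg : D x0 < 0 := by simp only [hD]; linarith
  obtain ⟨x, hx, hmin⟩ := isCompact_Icc.exists_isMinOn (nonempty_Icc.mpr hx0) hDc.continuousOn
  have hm : D x ≤ D x0 := hmin (right_mem_Icc.mpr hx0)
  have hmneg : D x < 0 := lt_of_le_of_lt hm hneg
  have hx1 : 1 ≤ x := hx.1
  have hxl : 1 ≤ l * x := by nlinarith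
  have hintD : ∀ a b : ℝ, ∫ s in a..b, D s = (1 - t) * (∫ s in a..b, rho s) - ∫ s in a..b, rho (l * s) := by
    intro a b
    simp only [hD]
    rw [intervalIntegral.integral_sub ((hrI a b).const_mul _) (hlI a b),
      intervalIntegral.integral_const_mul]
  have e1 := rho_integral hx1
  have e2 := rho_scaled_integral hl0 hxl
  have hminI : ∀ a : ℝ, 1 ≤ a → a ≤ x → (x - a) * D x ≤ ∫ s in a..x, D s := by
    intro a ha hax
    have h1 : ∫ s in a..x, (fun _ => D x) s ≤ ∫ s in a..x, D s := by
      apply intervalIntegral.integral_mono_on hax (by simp) (hDI _ _)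
      intro s hs
      exact hmin ⟨by linarith [hs.1], by linarith [hs.2, hx.2]⟩
    simpa using h1
  rcases le_or_gt (l * x) 2 with h | h
  · -- direct region
    have h3 : D x = t * Real.log x := by
      simp only [hD]
      rw [rho_eq_log hxl h, rho_eq_log hx1 (by nlinarith), Real.log_mul hl0.ne' (by linarith), hlogl]
      ring
    have h4 := Real.log_nonneg hx1
    nlinarith
  · rcases le_or_gt x 2 with hx2 | hx2
    · -- 2/l < x <= 2
      have h5 : (∫ s in (x-1)..x, rho s) = (2 - x) + ∫ s in (1:ℝ)..x, rho s := by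
        rw [← intervalIntegral.integral_add_adjacent_intervals (hrI (x-1) 1) (hrI 1 x)]
        congr 1
        have : ∫ s in (x-1)..1, rho s = ∫ s in (x-1)..1, (1:ℝ) := by
          apply intervalIntegral.integral_congr
          intro s hs
          rw [uIcc_of_le (by linarith)] at hs
          exact rho_of_le_one hs.2
        rw [this]
        simp
        ring
      have h6 : (∫ s in (x-1/l)..x, rho (l*s)) = (∫ s in (x-1/l)..1, rho (l*s)) + ∫ s in (1:ℝ)..x, rho (l*s) := by
        rw [← intervalIntegral.integral_add_adjacent_intervals (hlI (x-1/l) 1) (hlI 1 x)]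
      have hinv : 1/l ≤ 1 := by rw [div_le_one hl0]; exact hl1
      have hinv0 : 0 < 1/l := by positivity
      have hll : l * (1/l) = 1 := by field_simp
      have hB : (∫ s in (x-1/l)..1, rho (l*s)) ≤ (1-t) * (2 - x) := by
        rcases le_or_gt (x - 1/l) 1 with hc | hc
        · have h7 : (∫ s in (x-1/l)..1, rho (l*s)) ≤ ∫ s in (x-1/l)..1, (1:ℝ) := by
            apply intervalIntegral.integral_mono_on hc (hlI _ _) (by simp)
            intro s _
            exact rho_le_one _
          have h8 : ∫ s in (x-1/l)..1, (1:ℝ) = 1 - (x - 1/l) := by simp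
          have h9 : 1 - (x - 1/l) ≤ (1-t) * (2-x) := by
            have hx2l : 2 * (1/l) ≤ x := by
              nlinarith
            have : (1 - 1/l) * (1 - 2*t) ≥ 0 := mul_nonneg (by linarith) (by linarith)
            nlinarith
          linarith
        · have h7 : (∫ s in (x-1/l)..1, rho (l*s)) = - ∫ s in (1:ℝ)..(x-1/l), rho (l*s) :=
            intervalIntegral.integral_symm _ _
          have h8 : 0 ≤ ∫ s in (1:ℝ)..(x-1/l), rho (l*s) := by
            apply intervalIntegral.integral_nonneg hc.le
            intro s _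
            exact (rho_pos _).le
          have h9 : 0 ≤ (1-t)*(2-x) := mul_nonneg (by linarith) (by linarith)
          linarith
      have h10 := hintD 1 x
      have h11 := hminI 1 le_rfl hx1
      have h12 : x * D x = (1-t) * (x * rho x) - x * rho (l*x) := by simp only [hD]; ring
      have h13 : x * D x ≥ ∫ s in (1:ℝ)..x, D s := by
        rw [h12, ← e1, ← e2, h5, h6, h10]
        nlinarith
      nlinarith
    · -- x > 2
      have h5 : x * D x = (1-t) * (x * rho x) - x * rho (l*x) := by simp only [hD]; ring
      have h6 := hintD (x-1) x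
      have hinv : 1/l ≤ 1 := by rw [div_le_one hl0]; exact hl1
      have h7 : (∫ s in (x-1)..x, rho (l*s)) = (∫ s in (x-1)..(x-1/l), rho (l*s)) + ∫ s in (x-1/l)..x, rho (l*s) := by
        rw [← intervalIntegral.integral_add_adjacent_intervals (hlI _ _) (hlI _ _)]
      have h8 : 0 ≤ ∫ s in (x-1)..(x-1/l), rho (l*s) := by
        apply intervalIntegral.integral_nonneg (by linarith)
        intro s _
        exact (rho_pos _).le
      have h9 := hminI (x-1) (by linarith) (by linarith)
      have h10 : x * D x ≥ ∫ s in (x-1)..x, D s := by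
        rw [h5, ← e1, ← e2, h6, h7]
        linarith
      nlinarith

/-- `∏ (1 - t_i) ≥ ρ(exp(Σ t_i))` for `0 ≤ t_i ≤ 1/2`. -/
lemma prod_ge_rho {ι : Type*} (s : Finset ι) (t : ι → ℝ) (h0 : ∀ i ∈ s, 0 ≤ t i)
    (h1 : ∀ i ∈ s, t i ≤ 1/2) :
    rho (Real.exp (∑ i ∈ s, t i)) ≤ ∏ i ∈ s, (1 - t i) := by
  classical
  induction s using Finset.induction_on with
  | empty => simp [rho_of_le_one]
  | insert a s ha ih =>
    rw [Finset.sum_insert ha, Finset.prod_insert ha, Real.exp_add]
    have h2 : 0 ≤ ∑ i ∈ s, t i := Finset.sum_nonneg (fun i hi => h0 i (Finset.mem_insert_of_mem hi))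
    have h3 := rho_mul_exp (h0 a (Finset.mem_insert_self a s)) (h1 a (Finset.mem_insert_self a s))
      (Real.one_le_exp h2)
    have h4 := ih (fun i hi => h0 i (Finset.mem_insert_of_mem hi))
      (fun i hi => h1 i (Finset.mem_insert_of_mem hi))
    have h5 : 0 ≤ 1 - t a := by linarith [h1 a (Finset.mem_insert_self a s)]
    calc rho (Real.exp (t a) * Real.exp (∑ i ∈ s, t i))
        ≤ (1 - t a) * rho (Real.exp (∑ i ∈ s, t i)) := h3
      _ ≤ (1 - t a) * ∏ i ∈ s, (1 - t i) := mul_le_mul_of_nonneg_left h4 h5

end Pool.Agent.CoprimeSieve
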