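import Mathlib
import Pool.Agent.CoprimeSieve.Dickman
import Pool.Agent.CoprimeSieve.Mertens

set_option autoImplicit false

open Finset

namespace Pool.Agent.CoprimeSieve

/-- `H(x) = V₀ ∏_{p ∈ P, p ≤ x} (1-1/p)^{-1}`. -/
noncomputable def HH (P : Finset ℕ) (V0 : ℝ) (x : ℝ) : ℝ :=
  V0 * ∏ p ∈ P.filter (fun p : ℕ => (p:ℝ) ≤ x), (1 - 1/(p:ℝ))⁻¹

/-- `H(q-)`. -/
noncomputable def Hm (P : Finset ℕ) (V0 : ℝ) (q : ℕ) : ℝ :=
  V0 * ∏ p ∈ P.filter (fun p : ℕ => p < q), (1 - 1/(p:ℝ))⁻¹

/-- Telescoping over an initial-segment filtration of a finite set. -/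
lemma telescope (φ : Finset ℕ → ℝ) (S : Finset ℕ) :
    φ S = φ ∅ + ∑ q ∈ S, (φ (S.filter (fun p => p ≤ q)) - φ (S.filter (fun p => p < q))) := by
  induction S using Finset.induction_on_max with
  | empty => simp
  | insert a S hlt ih =>
    have ha : a ∉ S := fun h => lt_irrefl _ (hlt a h)
    rw [Finset.sum_insert ha]
    have e1 : (insert a S).filter (fun p => p ≤ a) = insert a S := by
      apply Finset.filter_true_of_mem
      intro p hp
      rcases Finset.mem_insert.mp hp with h | h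
      · exact h.le
      · exact (hlt p h).le
    have e2 : (insert a S).filter (fun p => p < a) = S := by
      ext p
      simp only [mem_filter, mem_insert]
      constructor
      · rintro ⟨h | h, h2⟩
        · omega
        · exact h
      · intro h
        exact ⟨Or.inr h, hlt p h⟩
    have e3 : ∀ q ∈ S, (insert a S).filter (fun p => p ≤ q) = S.filter (fun p => p ≤ q) := by
      intro q hq
      ext p
      simp only [mem_filter, mem_insert]
      constructor
      · rintro ⟨h | h, h2⟩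
        · have := hlt q hq; omega
        · exact ⟨h, h2⟩
      · rintro ⟨h, h2⟩
        exact ⟨Or.inr h, h2⟩
    have e4 : ∀ q ∈ S, (insert a S).filter (fun p => p < q) = S.filter (fun p => p < q) := by
      intro q hq
      ext p
      simp only [mem_filter, mem_insert]
      constructor
      · rintro ⟨h | h, h2⟩
        · have := hlt q hq; omega
        · exact ⟨h, h2⟩
      · rintro ⟨h, h2⟩
        exact ⟨Or.inr h, h2⟩
    have e5 : ∑ q ∈ S, (φ ((insert a S).filter (fun p => p ≤ q)) - φ ((insert a S).filter (fun p => p < q)))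
        = ∑ q ∈ S, (φ (S.filter (fun p => p ≤ q)) - φ (S.filter (fun p => p < q))) := by
      apply Finset.sum_congr rfl
      intro q hq
      rw [e3 q hq, e4 q hq]
    rw [e1, e2, e5]
    linarith

lemma HH_nat (P : Finset ℕ) (V0 : ℝ) (q : ℕ) :
    HH P V0 (q:ℝ) = V0 * ∏ p ∈ P.filter (fun p : ℕ => p ≤ q), (1 - 1/(p:ℝ))⁻¹ := by
  unfold HH
  congr 2
  apply Finset.filter_congr
  intro p _
  exact Nat.cast_le

/-- Telescoping for functions of `H`. -/
lemma telescope_H (P : Finset ℕ) (V0 : ℝ) (F : ℝ → ℝ) (x : ℝ) :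
    F (HH P V0 x) = F V0 + ∑ q ∈ P.filter (fun p : ℕ => (p:ℝ) ≤ x), (F (HH P V0 q) - F (Hm P V0 q)) := by
  have h := telescope (fun S => F (V0 * ∏ p ∈ S, (1 - 1/(p:ℝ))⁻¹)) (P.filter (fun p : ℕ => (p:ℝ) ≤ x))
  simp only [Finset.prod_empty, mul_one] at h
  unfold HH at *
  rw [h]
  congr 1
  apply Finset.sum_congr rfl
  intro q hq
  rw [mem_filter] at hq
  have e1 : (P.filter (fun p : ℕ => (p:ℝ) ≤ x)).filter (fun p => p ≤ q)
      = P.filter (fun p : ℕ => (p:ℝ) ≤ (q:ℝ)) := by
    ext p
    simp only [mem_filter, Nat.cast_le]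
    constructor
    · rintro ⟨⟨h1, _⟩, h3⟩; exact ⟨h1, h3⟩
    · rintro ⟨h1, h3⟩
      refine ⟨⟨h1, ?_⟩, h3⟩
      have : (p:ℝ) ≤ q := by exact_mod_cast h3
      linarith [hq.2]
  have e2 : (P.filter (fun p : ℕ => (p:ℝ) ≤ x)).filter (fun p => p < q)
      = P.filter (fun p : ℕ => p < q) := by
    ext p
    simp only [mem_filter]
    constructor
    · rintro ⟨⟨h1, _⟩, h3⟩; exact ⟨h1, h3⟩
    · rintro ⟨h1, h3⟩
      refine ⟨⟨h1, ?_⟩, h3⟩
      have : (p:ℝ) ≤ q := by exact_mod_cast h3.le
      linarith [hq.2]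
  rw [e1, e2]
  rfl

section
variable {P : Finset ℕ} {V0 : ℝ}

lemma fac_ge_one {p : ℕ} (hp : p.Prime) : 1 ≤ (1 - 1/(p:ℝ))⁻¹ := by
  have hp2 : (2:ℝ) ≤ p := by exact_mod_cast hp.two_le
  have h1 : 1/(p:ℝ) ≤ 1/2 := by apply one_div_le_one_div_of_le <;> linarith
  have h2 : 0 < 1/(p:ℝ) := by positivity
  rw [one_le_inv₀ (by linarith)]
  linarith

lemma HH_mono (hP : ∀ p ∈ P, p.Prime) (hV0 : 1 ≤ V0) {x y : ℝ} (h : x ≤ y) :
    HH P V0 x ≤ HH P V0 y := by
  unfold HH
  apply mul_le_mul_of_nonneg_left _ (by linarith)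
  apply Finset.prod_le_prod_of_subset_of_one_le
  · intro p hp
    rw [mem_filter] at *
    exact ⟨hp.1, hp.2.trans h⟩
  · intro p hp
    have := fac_ge_one (hP p (mem_filter.mp hp).1)
    linarith
  · intro p hp _
    exact fac_ge_one (hP p (mem_filter.mp hp).1)

lemma HH_ge_V0 (hP : ∀ p ∈ P, p.Prime) (hV0 : 1 ≤ V0) (x : ℝ) : V0 ≤ HH P V0 x := by
  unfold HH
  have h : 1 ≤ ∏ p ∈ P.filter (fun p : ℕ => (p:ℝ) ≤ x), (1 - 1/(p:ℝ))⁻¹ := by
    apply Finset.one_le_prod
    intro p hp
    exact fac_ge_one (hP p (mem_filter.mp hp).1)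
  nlinarith

lemma Hm_ge_V0 (hP : ∀ p ∈ P, p.Prime) (hV0 : 1 ≤ V0) (q : ℕ) : V0 ≤ Hm P V0 q := by
  unfold Hm
  have h : 1 ≤ ∏ p ∈ P.filter (fun p : ℕ => p < q), (1 - 1/(p:ℝ))⁻¹ := by
    apply Finset.one_le_prod
    intro p hp
    exact fac_ge_one (hP p (mem_filter.mp hp).1)
  nlinarith

lemma HH_eq_Hm {q : ℕ} (hq : q ∈ P) : HH P V0 q = Hm P V0 q * (1 - 1/(q:ℝ))⁻¹ := by
  rw [HH_nat]
  unfold Hm
  have e : P.filter (fun p : ℕ => p ≤ q) = insert q (P.filter (fun p : ℕ => p < q)) := by
    ext p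
    simp only [mem_filter, mem_insert]
    constructor
    · rintro ⟨h1, h2⟩
      rcases h2.eq_or_lt with h | h
      · exact Or.inl h
      · exact Or.inr ⟨h1, h⟩
    · rintro (h | ⟨h1, h2⟩)
      · subst h; exact ⟨hq, le_rfl⟩
      · exact ⟨h1, h2.le⟩
  rw [e, Finset.prod_insert (by simp)]
  ring

lemma HH_sub_Hm (hP : ∀ p ∈ P, p.Prime) {q : ℕ} (hq : q ∈ P) :
    HH P V0 q - Hm P V0 q = HH P V0 q / q := by
  rw [HH_eq_Hm hq]
  have hq2 : (2:ℝ) ≤ q := by exact_mod_cast (hP q hq).two_le
  have h1 : (q:ℝ) ≠ 0 := by linarith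
  have h2 : (q:ℝ) - 1 ≠ 0 := by linarith
  have h3 : (1 - 1/(q:ℝ))⁻¹ = q / (q - 1) := by
    rw [one_sub_div h1, inv_div]
  rw [h3]
  field_simp
  ring

lemma Hm_le_HH (hP : ∀ p ∈ P, p.Prime) (hV0 : 1 ≤ V0) {q : ℕ} (hq : q ∈ P) :
    Hm P V0 q ≤ HH P V0 q := by
  have h := HH_sub_Hm (V0 := V0) hP hq
  have h1 := HH_ge_V0 (P := P) hP hV0 (q:ℝ)
  have h2 : 0 ≤ HH P V0 q / q := div_nonneg (by linarith) (Nat.cast_nonneg q)
  linarith

lemma Hm_mono (hP : ∀ p ∈ P, p.Prime) (hV0 : 1 ≤ V0) {q r : ℕ} (h : q ≤ r) :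
    Hm P V0 q ≤ Hm P V0 r := by
  unfold Hm
  apply mul_le_mul_of_nonneg_left _ (by linarith)
  apply Finset.prod_le_prod_of_subset_of_one_le
  · intro p hp
    rw [mem_filter] at *
    exact ⟨hp.1, lt_of_lt_of_le hp.2 h⟩
  · intro p hp
    have := fac_ge_one (hP p (mem_filter.mp hp).1)
    linarith
  · intro p hp _
    exact fac_ge_one (hP p (mem_filter.mp hp).1)

end

lemma sum_inv_mul_pred (a b : ℕ) (ha : 1 ≤ a) (hab : a ≤ b) :
    ∑ m ∈ Finset.Ioc a b, 1 / ((m:ℝ) * (m - 1)) = 1 / (a:ℝ) - 1 / b := by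
  induction b, hab using Nat.le_induction with
  | base => simp
  | succ b hb ih =>
    rw [Finset.sum_Ioc_succ_top (by omega), ih]
    have hb0 : (b:ℝ) ≠ 0 := by
      have : 0 < b := by omega
      positivity
    have ha0 : (a:ℝ) ≠ 0 := by
      have : 0 < a := by omega
      positivity
    push_cast
    have : (b:ℝ) + 1 ≠ 0 := by positivity
    rw [add_sub_cancel_right]
    field_simp
    ring

/-- Mertens bound for partial Euler products. -/
lemma euler_upper : ∃ C : ℝ, 0 ≤ C ∧ ∀ (P : Finset ℕ), (∀ p ∈ P, p.Prime) → ∀ a b : ℕ, 2 ≤ a → a ≤ b →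
    ∏ p ∈ P.filter (fun p : ℕ => a < p ∧ p ≤ b), (1 - 1/(p:ℝ))⁻¹
      ≤ (Real.log b / Real.log a) * Real.exp (C / Real.log a) := by
  obtain ⟨C, hC, hM⟩ := mertens_second_upper
  refine ⟨C + 1, by linarith, ?_⟩
  intro P hP a b ha hab
  have ha' : (2:ℝ) ≤ a := by exact_mod_cast ha
  have hab' : (a:ℝ) ≤ b := by exact_mod_cast hab
  have hloga : 0 < Real.log a := Real.log_pos (by linarith)
  have hlogb : 0 < Real.log b := Real.log_pos (by linarith)
  have h1 : ∏ p ∈ P.filter (fun p : ℕ => a < p ∧ p ≤ b), (1 - 1/(p:ℝ))⁻¹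
      ≤ ∏ p ∈ P.filter (fun p : ℕ => a < p ∧ p ≤ b), Real.exp (1 / (p:ℝ) + 1 / ((p:ℝ) * (p - 1))) := by
    apply Finset.prod_le_prod
    · intro p hp
      have := fac_ge_one (hP p (mem_filter.mp hp).1)
      linarith
    · intro p hp
      have hp' := hP p (mem_filter.mp hp).1
      have hp2 : (2:ℝ) ≤ p := by exact_mod_cast hp'.two_le
      have h1 : (p:ℝ) ≠ 0 := by linarith
      have h2 : (p:ℝ) - 1 ≠ 0 := by linarith
      have h3 : (1 - 1/(p:ℝ))⁻¹ = (1 / (p:ℝ) + 1 / ((p:ℝ) * (p - 1))) + 1 := by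
        rw [one_sub_div h1, inv_div]
        field_simp
        ring
      rw [h3]
      exact Real.add_one_le_exp _
  rw [← Real.exp_sum] at h1
  have h2 : ∑ p ∈ P.filter (fun p : ℕ => a < p ∧ p ≤ b), (1 / (p:ℝ) + 1 / ((p:ℝ) * (p - 1)))
      ≤ (Real.log (Real.log b / Real.log a) + C / Real.log a) + 1 / a := by
    rw [Finset.sum_add_distrib]
    have hsub : P.filter (fun p : ℕ => a < p ∧ p ≤ b) ⊆ (pr (b:ℝ)).filter (fun p : ℕ => (a:ℝ) < (p:ℝ)) := by
      intro p hp
      rw [mem_filter] at *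
      rw [mem_pr]
      exact ⟨⟨hP p hp.1, by exact_mod_cast hp.2.2⟩, by exact_mod_cast hp.2.1⟩
    have hsub2 : P.filter (fun p : ℕ => a < p ∧ p ≤ b) ⊆ Finset.Ioc a b := by
      intro p hp
      rw [mem_filter] at hp
      rw [mem_Ioc]
      exact hp.2
    have h3 : ∑ p ∈ P.filter (fun p : ℕ => a < p ∧ p ≤ b), 1 / (p:ℝ)
        ≤ Real.log (Real.log b / Real.log a) + C / Real.log a := by
      refine le_trans ?_ (hM a b ha' hab')
      exact Finset.sum_le_sum_of_subset_of_nonneg hsub (fun p _ _ => by positivity)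
    have h4 : ∑ p ∈ P.filter (fun p : ℕ => a < p ∧ p ≤ b), 1 / ((p:ℝ) * (p - 1)) ≤ 1 / a := by
      calc _ ≤ ∑ m ∈ Finset.Ioc a b, 1 / ((m:ℝ) * (m - 1)) := by
            apply Finset.sum_le_sum_of_subset_of_nonneg hsub2
            intro p hp _
            rw [mem_Ioc] at hp
            have : (1:ℝ) ≤ p := by exact_mod_cast (by omega : 1 ≤ p)
            have : 0 ≤ (p:ℝ) - 1 := by linarith
            positivity
        _ = 1 / (a:ℝ) - 1 / b := sum_inv_mul_pred a b (by omega) hab
        _ ≤ 1 / a := by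
            have : 0 ≤ 1 / (b:ℝ) := by positivity
            linarith
    linarith
  have h3 : 1 / (a:ℝ) ≤ 1 / Real.log a := by
    apply one_div_le_one_div_of_le hloga
    exact (Real.log_le_sub_one_of_pos (by linarith)).trans (by linarith)
  calc _ ≤ Real.exp ((Real.log (Real.log b / Real.log a) + C / Real.log a) + 1 / Real.log a) := by
        refine h1.trans (Real.exp_le_exp.mpr ?_)
        linarith
    _ = (Real.log b / Real.log a) * Real.exp ((C + 1) / Real.log a) := by
        rw [add_assoc, Real.exp_add, Real.exp_log (by positivity), ← add_div]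

/-- `α(q) = log q / H(q)` is nondecreasing up to a bounded error. -/
lemma alpha_mono : ∃ C : ℝ, 0 ≤ C ∧ ∀ (P : Finset ℕ), (∀ p ∈ P, p.Prime) → ∀ V0 : ℝ, 1 ≤ V0 →
    ∀ a b : ℕ, 2 ≤ a → a ≤ b →
    Real.log a / HH P V0 a - C ≤ Real.log b / HH P V0 b := by
  obtain ⟨C, hC, hE⟩ := euler_upper
  refine ⟨C, hC, ?_⟩
  intro P hP V0 hV0 a b ha hab
  have ha' : (2:ℝ) ≤ a := by exact_mod_cast ha
  have hab' : (a:ℝ) ≤ b := by exact_mod_cast hab
  have hloga : 0 < Real.log a := Real.log_pos (by linarith)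
  have hlogb : 0 < Real.log b := Real.log_pos (by linarith)
  have hHa : 1 ≤ HH P V0 a := hV0.trans (HH_ge_V0 hP hV0 _)
  have hHb : 1 ≤ HH P V0 b := hV0.trans (HH_ge_V0 hP hV0 _)
  have e1 : HH P V0 b = HH P V0 a * ∏ p ∈ P.filter (fun p : ℕ => a < p ∧ p ≤ b), (1 - 1/(p:ℝ))⁻¹ := by
    rw [HH_nat, HH_nat, mul_assoc, ← Finset.prod_union]
    · congr 2
      ext p
      simp only [mem_filter, mem_union]
      constructor
      · rintro ⟨h1, h2⟩
        rcases le_or_gt p a with h | h
        · exact Or.inl ⟨h1, h⟩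
        · exact Or.inr ⟨h1, h, h2⟩
      · rintro (⟨h1, h2⟩ | ⟨h1, h2, h3⟩)
        · exact ⟨h1, h2.trans hab⟩
        · exact ⟨h1, h3⟩
    · rw [Finset.disjoint_filter]
      intro p _ h1 h2
      omega
  have h1 := hE P hP a b ha hab
  have h2 : HH P V0 b ≤ HH P V0 a * ((Real.log b / Real.log a) * Real.exp (C / Real.log a)) := by
    rw [e1]
    exact mul_le_mul_of_nonneg_left h1 (by linarith)
  have h3 : Real.exp (C / Real.log a) * (1 - C / Real.log a) ≤ 1 := by
    have h4 := Real.add_one_le_exp (-(C / Real.log a))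
    have h5 : Real.exp (C / Real.log a) * Real.exp (-(C / Real.log a)) = 1 := by
      rw [← Real.exp_add]; simp
    have h6 := Real.exp_pos (C / Real.log a)
    nlinarith
  rw [le_div_iff₀ (by linarith)]
  have h7 : Real.log a / HH P V0 a - C ≤ (Real.log a / HH P V0 a) * (1 - C / Real.log a) := by
    have e2 : (Real.log a / HH P V0 a) * (1 - C / Real.log a) = Real.log a / HH P V0 a - C / HH P V0 a := by
      field_simp
    rw [e2]
    have : C / HH P V0 a ≤ C := div_le_self hC hHa
    linarith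
  rcases le_or_gt (Real.log a / HH P V0 a - C) 0 with h8 | h8
  · nlinarith
  · calc (Real.log a / HH P V0 a - C) * HH P V0 b
        ≤ (Real.log a / HH P V0 a - C) * (HH P V0 a * ((Real.log b / Real.log a) * Real.exp (C / Real.log a))) :=
          mul_le_mul_of_nonneg_left h2 h8.le
      _ ≤ ((Real.log a / HH P V0 a) * (1 - C / Real.log a)) * (HH P V0 a * ((Real.log b / Real.log a) * Real.exp (C / Real.log a))) := by
          apply mul_le_mul_of_nonneg_right h7
          have := Real.exp_pos (C / Real.log a)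
          have : 0 < HH P V0 a := by linarith
          positivity
      _ = Real.log b * (Real.exp (C / Real.log a) * (1 - C / Real.log a)) := by
          have : HH P V0 a ≠ 0 := by linarith
          field_simp
      _ ≤ Real.log b * 1 := mul_le_mul_of_nonneg_left h3 hlogb.le
      _ = Real.log b := mul_one _

lemma Fh_sub (a b : ℝ) : (∫ y in (0:ℝ)..b, rho (y-1)) - ∫ y in (0:ℝ)..a, rho (y-1)
    = ∫ y in a..b, rho (y-1) := by
  have hc : Continuous (fun y : ℝ => rho (y-1)) := rho_cont.comp (continuous_id.sub continuous_const)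
  exact intervalIntegral.integral_interval_sub_left (hc.intervalIntegrable _ _) (hc.intervalIntegrable _ _)

/-- The core inequality (K). -/
lemma key_sum : ∃ C : ℝ, 0 ≤ C ∧ ∀ (P : Finset ℕ), (∀ p ∈ P, p.Prime) → ∀ V0 : ℝ, 1 ≤ V0 →
    ∀ x V : ℝ, V = HH P V0 x →
    rho (V-1) * (∑ q ∈ P.filter (fun p : ℕ => (p:ℝ) ≤ x), Real.log q / q) - (V^2 + 2 * V + 2 * C * V)
    ≤ ∑ q ∈ P.filter (fun p : ℕ => (p:ℝ) ≤ x),
      (min (rho (Hm P V0 q)) (rho (V-1)) - min (rho (HH P V0 q)) (rho (V-1))) * Real.log q := by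
  classical
  obtain ⟨C, hC, hA⟩ := alpha_mono
  refine ⟨C, hC, ?_⟩
  intro P hP V0 hV0 x V hV
  set g := rho (V-1) with hg
  have hg0 : 0 < g := rho_pos _
  have hg1 : g ≤ 1 := rho_le_one _
  have hV1 : 1 ≤ V := by rw [hV]; exact hV0.trans (HH_ge_V0 hP hV0 _)
  set S := P.filter (fun p : ℕ => (p:ℝ) ≤ x) with hS
  have hSP : ∀ q ∈ S, q ∈ P := fun q hq => (mem_filter.mp hq).1
  have hSx : ∀ q ∈ S, (q:ℝ) ≤ x := fun q hq => (mem_filter.mp hq).2
  have hlog : ∀ q ∈ S, 0 ≤ Real.log q := fun q _ => Real.log_natCast_nonneg q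
  have hHV : ∀ q ∈ S, HH P V0 q ≤ V := by
    intro q hq
    rw [hV]
    exact HH_mono hP hV0 (hSx q hq)
  have hq2 : ∀ q ∈ S, (2:ℝ) ≤ q := fun q hq => by exact_mod_cast (hP q (hSP q hq)).two_le
  have hHm1 : ∀ q : ℕ, 1 ≤ Hm P V0 q := fun q => hV0.trans (Hm_ge_V0 hP hV0 q)
  have hHH1 : ∀ y : ℝ, 1 ≤ HH P V0 y := fun y => hV0.trans (HH_ge_V0 hP hV0 y)
  -- step (i)
  have hdK : ∀ q ∈ S, 0 ≤ min (rho (Hm P V0 q)) g - min (rho (HH P V0 q)) g := by
    intro q hq
    have := rho_anti (Hm_le_HH (V0 := V0) hP hV0 (hSP q hq))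
    have := min_le_min_right g this
    linarith
  set B := S.filter (fun q => V - 1 ≤ Hm P V0 q) with hB
  set B' := S.filter (fun q => ¬ (V - 1 ≤ Hm P V0 q)) with hB'
  have hBS : ∀ q ∈ B, q ∈ S := fun q hq => (mem_filter.mp hq).1
  have hB'S : ∀ q ∈ B', q ∈ S := fun q hq => (mem_filter.mp hq).1
  -- step (ii)
  have hdKB : ∀ q ∈ B, rho (HH P V0 q - 1) / q ≤ min (rho (Hm P V0 q)) g - min (rho (HH P V0 q)) g := by
    intro q hq
    have hqS := hBS q hq
    have hqP := hSP q hqS
    have h1 : V - 1 ≤ Hm P V0 q := (mem_filter.mp hq).2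
    have h2 := Hm_le_HH (V0 := V0) hP hV0 hqP
    rw [min_eq_left (rho_anti h1), min_eq_left (rho_anti (h1.trans h2))]
    have h3 := rho_sub_ge_log (hHm1 q) h2
    have h4 : 1 / (q:ℝ) ≤ Real.log (HH P V0 q / Hm P V0 q) := by
      rw [HH_eq_Hm hqP]
      have h5 : Hm P V0 q ≠ 0 := by linarith [hHm1 q]
      rw [mul_div_cancel_left₀ _ h5, Real.log_inv]
      have h6 : 0 < 1 - 1/(q:ℝ) := by
        have := hq2 q hqS
        have : 1/(q:ℝ) ≤ 1/2 := by apply one_div_le_one_div_of_le <;> linarith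
        linarith
      have h7 := Real.log_le_sub_one_of_pos h6
      linarith
    have h5 := rho_pos (HH P V0 q - 1)
    calc rho (HH P V0 q - 1) / q = rho (HH P V0 q - 1) * (1 / q) := by ring
      _ ≤ rho (HH P V0 q - 1) * Real.log (HH P V0 q / Hm P V0 q) := mul_le_mul_of_nonneg_left h4 h5.le
      _ ≤ _ := h3
  have hsplit : ∀ f : ℕ → ℝ, ∑ q ∈ S, f q = ∑ q ∈ B, f q + ∑ q ∈ B', f q := by
    intro f
    rw [hB, hB', Finset.sum_filter_add_sum_filter_not]
  have hstep3 : ∑ q ∈ B, Real.log q / q * rho (HH P V0 q - 1)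
      ≤ ∑ q ∈ S, (min (rho (Hm P V0 q)) g - min (rho (HH P V0 q)) g) * Real.log q := by
    rw [hsplit (fun q => (min (rho (Hm P V0 q)) g - min (rho (HH P V0 q)) g) * Real.log q)]
    have h1 : ∑ q ∈ B, Real.log q / q * rho (HH P V0 q - 1)
        ≤ ∑ q ∈ B, (min (rho (Hm P V0 q)) g - min (rho (HH P V0 q)) g) * Real.log q := by
      apply Finset.sum_le_sum
      intro q hq
      have h2 := mul_le_mul_of_nonneg_right (hdKB q hq) (hlog q (hBS q hq))
      calc Real.log q / q * rho (HH P V0 q - 1) = rho (HH P V0 q - 1) / q * Real.log q := by ring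
        _ ≤ _ := h2
    have h2 : 0 ≤ ∑ q ∈ B', (min (rho (Hm P V0 q)) g - min (rho (HH P V0 q)) g) * Real.log q :=
      Finset.sum_nonneg (fun q hq => mul_nonneg (hdK q (hB'S q hq)) (hlog q (hB'S q hq)))
    linarith
  -- main inequality
  have hmain : g * (∑ q ∈ B', Real.log q / q) - (V^2 + 2 * V + 2 * C * V)
      ≤ ∑ q ∈ B, Real.log q / q * (rho (HH P V0 q - 1) - g) := by
    have ht : ∀ q ∈ S, 0 ≤ rho (HH P V0 q - 1) - g := by
      intro q hq
      have := rho_anti (show HH P V0 q - 1 ≤ V - 1 by linarith [hHV q hq])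
      linarith
    rcases B'.eq_empty_or_nonempty with hemp | hne
    · rw [hemp]
      simp only [Finset.sum_empty, mul_zero]
      have h1 : 0 ≤ ∑ q ∈ B, Real.log q / q * (rho (HH P V0 q - 1) - g) :=
        Finset.sum_nonneg (fun q hq => mul_nonneg (logdiv_nonneg q) (ht q (hBS q hq)))
      have : 0 ≤ V^2 + 2 * V + 2 * C * V := by positivity
      linarith
    · set w := B'.max' hne with hw
      have hwB' : w ∈ B' := Finset.max'_mem _ _
      have hwS := hB'S w hwB'
      have hwP := hSP w hwS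
      have hwlt : Hm P V0 w < V - 1 := by
        have := (mem_filter.mp hwB').2
        push Not at this
        exact this
      have hw2 : (2:ℝ) ≤ w := hq2 w hwS
      have hw2' : 2 ≤ w := (hP w hwP).two_le
      have hw0 : (0:ℝ) < w := by linarith
      set Hw := HH P V0 w with hHw
      have hHw1 : 1 ≤ Hw := hHH1 w
      have hHwV : Hw ≤ V := hHV w hwS
      set a1 := Real.log w / Hw with ha1
      have hlogw : 0 < Real.log w := Real.log_pos (by linarith)
      have ha1pos : 0 ≤ a1 := by positivity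
      have ha1w : a1 / w ≤ 1 := by
        rw [div_le_one hw0, ha1]
        have h1 : Real.log w / Hw ≤ Real.log w := div_le_self hlogw.le hHw1
        have h2 := Real.log_le_sub_one_of_pos hw0
        linarith
      have hB'eq : B' = P.filter (fun p : ℕ => (p:ℝ) ≤ (w:ℝ)) := by
        ext q
        constructor
        · intro hq
          rw [mem_filter]
          exact ⟨hSP q (hB'S q hq), by exact_mod_cast Finset.le_max' B' q hq⟩
        · intro hq
          rw [mem_filter] at hq
          have h1 : q ≤ w := by exact_mod_cast hq.2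
          rw [hB', mem_filter, hS, mem_filter]
          refine ⟨⟨hq.1, hq.2.trans (hSx w hwS)⟩, ?_⟩
          push Not
          exact lt_of_le_of_lt (Hm_mono hP hV0 h1) hwlt
      have htelB' : ∀ F : ℝ → ℝ, ∑ q ∈ B', (F (HH P V0 q) - F (Hm P V0 q)) = F Hw - F V0 := by
        intro F
        have := telescope_H P V0 F (w:ℝ)
        rw [← hB'eq] at this
        linarith
      have htelB : ∀ F : ℝ → ℝ, ∑ q ∈ B, (F (HH P V0 q) - F (Hm P V0 q)) = F V - F Hw := by
        intro F
        have h1 := telescope_H P V0 F x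
        rw [← hS, ← hV, hsplit (fun q => (F (HH P V0 q) - F (Hm P V0 q))), htelB' F] at h1
        linarith
      have hdH : ∀ q ∈ S, HH P V0 q - Hm P V0 q = HH P V0 q / q := fun q hq =>
        HH_sub_Hm hP (hSP q hq)
      have hdH0 : ∀ q ∈ S, 0 ≤ HH P V0 q - Hm P V0 q := by
        intro q hq
        linarith [Hm_le_HH (V0 := V0) hP hV0 (hSP q hq)]
      have hlogq : ∀ q ∈ S, Real.log q / q = Real.log q / HH P V0 q * (HH P V0 q - Hm P V0 q) := by
        intro q hq
        rw [hdH q hq]
        have h1 : HH P V0 q ≠ 0 := by linarith [hHH1 q]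
        have h2 : (q:ℝ) ≠ 0 := by linarith [hq2 q hq]
        field_simp
      -- sum over B'
      have hHwV0 : Hw - V0 ≤ V - 2 + V / w := by
        have h1 : Hw - Hm P V0 w = Hw / w := hdH w hwS
        have h2 : Hw / w ≤ V / w := div_le_div_of_nonneg_right hHwV hw0.le
        linarith
      have hHwV0' : 0 ≤ Hw - V0 := by
        have := HH_ge_V0 (P := P) hP hV0 (w:ℝ)
        linarith
      have hsumB' : ∑ q ∈ B', Real.log q / q ≤ a1 * (V - 2) + V + C * V := by
        have h1 : ∑ q ∈ B', Real.log q / q ≤ ∑ q ∈ B', (a1 + C) * (HH P V0 q - Hm P V0 q) := by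
          apply Finset.sum_le_sum
          intro q hq
          rw [hlogq q (hB'S q hq)]
          apply mul_le_mul_of_nonneg_right _ (hdH0 q (hB'S q hq))
          have h2 := hA P hP V0 hV0 q w (hP q (hSP q (hB'S q hq))).two_le (Finset.le_max' B' q hq)
          linarith
        rw [← Finset.mul_sum] at h1
        have h3 := htelB' (fun y => y)
        rw [h3] at h1
        have h4 : (a1 + C) * (Hw - V0) ≤ a1 * (V - 2 + V / w) + C * V := by
          have h5 : a1 * (Hw - V0) ≤ a1 * (V - 2 + V / w) := mul_le_mul_of_nonneg_left hHwV0 ha1pos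
          have h6 : C * (Hw - V0) ≤ C * V := mul_le_mul_of_nonneg_left (by linarith) hC
          linarith
        have h5 : a1 * (V - 2 + V / w) = a1 * (V - 2) + (a1 / w) * V := by ring
        have h6 : (a1 / w) * V ≤ 1 * V := mul_le_mul_of_nonneg_right ha1w (by linarith)
        linarith
      -- sum over B
      set S2 := ∑ q ∈ B, (HH P V0 q - Hm P V0 q) * (rho (HH P V0 q - 1) - g) with hS2
      have hsumB : (a1 - C) * S2 ≤ ∑ q ∈ B, Real.log q / q * (rho (HH P V0 q - 1) - g) := by
        rw [hS2, Finset.mul_sum]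
        apply Finset.sum_le_sum
        intro q hq
        have hqS := hBS q hq
        rw [hlogq q hqS]
        have hwq : w ≤ q := by
          by_contra hcon
          push Not at hcon
          have h1 : V - 1 ≤ Hm P V0 q := (mem_filter.mp hq).2
          have h2 := Hm_mono (P := P) hP hV0 hcon.le
          linarith
        have h2 := hA P hP V0 hV0 w q hw2' hwq
        have h3 : 0 ≤ (HH P V0 q - Hm P V0 q) * (rho (HH P V0 q - 1) - g) :=
          mul_nonneg (hdH0 q hqS) (ht q hqS)
        have h4 := mul_le_mul_of_nonneg_right (show a1 - C ≤ Real.log q / HH P V0 q from h2) h3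
        calc _ ≤ _ := h4
          _ = _ := by ring
      have hS2up : S2 ≤ V := by
        have h1 : S2 ≤ ∑ q ∈ B, (HH P V0 q - Hm P V0 q) := by
          rw [hS2]
          apply Finset.sum_le_sum
          intro q hq
          have h2 := rho_le_one (HH P V0 q - 1)
          have h3 := hdH0 q (hBS q hq)
          nlinarith
        have h3 := htelB (fun y => y)
        linarith
      have hS2low : (V - 2) * g - (V + V^2) / w ≤ S2 := by
        have hc : Continuous (fun y : ℝ => rho (y-1)) := rho_cont.comp (continuous_id.sub continuous_const)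
        have h1 : ∀ q ∈ B, ((∫ y in (0:ℝ)..(HH P V0 q), rho (y-1)) - (∫ y in (0:ℝ)..(Hm P V0 q), rho (y-1)))
            - (HH P V0 q - Hm P V0 q) * (V / w) ≤ (HH P V0 q - Hm P V0 q) * rho (HH P V0 q - 1) := by
          intro q hq
          have hqS := hBS q hq
          rw [Fh_sub]
          have h2 : ∫ y in (Hm P V0 q)..(HH P V0 q), rho (y-1)
              ≤ ∫ y in (Hm P V0 q)..(HH P V0 q), (rho (HH P V0 q - 1) + (HH P V0 q - Hm P V0 q)) := by
            apply intervalIntegral.integral_mono_on (by linarith [hdH0 q hqS])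
              (hc.intervalIntegrable _ _) (by simp)
            intro y hy
            have := rho_lip (show y - 1 ≤ HH P V0 q - 1 by linarith [hy.2])
            linarith [hy.1]
          rw [intervalIntegral.integral_const, smul_eq_mul] at h2
          have h3 : HH P V0 q - Hm P V0 q ≤ V / w := by
            rw [hdH q hqS]
            have hwq : w ≤ q := by
              by_contra hcon
              push Not at hcon
              have h1 : V - 1 ≤ Hm P V0 q := (mem_filter.mp hq).2
              have h2 := Hm_mono (P := P) hP hV0 hcon.le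
              linarith
            have hwq' : (w:ℝ) ≤ q := by exact_mod_cast hwq
            calc HH P V0 q / q ≤ V / q := div_le_div_of_nonneg_right (hHV q hqS) (by linarith)
              _ ≤ V / w := div_le_div_of_nonneg_left (by linarith) hw0 hwq'
          have h4 := mul_le_mul_of_nonneg_left h3 (hdH0 q hqS)
          nlinarith
        have h2 := Finset.sum_le_sum h1
        rw [Finset.sum_sub_distrib, ← Finset.sum_mul, htelB (fun h => ∫ y in (0:ℝ)..h, rho (y-1)), Fh_sub] at h2
        have h3 := htelB (fun y => y)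
        rw [h3] at h2
        have h4 : S2 = (∑ q ∈ B, (HH P V0 q - Hm P V0 q) * rho (HH P V0 q - 1)) - g * (V - Hw) := by
          rw [hS2, ← h3, Finset.mul_sum, ← Finset.sum_sub_distrib]
          apply Finset.sum_congr rfl
          intro q _
          ring
        have h5 : (V - Hw) * (V / w) ≤ V^2 / w := by
          have : (V - Hw) * (V / w) ≤ V * (V / w) := by
            apply mul_le_mul_of_nonneg_right (by linarith)
            positivity
          calc _ ≤ _ := this
            _ = V^2 / w := by ring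
        -- J(Hw) bound
        have hVgt : 2 ≤ V := by
          have := hHm1 w
          linarith
        have hI : ∫ y in (V-1)..V, rho (y-1) = (V - 1) * g := by
          have h6 : ∫ y in (V-1)..V, rho (y-1) = ∫ y in (V-1-1)..(V-1), rho y := by
            rw [intervalIntegral.integral_comp_sub_right (fun y => rho y)]
          rw [h6, rho_integral (by linarith)]
        have hJ : (V - 2) * g - V / w ≤ (∫ y in Hw..V, rho (y-1)) - g * (V - Hw) := by
          have hadd : (∫ y in Hw..(V-1), rho (y-1)) + ∫ y in (V-1)..V, rho (y-1) = ∫ y in Hw..V, rho (y-1) :=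
            intervalIntegral.integral_add_adjacent_intervals (hc.intervalIntegrable _ _) (hc.intervalIntegrable _ _)
          rcases le_or_gt Hw (V-1) with hcase | hcase
          · have h7 : ∫ y in Hw..(V-1), (g:ℝ) ≤ ∫ y in Hw..(V-1), rho (y-1) := by
              apply intervalIntegral.integral_mono_on hcase (by simp) (hc.intervalIntegrable _ _)
              intro y hy
              exact rho_anti (by linarith [hy.2])
            rw [intervalIntegral.integral_const, smul_eq_mul] at h7
            have h8 : 0 ≤ V / w := by positivity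
            rw [← hadd, hI]
            nlinarith
          · have h7 : ∫ y in (V-1)..Hw, rho (y-1) ≤ ∫ y in (V-1)..Hw, (1:ℝ) := by
              apply intervalIntegral.integral_mono_on hcase.le (hc.intervalIntegrable _ _) (by simp)
              intro y _
              exact rho_le_one _
            rw [intervalIntegral.integral_const, smul_eq_mul, mul_one] at h7
            rw [intervalIntegral.integral_symm] at hadd
            have h8 : Hw - (V - 1) ≤ V / w := by
              have h9 : Hw - Hm P V0 w = Hw / w := hdH w hwS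
              have h10 : Hw / w ≤ V / w := div_le_div_of_nonneg_right hHwV hw0.le
              linarith
            rw [← hadd, hI]
            nlinarith
        have h6 : (V + V^2) / w = V / w + V^2 / w := by ring
        rw [h6, h4]
        linarith
      have h1 : a1 * ((V - 2) * g) - (V + V^2) ≤ a1 * S2 := by
        have h2 := mul_le_mul_of_nonneg_left hS2low ha1pos
        have h3 : a1 * ((V - 2) * g - (V + V^2) / w) = a1 * ((V-2) * g) - (a1 / w) * (V + V^2) := by ring
        have h4 : (a1 / w) * (V + V^2) ≤ 1 * (V + V^2) := mul_le_mul_of_nonneg_right ha1w (by positivity)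
        linarith
      have h2 : C * S2 ≤ C * V := mul_le_mul_of_nonneg_left hS2up hC
      have h3 : g * (∑ q ∈ B', Real.log q / q) ≤ a1 * ((V - 2) * g) + V + C * V := by
        have h4 := mul_le_mul_of_nonneg_left hsumB' hg0.le
        have h5 : g * (V + C * V) ≤ 1 * (V + C * V) := mul_le_mul_of_nonneg_right hg1 (by positivity)
        have h6 : g * (a1 * (V - 2) + V + C * V) = a1 * ((V - 2) * g) + g * (V + C * V) := by ring
        linarith
      have h4 : (a1 - C) * S2 = a1 * S2 - C * S2 := by ring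
      linarith
  have h5 : ∑ q ∈ B, Real.log q / q * rho (HH P V0 q - 1)
      = (∑ q ∈ B, Real.log q / q * (rho (HH P V0 q - 1) - g)) + g * ∑ q ∈ B, Real.log q / q := by
    rw [Finset.mul_sum, ← Finset.sum_add_distrib]
    apply Finset.sum_congr rfl
    intro q _
    ring
  have h6 : ∑ q ∈ S, Real.log q / q = ∑ q ∈ B, Real.log q / q + ∑ q ∈ B', Real.log q / q :=
    hsplit (fun q => Real.log q / q)
  rw [h6]
  have h7 : g * (∑ q ∈ B, Real.log q / (q:ℝ) + ∑ q ∈ B', Real.log q / (q:ℝ))
    = g * ∑ q ∈ B, Real.log q / (q:ℝ) + g * ∑ q ∈ B', Real.log q / (q:ℝ) := by ring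
  rw [h7]
  linarith

end Pool.Agent.CoprimeSieve
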