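import Mathlib
import Pool.Agent.CoprimeSieve.Key

set_option autoImplicit false

open Finset

namespace Pool.Agent.CoprimeSieve

lemma pr_inter (P : Finset ℕ) (hP : ∀ p ∈ P, p.Prime) (x : ℝ) :
    (pr x).filter (fun p => p ∈ P) = P.filter (fun p : ℕ => (p:ℝ) ≤ x) := by
  ext p
  simp only [mem_filter, mem_pr]
  constructor
  · rintro ⟨⟨_, h2⟩, h3⟩; exact ⟨h3, h2⟩
  · rintro ⟨h1, h2⟩; exact ⟨⟨hP p h1, h2⟩, h1⟩

/-- `ρ(H(x))` is a subsolution of the sieve recursion, up to a bounded error. -/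
lemma subsolution : ∃ C2 : ℝ, 0 ≤ C2 ∧ ∀ (P : Finset ℕ), (∀ p ∈ P, p.Prime) →
    ∀ V0 : ℝ, 1 ≤ V0 → ∀ x : ℝ, 1 ≤ x → ∀ V : ℝ, V = HH P V0 x →
    Real.log x * rho V - (C2 * (1 + V) + V^2)
      ≤ ∑ p ∈ (pr x).filter (fun p => p ∉ P), Real.log p / p * rho (HH P V0 (x / p)) := by
  classical
  obtain ⟨C1, hC1, hM⟩ := mertens_first
  obtain ⟨C, hC, hK⟩ := key_sum
  refine ⟨2 * C1 + 2 + 2 * C, by linarith, ?_⟩
  intro P hP V0 hV0 x hx V hV
  have hx0 : 0 < x := by linarith
  have hV1 : 1 ≤ V := by rw [hV]; exact hV0.trans (HH_ge_V0 hP hV0 _)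
  have hkey := hK P hP V0 hV0 x V hV
  set g := rho (V-1) with hg
  have hg0 : 0 < g := rho_pos _
  have hg1 : g ≤ 1 := rho_le_one _
  set S := P.filter (fun p : ℕ => (p:ℝ) ≤ x) with hS
  have hlogx : 0 ≤ Real.log x := Real.log_nonneg hx
  set K : ℝ → ℝ := fun h => g - min (rho h) g with hKdef
  have hK0 : ∀ h, 0 ≤ K h := by
    intro h
    simp only [hKdef]
    linarith [min_le_right (rho h) g]
  set dK : ℕ → ℝ := fun q => min (rho (Hm P V0 q)) g - min (rho (HH P V0 q)) g with hdK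
  have hdK0 : ∀ q ∈ P, 0 ≤ dK q := by
    intro q hq
    have := rho_anti (Hm_le_HH (V0 := V0) hP hV0 hq)
    have := min_le_min_right g this
    simp only [hdK]
    linarith
  have htel : ∀ y : ℝ, K (HH P V0 y) = K V0 + ∑ q ∈ P.filter (fun p : ℕ => (p:ℝ) ≤ y), dK q := by
    intro y
    rw [telescope_H P V0 K y]
    congr 1
    apply Finset.sum_congr rfl
    intro q _
    simp only [hKdef, hdK]
    ring
  have hKx : K V = g - rho V := by
    simp only [hKdef]
    rw [min_eq_left]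
    exact rho_anti (by linarith)
  -- Step 1
  have h1 : ∑ p ∈ (pr x).filter (fun p => p ∉ P), Real.log p / p * (g - K (HH P V0 (x / p)))
      ≤ ∑ p ∈ (pr x).filter (fun p => p ∉ P), Real.log p / p * rho (HH P V0 (x / p)) := by
    apply Finset.sum_le_sum
    intro p _
    apply mul_le_mul_of_nonneg_left _ (logdiv_nonneg p)
    simp only [hKdef]
    linarith [min_le_left (rho (HH P V0 (x/p))) g]
  have h2 : ∑ p ∈ (pr x).filter (fun p => p ∉ P), Real.log p / p * (g - K (HH P V0 (x / p)))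
      = g * (∑ p ∈ (pr x).filter (fun p => p ∉ P), Real.log p / p)
        - ∑ p ∈ (pr x).filter (fun p => p ∉ P), Real.log p / p * K (HH P V0 (x / p)) := by
    rw [Finset.mul_sum, ← Finset.sum_sub_distrib]
    apply Finset.sum_congr rfl
    intro p _
    ring
  have h3 : ∑ p ∈ (pr x).filter (fun p => p ∉ P), Real.log p / p = mE x - ∑ q ∈ S, Real.log q / q := by
    have := Finset.sum_filter_add_sum_filter_not (pr x) (fun p => p ∈ P) (fun p => Real.log p / (p:ℝ))
    rw [pr_inter P hP x] at this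
    unfold mE
    linarith
  have h4 : ∑ p ∈ (pr x).filter (fun p => p ∉ P), Real.log p / p * K (HH P V0 (x / p))
      ≤ ∑ p ∈ pr x, Real.log p / p * K (HH P V0 (x / p)) := by
    apply Finset.sum_le_sum_of_subset_of_nonneg (Finset.filter_subset _ _)
    intro p _ _
    exact mul_nonneg (logdiv_nonneg p) (hK0 _)
  -- Step 2
  have h5 : ∑ p ∈ pr x, Real.log p / p * K (HH P V0 (x / p))
      = K V0 * mE x + ∑ q ∈ S, dK q * mE (x / q) := by
    have e1 : ∀ p ∈ pr x, Real.log p / p * K (HH P V0 (x / p))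
        = K V0 * (Real.log p / p) + ∑ q ∈ S, (if (q:ℝ) ≤ x / p then dK q * (Real.log p / p) else 0) := by
      intro p hp
      rw [htel]
      have hp' := mem_pr.mp hp
      have hp1 : (1:ℝ) ≤ p := by exact_mod_cast hp'.1.one_lt.le
      have e2 : P.filter (fun q : ℕ => (q:ℝ) ≤ x / p) = S.filter (fun q : ℕ => (q:ℝ) ≤ x / p) := by
        ext q
        simp only [hS, mem_filter]
        constructor
        · rintro ⟨h1, h2⟩
          exact ⟨⟨h1, h2.trans (div_le_self hx0.le hp1)⟩, h2⟩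
        · rintro ⟨⟨h1, _⟩, h2⟩
          exact ⟨h1, h2⟩
      rw [e2, Finset.sum_filter, mul_add, Finset.mul_sum]
      congr 1
      · ring
      · apply Finset.sum_congr rfl
        intro q _
        split_ifs
        · ring
        · ring
    rw [Finset.sum_congr rfl e1, Finset.sum_add_distrib, ← Finset.mul_sum, Finset.sum_comm]
    congr 1
    apply Finset.sum_congr rfl
    intro q hq
    have hqP : q ∈ P := (mem_filter.mp hq).1
    have hq0 : (0:ℝ) < q := by exact_mod_cast (hP q hqP).pos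
    rw [← Finset.sum_filter, ← Finset.mul_sum]
    congr 1
    unfold mE
    apply Finset.sum_congr _ (fun _ _ => rfl)
    ext p
    simp only [mem_filter, mem_pr]
    constructor
    · rintro ⟨⟨h1, _⟩, h2⟩
      refine ⟨h1, ?_⟩
      have hp0 : (0:ℝ) < p := by exact_mod_cast h1.pos
      rw [le_div_iff₀ hp0] at h2
      rw [le_div_iff₀ hq0]
      linarith
    · rintro ⟨h1, h2⟩
      have hp0 : (0:ℝ) < p := by exact_mod_cast h1.pos
      have hq1 : (1:ℝ) ≤ q := by exact_mod_cast (hP q hqP).one_lt.le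
      refine ⟨⟨h1, h2.trans (div_le_self hx0.le hq1)⟩, ?_⟩
      rw [le_div_iff₀ hq0] at h2
      rw [le_div_iff₀ hp0]
      linarith
  -- Step 3
  have hMx := abs_le.mp (hM x hx)
  have h6 : ∑ q ∈ S, dK q * mE (x / q) ≤ ∑ q ∈ S, (dK q * (Real.log x + C1) - dK q * Real.log q) := by
    apply Finset.sum_le_sum
    intro q hq
    have hqP : q ∈ P := (mem_filter.mp hq).1
    have hqx : (q:ℝ) ≤ x := (mem_filter.mp hq).2
    have hq0 : (0:ℝ) < q := by exact_mod_cast (hP q hqP).pos
    have h7 : 1 ≤ x / q := by rw [le_div_iff₀ hq0]; linarith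
    have h8 := (abs_le.mp (hM (x/q) h7)).2
    rw [Real.log_div hx0.ne' hq0.ne'] at h8
    have h9 : mE (x/q) ≤ Real.log x + C1 - Real.log q := by linarith
    have := mul_le_mul_of_nonneg_left h9 (hdK0 q hqP)
    linarith
  rw [Finset.sum_sub_distrib, ← Finset.sum_mul] at h6
  have h7 : K V = K V0 + ∑ q ∈ S, dK q := by
    have := htel x
    rw [← hV] at this
    exact this
  have hsumdK : 0 ≤ ∑ q ∈ S, dK q := Finset.sum_nonneg (fun q hq => hdK0 q (mem_filter.mp hq).1)
  have h8 : K V0 * mE x ≤ K V0 * (Real.log x + C1) :=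
    mul_le_mul_of_nonneg_left (by linarith) (hK0 V0)
  have h9 : ∑ p ∈ pr x, Real.log p / p * K (HH P V0 (x / p))
      ≤ K V * (Real.log x + C1) - ∑ q ∈ S, dK q * Real.log q := by
    rw [h5, h7]
    linarith
  -- combine
  have h10 : g * (mE x) ≥ g * (Real.log x - C1) := mul_le_mul_of_nonneg_left (by linarith) hg0.le
  have h11 : K V * C1 ≤ 1 * C1 := by
    apply mul_le_mul_of_nonneg_right _ hC1
    rw [hKx]
    have := rho_pos V
    linarith
  have h12 : g * C1 ≤ 1 * C1 := mul_le_mul_of_nonneg_right hg1 hC1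
  have h13 : K V * (Real.log x + C1) = g * Real.log x - rho V * Real.log x + K V * C1 := by
    rw [hKx]; ring
  have h14 : g * (mE x - ∑ q ∈ S, Real.log q / (q:ℝ)) = g * mE x - g * ∑ q ∈ S, Real.log q / (q:ℝ) := by
    ring
  have h15 : ∑ q ∈ S, (min (rho (Hm P V0 q)) g - min (rho (HH P V0 q)) g) * Real.log q
      = ∑ q ∈ S, dK q * Real.log q := rfl
  rw [h15] at hkey
  rw [h2, h3, h14] at h1
  have h16 : 0 ≤ C1 * V := by positivity
  have h17 : 0 ≤ C * V := by positivity
  nlinarith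

end Pool.Agent.CoprimeSieve
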