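import Mathlib
import Pool.Agent.CoprimeSieve.Sub
import Pool.Agent.CoprimeSieve.Count

set_option autoImplicit false

open Finset

namespace Pool.Agent.CoprimeSieve

lemma sum_pr_small {x y : ℝ} (hy : 1 ≤ y) (hx : 0 ≤ x) :
    ∑ p ∈ (pr x).filter (fun p : ℕ => y ≤ x / p), Real.log p / p = mE (x / y) := by
  unfold mE
  apply Finset.sum_congr _ (fun _ _ => rfl)
  ext p
  simp only [mem_filter, mem_pr]
  have hy0 : 0 < y := by linarith
  constructor
  · rintro ⟨⟨h1, _⟩, h2⟩
    refine ⟨h1, ?_⟩
    have hp0 : (0:ℝ) < p := by exact_mod_cast h1.pos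
    rw [le_div_iff₀ hp0] at h2
    rw [le_div_iff₀ hy0]
    linarith
  · rintro ⟨h1, h2⟩
    have hp0 : (0:ℝ) < p := by exact_mod_cast h1.pos
    refine ⟨⟨h1, h2.trans (div_le_self hx hy)⟩, ?_⟩
    rw [le_div_iff₀ hy0] at h2
    rw [le_div_iff₀ hp0]
    linarith

lemma lower_induction : ∃ C1 C2 : ℝ, 0 ≤ C1 ∧ 0 ≤ C2 ∧ (∀ x : ℝ, 1 ≤ x → |mE x - Real.log x| ≤ C1) ∧
    ∀ (A P W : Finset ℕ) (V0 Vmax x0 Z D d1 w : ℝ),
    (∀ p ∈ P, p.Prime) → 1 ≤ V0 → (∀ x, HH P V0 x ≤ Vmax) → 1 ≤ x0 → x0 ≤ Z → 0 ≤ D → 0 ≤ d1 →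
    (∑ p ∈ W, Real.log p / p ≤ w) →
    (∀ p : ℕ, p.Prime → p ∉ P → p ∉ W → ∀ a ∈ A, Nat.Coprime a p) →
    (∀ x, x0 ≤ x → x < Z → x * (rho (HH P V0 x) - d1) ≤ Sc A x) →
    (C2 * (1 + Vmax) + Vmax^2 + w + d1 * (Real.log Z + 2 * C1) + Real.log x0 + 2 * C1
      ≤ D * (Real.log Z - C1)) →
    ∀ x, Z ≤ x → x * (rho (HH P V0 x) - D) ≤ Sc A x := by
  classical
  obtain ⟨C1, hC1, hM⟩ := mertens_first
  obtain ⟨C2, hC2, hSub⟩ := subsolution
  refine ⟨C1, C2, hC1, hC2, hM, ?_⟩
  intro A P W V0 Vmax x0 Z D d1 w hP hV0 hVmax hx0 hx0Z hD0 hd1 hW hcop hinit hDineq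
  have main : ∀ n : ℕ, ∀ x : ℝ, ⌊x⌋₊ = n → Z ≤ x → x * (rho (HH P V0 x) - D) ≤ Sc A x := by
    intro n
    induction n using Nat.strong_induction_on with
    | _ n ih =>
      intro x hxn hZx
      have hx1 : 1 ≤ x := by linarith
      have hxpos : 0 < x := by linarith
      have hZ1 : 1 ≤ Z := by linarith
      rcases hx1.eq_or_lt with hxe | hxgt
      · -- x = 1
        have hpr : pr x = ∅ := by
          rw [Finset.eq_empty_iff_forall_notMem]
          intro p hp
          rw [mem_pr, ← hxe] at hp
          have : (2:ℝ) ≤ p := by exact_mod_cast hp.1.two_le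
          linarith
        have hZe : Z = 1 := by linarith
        have hx0e : x0 = 1 := by linarith
        have hw0 : 0 ≤ w := le_trans (Finset.sum_nonneg (fun p _ => logdiv_nonneg p)) hW
        rw [hZe, hx0e, Real.log_one] at hDineq
        have hVm : 1 ≤ Vmax := le_trans (hV0.trans (HH_ge_V0 hP hV0 x)) (hVmax x)
        have h1 : 0 ≤ C2 * (1 + Vmax) := by positivity
        have h2 : 1 ≤ Vmax^2 := by nlinarith
        have h3 : 0 ≤ D * C1 := by positivity
        nlinarith
      have hlogx : 0 < Real.log x := Real.log_pos hxgt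
      set G : ℝ → ℝ := fun y => rho (HH P V0 y) with hG
      set δ : ℝ → ℝ := fun y => if Z ≤ y then D else if x0 ≤ y then d1 else 1 with hδ
      have hδ0 : ∀ y, 0 ≤ δ y := by
        intro y
        simp only [hδ]
        split_ifs <;> linarith
      have hlow : ∀ p ∈ pr x, (x / p) * (G (x/p) - δ (x/p)) ≤ Sc A (x / p) := by
        intro p hp
        have hp' := mem_pr.mp hp
        have hp0 : (0:ℝ) < p := by exact_mod_cast hp'.1.pos
        simp only [hδ]
        split_ifs with h1 h2
        · refine ih ⌊x/p⌋₊ ?_ (x/p) rfl h1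
          rw [Nat.floor_div_natCast, ← hxn]
          apply Nat.div_lt_self _ hp'.1.one_lt
          exact Nat.floor_pos.mpr hx1
        · push Not at h1
          exact hinit (x/p) h2 h1
        · have h3 : G (x/p) ≤ 1 := rho_le_one _
          have h4 : 0 ≤ x / p := by positivity
          have h5 := Sc_nonneg A (x/p)
          nlinarith
      set R := (pr x).filter (fun p => p ∉ P ∧ p ∉ W) with hR
      have hRpr : ∀ p ∈ R, p ∈ pr x := fun p hp => (mem_filter.mp hp).1
      have hrec := Sc_recursion A R (fun p hp => (mem_pr.mp (hRpr p hp)).1)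
        (fun p hp a ha => hcop p (mem_pr.mp (hRpr p hp)).1 (mem_filter.mp hp).2.1 (mem_filter.mp hp).2.2 a ha) x
      have h1 : ∑ p ∈ R, x * (Real.log p / p * (G (x/p)) - Real.log p / p * δ (x/p))
          ≤ ∑ p ∈ R, Real.log p * Sc A (x / p) := by
        apply Finset.sum_le_sum
        intro p hp
        have h2 := mul_le_mul_of_nonneg_left (hlow p (hRpr p hp)) (Real.log_natCast_nonneg p)
        calc _ = Real.log p * ((x / p) * (G (x/p) - δ (x/p))) := by ring
          _ ≤ _ := h2
      rw [← Finset.mul_sum, Finset.sum_sub_distrib] at h1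
      -- lower bound of the G sum
      have h2 : ∑ p ∈ (pr x).filter (fun p => p ∉ P), Real.log p / p * G (x/p) - w
          ≤ ∑ p ∈ R, Real.log p / p * G (x/p) := by
        have hsplit := Finset.sum_filter_add_sum_filter_not ((pr x).filter (fun p => p ∉ P)) (fun p => p ∉ W)
          (fun p => Real.log p / (p:ℝ) * G (x/p))
        have e1 : ((pr x).filter (fun p => p ∉ P)).filter (fun p => p ∉ W) = R := by
          rw [Finset.filter_filter]
        rw [e1] at hsplit
        have h3 : ∑ p ∈ ((pr x).filter (fun p => p ∉ P)).filter (fun p => ¬ p ∉ W), Real.log p / (p:ℝ) * G (x/p)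
            ≤ ∑ p ∈ W, Real.log p / p := by
          calc _ ≤ ∑ p ∈ ((pr x).filter (fun p => p ∉ P)).filter (fun p => ¬ p ∉ W), Real.log p / (p:ℝ) := by
                apply Finset.sum_le_sum
                intro p _
                have := rho_le_one (HH P V0 (x/p))
                have h5 := logdiv_nonneg p
                simp only [hG]
                nlinarith
            _ ≤ ∑ p ∈ W, Real.log p / p := by
                apply Finset.sum_le_sum_of_subset_of_nonneg
                · intro p hp
                  have := (mem_filter.mp hp).2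
                  push Not at this
                  exact this
                · intro p _ _; exact logdiv_nonneg p
        linarith
      have hsub := hSub P hP V0 hV0 x hx1 (HH P V0 x) rfl
      -- upper bound of the δ sum
      have hxZ : 1 ≤ x / Z := by rw [le_div_iff₀ (by linarith)]; linarith
      have hxx0 : 1 ≤ x / x0 := by rw [le_div_iff₀ (by linarith)]; linarith
      have h3 : ∑ p ∈ R, Real.log p / p * δ (x/p)
          ≤ D * mE (x / Z) + d1 * (mE x - mE (x / Z)) + (mE x - mE (x / x0)) := by
        have h4 : ∑ p ∈ R, Real.log p / p * δ (x/p) ≤ ∑ p ∈ pr x, Real.log p / p * δ (x/p) := by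
          apply Finset.sum_le_sum_of_subset_of_nonneg (Finset.filter_subset _ _)
          intro p _ _
          exact mul_nonneg (logdiv_nonneg p) (hδ0 _)
        have h5 : ∑ p ∈ pr x, Real.log p / p * δ (x/p)
            ≤ ∑ p ∈ pr x, (D * (if Z ≤ x/p then Real.log p / p else 0)
              + d1 * (Real.log p / p - (if Z ≤ x/p then Real.log p / p else 0))
              + (Real.log p / p - (if x0 ≤ x/p then Real.log p / p else 0))) := by
          apply Finset.sum_le_sum
          intro p _
          have h6 := logdiv_nonneg p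
          simp only [hδ]
          split_ifs with c1 c2 c3
          · nlinarith
          · linarith
          · nlinarith
          · nlinarith
        rw [Finset.sum_add_distrib, Finset.sum_add_distrib, ← Finset.mul_sum, ← Finset.mul_sum,
          Finset.sum_sub_distrib, Finset.sum_sub_distrib, ← Finset.sum_filter, ← Finset.sum_filter,
          sum_pr_small hZ1 hxpos.le, sum_pr_small hx0 hxpos.le] at h5
        have e : ∑ p ∈ pr x, Real.log p / (p:ℝ) = mE x := rfl
        rw [e] at h5
        linarith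
      have m1 := abs_le.mp (hM x hx1)
      have m2 := abs_le.mp (hM (x/Z) hxZ)
      have m3 := abs_le.mp (hM (x/x0) hxx0)
      rw [Real.log_div hxpos.ne' (by linarith)] at m2 m3
      have h4 : D * mE (x / Z) ≤ D * (Real.log x - Real.log Z + C1) :=
        mul_le_mul_of_nonneg_left (by linarith) hD0
      have h5 : d1 * (mE x - mE (x / Z)) ≤ d1 * (Real.log Z + 2 * C1) :=
        mul_le_mul_of_nonneg_left (by linarith) hd1
      have hV := hVmax x
      have hV1 : 1 ≤ HH P V0 x := hV0.trans (HH_ge_V0 hP hV0 x)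
      have h6 : C2 * (1 + HH P V0 x) ≤ C2 * (1 + Vmax) := mul_le_mul_of_nonneg_left (by linarith) hC2
      have h7 : (HH P V0 x)^2 ≤ Vmax^2 := by nlinarith
      have h8 : Real.log x * (rho (HH P V0 x) - D)
          ≤ ∑ p ∈ R, Real.log p / (p:ℝ) * G (x/p) - ∑ p ∈ R, Real.log p / (p:ℝ) * δ (x/p) := by
        have e2 : D * (Real.log x - Real.log Z + C1) = D * Real.log x - D * (Real.log Z - C1) := by ring
        have e3 : Real.log x * (rho (HH P V0 x) - D) = Real.log x * rho (HH P V0 x) - D * Real.log x := by ring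
        linarith
      have h9 := mul_le_mul_of_nonneg_left h8 hxpos.le
      have h10 : Real.log x * (x * (rho (HH P V0 x) - D)) ≤ Real.log x * Sc A x := by
        calc _ = x * (Real.log x * (rho (HH P V0 x) - D)) := by ring
          _ ≤ _ := h9
          _ ≤ _ := h1
          _ ≤ _ := hrec
      exact le_of_mul_le_mul_left h10 hlogx
  intro x hx
  exact main ⌊x⌋₊ x rfl hx

end Pool.Agent.CoprimeSieve
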