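import Mathlib
import Pool.Agent.CoprimeSieve.Induct

set_option autoImplicit false

open Finset

namespace Pool.Agent.CoprimeSieve

lemma minFac_inj {A : Finset ℕ} (h2 : ∀ a ∈ A, 2 ≤ a)
    (hc : ∀ a ∈ A, ∀ b ∈ A, a ≠ b → Nat.Coprime a b) :
    ∀ a ∈ A, ∀ b ∈ A, Nat.minFac a = Nat.minFac b → a = b := by
  intro a ha b hb h
  by_contra hne
  have h1 := hc a ha b hb hne
  have h3 : Nat.minFac a ∣ Nat.gcd a b := Nat.dvd_gcd (Nat.minFac_dvd a) (h ▸ Nat.minFac_dvd b)
  rw [h1] at h3
  have h4 : Nat.minFac a = 1 := Nat.dvd_one.mp h3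
  have := h2 a ha
  rw [Nat.minFac_eq_one_iff] at h4
  omega

/-- The composite elements of a pairwise coprime set beyond `z ≥ y²` have small reciprocal sum. -/
lemma composite_tail {A : Finset ℕ} (h2 : ∀ a ∈ A, 2 ≤ a)
    (hc : ∀ a ∈ A, ∀ b ∈ A, a ≠ b → Nat.Coprime a b) {y z : ℕ} (hy : 1 ≤ y) (hz : y ^ 2 ≤ z) :
    ∑ a ∈ A.filter (fun a => z < a ∧ ¬ a.Prime), (1:ℝ) / a ≤ 2 / y := by
  classical
  set B := A.filter (fun a => z < a ∧ ¬ a.Prime) with hB
  have hy0 : (0:ℝ) < y := by exact_mod_cast hy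
  have hinj := minFac_inj h2 hc
  have hBA : ∀ a ∈ B, a ∈ A := fun a ha => (mem_filter.mp ha).1
  have hsplit := Finset.sum_filter_add_sum_filter_not B (fun a => Nat.minFac a ≤ y) (fun a => (1:ℝ)/a)
  have h1 : ∑ a ∈ B.filter (fun a => Nat.minFac a ≤ y), (1:ℝ) / a ≤ 1 / y := by
    have hcard : (B.filter (fun a => Nat.minFac a ≤ y)).card ≤ y := by
      have : (B.filter (fun a => Nat.minFac a ≤ y)).card ≤ (Finset.Icc 1 y).card := by
        apply Finset.card_le_card_of_injOn Nat.minFac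
        · intro a ha
          have ha' := mem_filter.mp (Finset.mem_coe.mp ha)
          rw [Finset.mem_coe, mem_Icc]
          exact ⟨Nat.minFac_pos a, ha'.2⟩
        · intro a ha b hb h
          have ha' := mem_filter.mp (Finset.mem_coe.mp ha)
          have hb' := mem_filter.mp (Finset.mem_coe.mp hb)
          exact hinj a (hBA a ha'.1) b (hBA b hb'.1) h
      simpa using this
    calc ∑ a ∈ B.filter (fun a => Nat.minFac a ≤ y), (1:ℝ) / a
        ≤ ∑ a ∈ B.filter (fun a => Nat.minFac a ≤ y), (1:ℝ) / (y^2 : ℝ) := by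
          apply Finset.sum_le_sum
          intro a ha
          have ha' := (mem_filter.mp (mem_filter.mp ha).1).2.1
          apply one_div_le_one_div_of_le (by positivity)
          have : y^2 ≤ a := by omega
          exact_mod_cast this
      _ = (B.filter (fun a => Nat.minFac a ≤ y)).card * (1 / (y^2 : ℝ)) := by
          rw [Finset.sum_const, nsmul_eq_mul]
      _ ≤ (y:ℝ) * (1 / (y^2 : ℝ)) := by
          apply mul_le_mul_of_nonneg_right _ (by positivity)
          exact_mod_cast hcard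
      _ = 1 / y := by field_simp
  have h3 : ∑ a ∈ B.filter (fun a => ¬ Nat.minFac a ≤ y), (1:ℝ) / a ≤ 1 / y := by
    set B2 := B.filter (fun a => ¬ Nat.minFac a ≤ y) with hB2
    set N := y + ∑ a ∈ A, a with hN
    calc ∑ a ∈ B2, (1:ℝ) / a
        ≤ ∑ a ∈ B2, 1 / ((Nat.minFac a : ℝ) * ((Nat.minFac a : ℝ) - 1)) := by
          apply Finset.sum_le_sum
          intro a ha
          have ha1 := mem_filter.mp ha
          have ha2 := mem_filter.mp ha1.1
          have ha3 := h2 a ha2.1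
          have h4 : Nat.minFac a ^ 2 ≤ a := Nat.minFac_sq_le_self (by omega) ha2.2.2
          have h5 : 2 ≤ Nat.minFac a := (Nat.minFac_prime (by omega)).two_le
          have h5' : (2:ℝ) ≤ Nat.minFac a := by exact_mod_cast h5
          apply one_div_le_one_div_of_le
          · nlinarith
          · have h6 : ((Nat.minFac a : ℝ))^2 ≤ a := by exact_mod_cast h4
            nlinarith
      _ = ∑ m ∈ B2.image Nat.minFac, 1 / ((m : ℝ) * ((m : ℝ) - 1)) := by
          rw [Finset.sum_image]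
          intro a ha b hb h
          have ha' := mem_filter.mp (Finset.mem_coe.mp ha)
          have hb' := mem_filter.mp (Finset.mem_coe.mp hb)
          exact hinj a (hBA a ha'.1) b (hBA b hb'.1) h
      _ ≤ ∑ m ∈ Finset.Ioc y N, 1 / ((m : ℝ) * ((m : ℝ) - 1)) := by
          apply Finset.sum_le_sum_of_subset_of_nonneg
          · intro m hm
            rw [mem_image] at hm
            obtain ⟨a, ha, rfl⟩ := hm
            have ha1 := mem_filter.mp ha
            rw [mem_Ioc]
            refine ⟨by omega, ?_⟩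
            have h4 : Nat.minFac a ≤ a := Nat.minFac_le (by have := h2 a (hBA a ha1.1); omega)
            have h5 : a ≤ ∑ a ∈ A, a := Finset.single_le_sum (f := fun a => a) (fun _ _ => Nat.zero_le _) (hBA a ha1.1)
            omega
          · intro m hm _
            rw [mem_Ioc] at hm
            have : (1:ℝ) ≤ m := by exact_mod_cast (by omega : 1 ≤ m)
            have : 0 ≤ (m:ℝ) - 1 := by linarith
            positivity
      _ = 1 / (y:ℝ) - 1 / N := sum_inv_mul_pred y N hy (by omega)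
      _ ≤ 1 / y := by
          have : 0 ≤ 1 / (N:ℝ) := by positivity
          linarith
  have e : (2:ℝ) / y = 1 / y + 1 / y := by ring
  rw [e]
  linarith

/-- Partial Euler products over primes `> Z`. -/
lemma euler_prod_le (P : Finset ℕ) (hP : ∀ p ∈ P, p.Prime) {Z : ℕ} (hZ : 1 ≤ Z) (hPZ : ∀ p ∈ P, Z < p) :
    ∏ p ∈ P, (1 - 1/(p:ℝ))⁻¹ ≤ Real.exp (∑ p ∈ P, (1:ℝ)/p + 1 / Z) := by
  have h1 : ∏ p ∈ P, (1 - 1/(p:ℝ))⁻¹ ≤ ∏ p ∈ P, Real.exp (1 / (p:ℝ) + 1 / ((p:ℝ) * (p - 1))) := by
    apply Finset.prod_le_prod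
    · intro p hp
      have := fac_ge_one (hP p hp)
      linarith
    · intro p hp
      have hp' := hP p hp
      have hp2 : (2:ℝ) ≤ p := by exact_mod_cast hp'.two_le
      have h1 : (p:ℝ) ≠ 0 := by linarith
      have h2 : (p:ℝ) - 1 ≠ 0 := by linarith
      have h3 : (1 - 1/(p:ℝ))⁻¹ = (1 / (p:ℝ) + 1 / ((p:ℝ) * (p - 1))) + 1 := by
        rw [one_sub_div h1, inv_div]
        field_simp
        ring
      rw [h3]
      exact Real.add_one_le_exp _
  rw [← Real.exp_sum, Finset.sum_add_distrib] at h1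
  refine h1.trans (Real.exp_le_exp.mpr ?_)
  have h2 : ∑ p ∈ P, 1 / ((p:ℝ) * (p - 1)) ≤ 1 / Z := by
    set N := Z + ∑ p ∈ P, p with hN
    calc _ ≤ ∑ m ∈ Finset.Ioc Z N, 1 / ((m:ℝ) * (m - 1)) := by
          apply Finset.sum_le_sum_of_subset_of_nonneg
          · intro p hp
            rw [mem_Ioc]
            refine ⟨hPZ p hp, ?_⟩
            have h5 : p ≤ ∑ p ∈ P, p := Finset.single_le_sum (f := fun a => a) (fun _ _ => Nat.zero_le _) hp
            omega
          · intro m hm _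
            rw [mem_Ioc] at hm
            have : (1:ℝ) ≤ m := by exact_mod_cast (by omega : 1 ≤ m)
            have : 0 ≤ (m:ℝ) - 1 := by linarith
            positivity
      _ = 1 / (Z:ℝ) - 1 / N := sum_inv_mul_pred Z N hZ (by omega)
      _ ≤ 1 / Z := by
          have : 0 ≤ 1 / (N:ℝ) := by positivity
          linarith
  linarith

lemma pigeonhole (A : Finset ℕ) (c ε : ℝ) (hA : ∑ a ∈ A, (1:ℝ)/a ≤ c) (zs : ℕ → ℕ)
    (hmono : ∀ i, zs i < zs (i+1)) (I : ℕ) (hI : c < I * ε) :
    ∃ i < I, ∑ a ∈ A.filter (fun a => zs i < a ∧ a ≤ zs (i+1)), (1:ℝ)/a ≤ ε := by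
  by_contra hcon
  push Not at hcon
  have key : ∀ j ≤ I, (j:ℝ) * ε ≤ ∑ a ∈ A.filter (fun a => zs 0 < a ∧ a ≤ zs j), (1:ℝ)/a := by
    intro j
    induction j with
    | zero => intro _; simp; exact Finset.sum_nonneg (fun a _ => by positivity)
    | succ j ih =>
      intro hj
      have h1 := ih (by omega)
      have h2 := hcon j (by omega)
      have h0 : ∀ k, zs 0 ≤ zs k := by
        intro k
        induction k with
        | zero => exact le_rfl
        | succ k ihk => exact ihk.trans (hmono k).le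
      have e : A.filter (fun a => zs 0 < a ∧ a ≤ zs (j+1))
          = A.filter (fun a => zs 0 < a ∧ a ≤ zs j) ∪ A.filter (fun a => zs j < a ∧ a ≤ zs (j+1)) := by
        ext a
        simp only [mem_filter, mem_union]
        have := h0 j
        have := hmono j
        constructor
        · rintro ⟨h3, h4, h5⟩
          rcases le_or_gt a (zs j) with h | h
          · exact Or.inl ⟨h3, h4, h⟩
          · exact Or.inr ⟨h3, h, h5⟩
        · rintro (⟨h3, h4, h5⟩ | ⟨h3, h4, h5⟩)
          · exact ⟨h3, h4, by omega⟩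
          · exact ⟨h3, by omega, h5⟩
      rw [e, Finset.sum_union]
      · push_cast
        linarith
      · rw [Finset.disjoint_filter]
        intro a _ h3 h4
        omega
  have h1 := key I le_rfl
  have h2 : ∑ a ∈ A.filter (fun a => zs 0 < a ∧ a ≤ zs I), (1:ℝ)/a ≤ ∑ a ∈ A, (1:ℝ)/a :=
    Finset.sum_le_sum_of_subset_of_nonneg (Finset.filter_subset _ _) (fun a _ _ => by positivity)
  linarith

/-- One scale of the lower bound. -/
lemma lower_one_scale (c : ℝ) (ε : ℝ) (hε : 0 < ε) (hε1 : ε ≤ 1) :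
    ∀ z : ℕ, 2 ≤ z → ∃ Z : ℕ, z < Z ∧ ∀ A : Finset ℕ, (∀ a ∈ A, 2 ≤ a) →
      (∀ a ∈ A, ∀ b ∈ A, a ≠ b → Nat.Coprime a b) → ∑ a ∈ A, (1:ℝ)/a ≤ c →
      ∑ a ∈ A.filter (fun a => z < a ∧ a ≤ Z), (1:ℝ)/a ≤ ε →
      ∀ n : ℕ, Z ≤ n → (n:ℝ) * (rho (Real.exp (c + 1/z)) - 8 * ε
        - ∑ a ∈ A.filter (fun a => z < a ∧ ¬ a.Prime), (1:ℝ)/a) ≤ Sc A n := by
  classical
  obtain ⟨C1, C2, hC1, hC2, hM, hInd⟩ := lower_induction
  intro z hz
  set Vmax := Real.exp (c + 1) with hVmax
  set x0 : ℝ := 2 ^ z / ε with hx0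
  set L : ℝ := (C2 * (1 + Vmax) + Vmax^2 + Real.log z + 15 * C1 + Real.log x0) / ε with hL
  obtain ⟨Z, hZ⟩ := exists_nat_gt (max (Real.exp L) (max x0 z))
  have hZ1 : Real.exp L < Z := lt_of_le_of_lt (le_max_left _ _) hZ
  have hZ2 : x0 < Z := lt_of_le_of_lt ((le_max_left _ _).trans (le_max_right _ _)) hZ
  have hZ3 : (z:ℝ) < Z := lt_of_le_of_lt ((le_max_right _ _).trans (le_max_right _ _)) hZ
  have hzZ : z < Z := by exact_mod_cast hZ3
  have hz0 : (0:ℝ) < z := by exact_mod_cast (by omega : 0 < z)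
  refine ⟨Z, hzZ, ?_⟩
  intro A h2 hcop hAc hAε n hn
  have hZpos : (0:ℝ) < Z := by linarith
  have hlogZ : L ≤ Real.log Z := by
    rw [← Real.log_exp L]
    exact Real.log_le_log (Real.exp_pos L) hZ1.le
  have hx01 : 1 ≤ x0 := by
    rw [hx0, le_div_iff₀ hε]
    have : (1:ℝ) ≤ 2^z := one_le_pow₀ (by norm_num)
    linarith
  set Az := A.filter (fun a => a ≤ z) with hAz
  set R' := A.filter (fun a => a.Prime ∧ z < a) with hR'
  set P := A.filter (fun a => a.Prime ∧ Z < a) with hP
  set W := pr (z:ℝ) ∪ A.filter (fun a => a.Prime ∧ z < a ∧ a ≤ Z) with hW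
  set V0 := Real.exp (∑ a ∈ Az, (1:ℝ)/a) with hV0
  have hPprime : ∀ p ∈ P, p.Prime := fun p hp => (mem_filter.mp hp).2.1
  have hPZ : ∀ p ∈ P, Z < p := fun p hp => (mem_filter.mp hp).2.2
  have hV01 : 1 ≤ V0 := Real.one_le_exp (Finset.sum_nonneg (fun a _ => by positivity))
  have hHHle : ∀ x : ℝ, HH P V0 x ≤ Real.exp (c + 1/z) := by
    intro x
    unfold HH
    have h3 : ∏ p ∈ P.filter (fun p : ℕ => (p:ℝ) ≤ x), (1 - 1/(p:ℝ))⁻¹ ≤ ∏ p ∈ P, (1 - 1/(p:ℝ))⁻¹ := by
      apply Finset.prod_le_prod_of_subset_of_one_le (Finset.filter_subset _ _)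
      · intro p hp
        have := fac_ge_one (hPprime p (mem_filter.mp hp).1)
        linarith
      · intro p hp _
        exact fac_ge_one (hPprime p hp)
    have h4 := euler_prod_le P hPprime (by omega : 1 ≤ Z) hPZ
    calc V0 * ∏ p ∈ P.filter (fun p : ℕ => (p:ℝ) ≤ x), (1 - 1/(p:ℝ))⁻¹
        ≤ V0 * Real.exp (∑ p ∈ P, (1:ℝ)/p + 1 / Z) :=
          mul_le_mul_of_nonneg_left (h3.trans h4) (by linarith)
      _ = Real.exp (∑ a ∈ Az, (1:ℝ)/a + (∑ p ∈ P, (1:ℝ)/p + 1 / Z)) := by
          rw [hV0, ← Real.exp_add]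
      _ ≤ Real.exp (c + 1/z) := by
          apply Real.exp_le_exp.mpr
          have h5 : ∑ a ∈ Az, (1:ℝ)/a + ∑ p ∈ P, (1:ℝ)/p ≤ ∑ a ∈ A, (1:ℝ)/a := by
            rw [← Finset.sum_union]
            · apply Finset.sum_le_sum_of_subset_of_nonneg
              · exact Finset.union_subset (Finset.filter_subset _ _) (Finset.filter_subset _ _)
              · intro a _ _; positivity
            · rw [Finset.disjoint_filter]
              intro a _ h6 h7
              omega
          have h6 : 1 / (Z:ℝ) ≤ 1 / z := one_div_le_one_div_of_le hz0 hZ3.le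
          linarith
  have hexp : Real.exp (c + 1/z) ≤ Vmax := by
    apply Real.exp_le_exp.mpr
    have : 1 / (z:ℝ) ≤ 1 := by
      rw [div_le_one hz0]; exact_mod_cast (by omega : 1 ≤ z)
    linarith
  have hHHlt : ∀ x : ℝ, x < Z → HH P V0 x = V0 := by
    intro x hx
    unfold HH
    have : P.filter (fun p : ℕ => (p:ℝ) ≤ x) = ∅ := by
      rw [Finset.filter_eq_empty_iff]
      intro p hp
      have : (Z:ℝ) < p := by exact_mod_cast hPZ p hp
      push Not
      linarith
    rw [this]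
    simp
  have hWsum : ∑ p ∈ W, Real.log p / p ≤ Real.log z + C1 + ε * Real.log Z := by
    have h3 : ∑ p ∈ W, Real.log p / (p:ℝ) ≤ ∑ p ∈ pr (z:ℝ), Real.log p / (p:ℝ)
        + ∑ p ∈ A.filter (fun a => a.Prime ∧ z < a ∧ a ≤ Z), Real.log p / (p:ℝ) := by
      have := Finset.sum_union_inter (s₁ := pr (z:ℝ)) (s₂ := A.filter (fun a => a.Prime ∧ z < a ∧ a ≤ Z))
        (f := fun p => Real.log p / (p:ℝ))
      have h4 : 0 ≤ ∑ p ∈ pr (z:ℝ) ∩ A.filter (fun a => a.Prime ∧ z < a ∧ a ≤ Z), Real.log p / (p:ℝ) :=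
        Finset.sum_nonneg (fun p _ => logdiv_nonneg p)
      linarith
    have h4 : ∑ p ∈ pr (z:ℝ), Real.log p / (p:ℝ) ≤ Real.log z + C1 := by
      have := (abs_le.mp (hM z (by exact_mod_cast (by omega : 1 ≤ z)))).2
      unfold mE at this
      linarith
    have h5 : ∑ p ∈ A.filter (fun a => a.Prime ∧ z < a ∧ a ≤ Z), Real.log p / (p:ℝ) ≤ ε * Real.log Z := by
      calc _ ≤ ∑ p ∈ A.filter (fun a => a.Prime ∧ z < a ∧ a ≤ Z), (1/(p:ℝ)) * Real.log Z := by
            apply Finset.sum_le_sum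
            intro p hp
            have hp' := mem_filter.mp hp
            have hp0 : (0:ℝ) < p := by exact_mod_cast hp'.2.1.pos
            have : Real.log p ≤ Real.log Z := Real.log_le_log hp0 (by exact_mod_cast hp'.2.2.2)
            rw [div_eq_mul_one_div, mul_comm]
            exact mul_le_mul_of_nonneg_left this (by positivity)
        _ = (∑ p ∈ A.filter (fun a => a.Prime ∧ z < a ∧ a ≤ Z), (1/(p:ℝ))) * Real.log Z := by
            rw [Finset.sum_mul]
        _ ≤ ε * Real.log Z := by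
            apply mul_le_mul_of_nonneg_right _ (Real.log_nonneg (by exact_mod_cast (by omega : 1 ≤ Z)))
            refine le_trans ?_ hAε
            apply Finset.sum_le_sum_of_subset_of_nonneg
            · intro p hp
              rw [mem_filter] at *
              exact ⟨hp.1, hp.2.2⟩
            · intro a _ _; positivity
    linarith
  have hcopA1 : ∀ p : ℕ, p.Prime → p ∉ P → p ∉ W → ∀ a ∈ Az ∪ R', Nat.Coprime a p := by
    intro p hp hpP hpW a ha
    have hpz : z < p := by
      by_contra hcon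
      push Not at hcon
      apply hpW
      rw [hW, mem_union]
      left
      rw [mem_pr]
      exact ⟨hp, by exact_mod_cast hcon⟩
    rcases mem_union.mp ha with h | h
    · have h' := mem_filter.mp h
      have h2a := h2 a h'.1
      rw [Nat.coprime_comm, hp.coprime_iff_not_dvd]
      intro hdvd
      have := Nat.le_of_dvd (by omega) hdvd
      omega
    · have h' := mem_filter.mp h
      rw [Nat.coprime_primes h'.2.1 hp]
      intro heq
      subst heq
      rcases le_or_gt a Z with h3 | h3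
      · apply hpW
        rw [hW, mem_union]
        right
        rw [mem_filter]
        exact ⟨h'.1, h'.2.1, h'.2.2, h3⟩
      · apply hpP
        rw [hP, mem_filter]
        exact ⟨h'.1, h'.2.1, h3⟩
  have hinit : ∀ x : ℝ, x0 ≤ x → x < Z → x * (rho (HH P V0 x) - 2 * ε) ≤ Sc (Az ∪ R') x := by
    intro x hx hxZ
    have hx0' : 0 ≤ x := by linarith
    rw [hHHlt x hxZ]
    have h3 := Sc_union Az R' x hx0' (fun d hd => by
      have := (mem_filter.mp hd).2.1.pos; exact this)
    have h4 : ∑ d ∈ R'.filter (fun d : ℕ => (d:ℝ) ≤ x), x / d ≤ x * ε := by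
      calc _ = x * ∑ d ∈ R'.filter (fun d : ℕ => (d:ℝ) ≤ x), (1:ℝ) / d := by
            rw [Finset.mul_sum]
            apply Finset.sum_congr rfl
            intro d _
            ring
        _ ≤ x * ε := by
            apply mul_le_mul_of_nonneg_left _ hx0'
            refine le_trans ?_ hAε
            apply Finset.sum_le_sum_of_subset_of_nonneg
            · intro p hp
              rw [mem_filter] at hp
              have hp' := mem_filter.mp hp.1
              rw [mem_filter]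
              refine ⟨hp'.1, hp'.2.2, ?_⟩
              have : (p:ℝ) ≤ Z := by linarith [hp.2]
              exact_mod_cast this
            · intro a _ _; positivity
    have h5 := Sc_approx Az (fun a ha => h2 a (mem_filter.mp ha).1)
      (fun a ha b hb => hcop a (mem_filter.mp ha).1 b (mem_filter.mp hb).1) x hx0'
    have h6 : rho V0 ≤ ∏ a ∈ Az, (1 - 1/(a:ℝ)) := by
      apply prod_ge_rho
      · intro a _; positivity
      · intro a ha
        have : (2:ℝ) ≤ a := by exact_mod_cast h2 a (mem_filter.mp ha).1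
        apply one_div_le_one_div_of_le <;> linarith
    have h7 : (2:ℝ) ^ Az.card ≤ 2 ^ z := by
      apply pow_le_pow_right₀ (by norm_num)
      have : Az ⊆ Finset.Icc 1 z := by
        intro a ha
        have ha' := mem_filter.mp ha
        rw [mem_Icc]
        have := h2 a ha'.1
        exact ⟨by omega, ha'.2⟩
      have := Finset.card_le_card this
      simpa using this
    have h8 : (2:ℝ)^z ≤ x * ε := by
      have : x0 * ε = 2^z := by rw [hx0]; field_simp
      rw [← this]
      exact mul_le_mul_of_nonneg_right hx hε.le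
    have h9 : x * rho V0 ≤ x * ∏ a ∈ Az, (1 - 1/(a:ℝ)) := mul_le_mul_of_nonneg_left h6 hx0'
    have h10 := (abs_le.mp h5).1
    linarith
  have hD : C2 * (1 + Vmax) + Vmax^2 + (Real.log z + C1 + ε * Real.log Z) + (2 * ε) * (Real.log Z + 2 * C1)
      + Real.log x0 + 2 * C1 ≤ (8 * ε) * (Real.log Z - C1) := by
    have h3 : L * ε = C2 * (1 + Vmax) + Vmax^2 + Real.log z + 15 * C1 + Real.log x0 := by
      rw [hL]; field_simp
    have h4 : L * ε ≤ Real.log Z * ε := mul_le_mul_of_nonneg_right hlogZ hε.le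
    have h5 : ε * C1 ≤ 1 * C1 := mul_le_mul_of_nonneg_right hε1 hC1
    have h6 : 0 ≤ Real.log Z * ε := mul_nonneg (Real.log_nonneg (by exact_mod_cast (by omega : 1 ≤ Z))) hε.le
    nlinarith
  have hmain := hInd (Az ∪ R') P W V0 Vmax x0 Z (8*ε) (2*ε) (Real.log z + C1 + ε * Real.log Z)
    hPprime hV01 (fun x => (hHHle x).trans hexp) hx01 hZ2.le (by linarith) (by linarith) hWsum hcopA1 hinit hD
    n (by exact_mod_cast hn)
  -- composites
  have hn0 : (0:ℝ) ≤ n := Nat.cast_nonneg n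
  have hunion : (Az ∪ R') ∪ A.filter (fun a => z < a ∧ ¬ a.Prime) = A := by
    ext a
    simp only [hAz, hR', mem_union, mem_filter]
    constructor
    · rintro ((⟨h, _⟩ | ⟨h, _⟩) | ⟨h, _⟩) <;> exact h
    · intro h
      rcases le_or_gt a z with h1 | h1
      · exact Or.inl (Or.inl ⟨h, h1⟩)
      · by_cases h3 : a.Prime
        · exact Or.inl (Or.inr ⟨h, h3, h1⟩)
        · exact Or.inr ⟨h, h1, h3⟩
  have hfin := Sc_union (Az ∪ R') (A.filter (fun a => z < a ∧ ¬ a.Prime)) (n:ℝ) hn0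
    (fun d hd => by have := h2 d (mem_filter.mp hd).1; omega)
  rw [hunion] at hfin
  have h3 : ∑ d ∈ (A.filter (fun a => z < a ∧ ¬ a.Prime)).filter (fun d : ℕ => (d:ℝ) ≤ n), (n:ℝ) / d
      ≤ n * ∑ a ∈ A.filter (fun a => z < a ∧ ¬ a.Prime), (1:ℝ)/a := by
    rw [Finset.mul_sum]
    calc _ ≤ ∑ a ∈ A.filter (fun a => z < a ∧ ¬ a.Prime), (n:ℝ)/a := by
          apply Finset.sum_le_sum_of_subset_of_nonneg (Finset.filter_subset _ _)
          intro a _ _; positivity
      _ = _ := by
          apply Finset.sum_congr rfl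
          intro a _
          ring
  have h4 : rho (Real.exp (c + 1/z)) ≤ rho (HH P V0 n) := rho_anti (hHHle n)
  have h5 : (n:ℝ) * rho (Real.exp (c + 1/z)) ≤ n * rho (HH P V0 n) := mul_le_mul_of_nonneg_left h4 hn0
  linarith

/-- **Lower bound.** -/
theorem lower_bound (c : ℝ) (ε : ℝ) (hε : 0 < ε) :
    ∃ n0 : ℕ, ∀ n : ℕ, n0 ≤ n → ∀ A : Finset ℕ, (∀ a ∈ A, 2 ≤ a) →
      (∀ a ∈ A, ∀ b ∈ A, a ≠ b → Nat.Coprime a b) → ∑ a ∈ A, (1:ℝ)/a ≤ c →
      (rho (Real.exp c) - ε) * n ≤ Sc A n := by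
  classical
  set e1 : ℝ := min (ε / 10) 1 with he1
  have he1pos : 0 < e1 := lt_min (by linarith) one_pos
  have he1le : e1 ≤ 1 := min_le_right _ _
  have he1ε : 10 * e1 ≤ ε := by
    have := min_le_left (ε/10) 1
    linarith
  -- choose y
  have hcont : Filter.Tendsto (fun y : ℕ => Real.exp (c + 1/(y:ℝ))) Filter.atTop (nhds (Real.exp c)) := by
    have h1 : Filter.Tendsto (fun y : ℕ => c + 1/(y:ℝ)) Filter.atTop (nhds (c + 0)) :=
      tendsto_const_nhds.add tendsto_one_div_atTop_nhds_zero_nat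
    rw [add_zero] at h1
    exact (Real.continuous_exp.tendsto c).comp h1
  have hev : ∀ᶠ y : ℕ in Filter.atTop, Real.exp (c + 1/(y:ℝ)) < Real.exp c + e1 :=
    hcont.eventually (gt_mem_nhds (by linarith))
  obtain ⟨y1, hy1⟩ := Filter.eventually_atTop.mp hev
  obtain ⟨y2, hy2⟩ := exists_nat_gt (2 / e1)
  set y := max (max y1 y2) 2 with hy
  have hyy1 : y1 ≤ y := (le_max_left _ _).trans (le_max_left _ _)
  have hyy2 : y2 ≤ y := (le_max_right _ _).trans (le_max_left _ _)
  have hy2' : 2 ≤ y := le_max_right _ _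
  have hypos : (0:ℝ) < y := by exact_mod_cast (by omega : 0 < y)
  choose! Zf hZf1 hZf2 using lower_one_scale c e1 he1pos he1le
  set zs : ℕ → ℕ := fun i => Nat.rec (y^2) (fun _ z => Zf z) i with hzs
  have hzs0 : zs 0 = y^2 := rfl
  have hzss : ∀ i, zs (i+1) = Zf (zs i) := fun i => rfl
  have hzsge : ∀ i, y^2 ≤ zs i ∧ zs i < zs (i+1) := by
    intro i
    induction i with
    | zero =>
      refine ⟨le_rfl, ?_⟩
      rw [hzss]
      exact hZf1 _ (by rw [hzs0]; nlinarith)
    | succ i ih =>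
      have h1 : y^2 ≤ zs (i+1) := by omega
      refine ⟨h1, ?_⟩
      rw [hzss (i+1)]
      exact hZf1 _ (by nlinarith)
  obtain ⟨I, hI⟩ := exists_nat_gt (c / e1)
  have hI' : c < I * e1 := by rwa [div_lt_iff₀ he1pos] at hI
  refine ⟨zs I, ?_⟩
  intro n hn A h2 hcop hAc
  obtain ⟨i, hiI, hi⟩ := pigeonhole A c e1 hAc zs (fun i => (hzsge i).2) I hI'
  have hmonozs : Monotone zs := monotone_nat_of_le_succ (fun i => (hzsge i).2.le)
  have hz2 : 2 ≤ zs i := by
    have := (hzsge i).1
    nlinarith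
  have h1 := hZf2 (zs i) hz2 A h2 hcop hAc (by rw [hzss] at hi; exact hi) n
    (by rw [← hzss]; exact (hmonozs (show i + 1 ≤ I by omega)).trans hn)
  have h3 := composite_tail h2 hcop (by omega : 1 ≤ y) (hzsge i).1
  have h4 : (2:ℝ) / y ≤ e1 := by
    rw [div_le_iff₀ hypos]
    have h5 : (2:ℝ) / e1 < y2 := hy2
    rw [div_lt_iff₀ he1pos] at h5
    have h6 : (y2:ℝ) ≤ y := by exact_mod_cast hyy2
    nlinarith
  have h5 : rho (Real.exp c) - e1 ≤ rho (Real.exp (c + 1/(zs i))) := by
    have h6 : Real.exp (c + 1/(zs i : ℝ)) ≤ Real.exp (c + 1/(y:ℝ)) := by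
      apply Real.exp_le_exp.mpr
      have : 1/(zs i : ℝ) ≤ 1/(y:ℝ) := by
        apply one_div_le_one_div_of_le hypos
        have := (hzsge i).1
        have h7 : y ≤ zs i := by nlinarith
        exact_mod_cast h7
      linarith
    have h7 := hy1 y hyy1
    have h8 := rho_lip (show Real.exp c ≤ Real.exp c + e1 by linarith)
    have h9 : rho (Real.exp c + e1) ≤ rho (Real.exp (c + 1/(zs i : ℝ))) := rho_anti (by linarith)
    linarith
  have hn0 : (0:ℝ) ≤ n := Nat.cast_nonneg n
  calc (rho (Real.exp c) - ε) * n = n * (rho (Real.exp c) - ε) := by ring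
    _ ≤ n * (rho (Real.exp (c + 1/(zs i))) - 8 * e1
        - ∑ a ∈ A.filter (fun a => zs i < a ∧ ¬ a.Prime), (1:ℝ)/a) := by
        apply mul_le_mul_of_nonneg_left _ hn0
        linarith
    _ ≤ Sc A n := h1

end Pool.Agent.CoprimeSieve
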