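import Mathlib
import Pool.Agent.CoprimeSieve.Dickman
import Pool.Agent.CoprimeSieve.Count

set_option autoImplicit false

open Finset

namespace Pool.Agent.CoprimeSieve

lemma sumLambda_upper (N : ℕ) (hN : 1 ≤ N) :
    ∑ n ∈ Finset.Ioc 0 N, ArithmeticFunction.vonMangoldt n / (n:ℝ) ≤ Real.log N + (Real.log 4 + 4) := by
  have hN0 : (0:ℝ) < N := by exact_mod_cast hN
  have h1 : (N:ℝ) * ∑ n ∈ Finset.Ioc 0 N, ArithmeticFunction.vonMangoldt n / (n:ℝ)
      = ∑ n ∈ Finset.Ioc 0 N, ArithmeticFunction.vonMangoldt n * ((N:ℝ) / n) := by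
    rw [Finset.mul_sum]
    apply Finset.sum_congr rfl
    intro n _
    ring
  have h2 : ∑ n ∈ Finset.Ioc 0 N, ArithmeticFunction.vonMangoldt n * ((N:ℝ) / n)
      ≤ ∑ n ∈ Finset.Ioc 0 N, (ArithmeticFunction.vonMangoldt n * ((N / n : ℕ) : ℝ)
        + ArithmeticFunction.vonMangoldt n) := by
    apply Finset.sum_le_sum
    intro n hn
    rw [mem_Ioc] at hn
    have hn0 : (0:ℝ) < n := by exact_mod_cast hn.1
    have h3 : (N:ℝ) / n ≤ ((N / n : ℕ) : ℝ) + 1 := by
      have := Nat.lt_floor_add_one ((N:ℝ)/n)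
      rw [Nat.floor_div_natCast, Nat.floor_natCast] at this
      exact this.le
    have := mul_le_mul_of_nonneg_left h3 (ArithmeticFunction.vonMangoldt_nonneg (n := n))
    linarith
  rw [Finset.sum_add_distrib, ← sum_log_eq] at h2
  have h3 : ∑ n ∈ Finset.Ioc 0 N, Real.log n ≤ N * Real.log N := by
    calc ∑ n ∈ Finset.Ioc 0 N, Real.log n ≤ ∑ n ∈ Finset.Ioc 0 N, Real.log N := by
          apply Finset.sum_le_sum
          intro n hn
          rw [mem_Ioc] at hn
          apply Real.log_le_log
          · exact_mod_cast hn.1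
          · exact_mod_cast hn.2
      _ = N * Real.log N := by simp
  have h4 : ∑ n ∈ Finset.Ioc 0 N, ArithmeticFunction.vonMangoldt n ≤ (Real.log 4 + 4) * N := by
    have := Chebyshev.psi_le_const_mul_self (x := (N:ℝ)) hN0.le
    unfold Chebyshev.psi at this
    rwa [Nat.floor_natCast] at this
  have h5 : (N:ℝ) * ∑ n ∈ Finset.Ioc 0 N, ArithmeticFunction.vonMangoldt n / (n:ℝ)
      ≤ N * (Real.log N + (Real.log 4 + 4)) := by linarith
  exact le_of_mul_le_mul_left h5 hN0

/-- The non-prime prime powers contribute a bounded amount. -/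
lemma sumLambda_nonprime : ∃ C : ℝ, 0 ≤ C ∧ ∀ N : ℕ, 1 ≤ N →
    ∑ n ∈ (Finset.Ioc 0 N).filter (fun n => ¬ n.Prime), ArithmeticFunction.vonMangoldt n / (n:ℝ) ≤ C := by
  obtain ⟨C, hC, h⟩ := mE_lower_nat
  have hl4 := Real.log_nonneg (show (1:ℝ) ≤ 4 by norm_num)
  refine ⟨C + (Real.log 4 + 4), by linarith, ?_⟩
  intro N hN
  have h1 := sumLambda_upper N hN
  have h2 := h N hN
  have h3 := Finset.sum_filter_add_sum_filter_not (Finset.Ioc 0 N) (fun n => n.Prime)
    (fun n => ArithmeticFunction.vonMangoldt n / (n:ℝ))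
  have h4 : ∑ n ∈ (Finset.Ioc 0 N).filter (fun n => n.Prime), ArithmeticFunction.vonMangoldt n / (n:ℝ) = mE N := by
    unfold mE
    have e : (Finset.Ioc 0 N).filter (fun n => n.Prime) = pr (N:ℝ) := by
      ext p
      simp only [mem_filter, mem_Ioc, mem_pr]
      constructor
      · rintro ⟨⟨_, h5⟩, h6⟩; exact ⟨h6, by exact_mod_cast h5⟩
      · rintro ⟨h6, h5⟩; exact ⟨⟨h6.pos, by exact_mod_cast h5⟩, h6⟩
    rw [e]
    apply Finset.sum_congr rfl
    intro p hp
    rw [ArithmeticFunction.vonMangoldt_apply_prime (mem_pr.mp hp).1]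
  linarith

lemma card_multiples_le (A : Finset ℕ) {d : ℕ} (hd : 0 < d) (x : ℝ) :
    (((Tset A x).filter (fun m => d ∣ m)).card : ℝ) ≤ Sc A (x / d) := by
  unfold Sc
  have hd0 : (0:ℝ) < d := by exact_mod_cast hd
  have : ((Tset A x).filter (fun m => d ∣ m)).card ≤ (Tset A (x/d)).card := by
    apply Finset.card_le_card_of_injOn (fun m => m / d)
    · intro m hm
      have hm' := mem_filter.mp (Finset.mem_coe.mp hm)
      obtain ⟨h1, k, hk⟩ := hm'
      rw [mem_Tset] at h1
      have e : m / d = k := by rw [hk]; exact Nat.mul_div_cancel_left k hd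
      simp only [Finset.mem_coe]
      rw [e, mem_Tset]
      have hk1 : 1 ≤ k := by
        rcases Nat.eq_zero_or_pos k with h | h
        · subst h; simp at hk; omega
        · exact h
      refine ⟨⟨hk1, ?_⟩, ?_⟩
      · rw [le_div_iff₀ hd0]
        have : (m:ℝ) = d * k := by rw [hk]; push_cast; ring
        linarith [h1.1.2]
      · intro a ha hdvd
        exact h1.2 a ha (hk ▸ Dvd.dvd.mul_left hdvd d)
    · intro m1 hm1 m2 hm2 h
      have h1 := (mem_filter.mp (Finset.mem_coe.mp hm1)).2
      have h2 := (mem_filter.mp (Finset.mem_coe.mp hm2)).2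
      simp only at h
      rw [← Nat.div_mul_cancel h1, ← Nat.div_mul_cancel h2, h]
  exact_mod_cast this

lemma Sc_le (A : Finset ℕ) {x : ℝ} (hx : 0 ≤ x) : Sc A x ≤ x := by
  unfold Sc Tset
  have h1 : ((Finset.Icc 1 ⌊x⌋₊).filter (fun m => ∀ a ∈ A, ¬ a ∣ m)).card ≤ ⌊x⌋₊ := by
    have := Finset.card_filter_le (Finset.Icc 1 ⌊x⌋₊) (fun m => ∀ a ∈ A, ¬ a ∣ m)
    simpa using this
  calc _ ≤ (⌊x⌋₊ : ℝ) := by exact_mod_cast h1
    _ ≤ x := Nat.floor_le hx

/-- Upper recursion. -/
lemma upper_recursion : ∃ C : ℝ, 0 ≤ C ∧ ∀ (Q : Finset ℕ) (y N : ℝ),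
    (∀ p : ℕ, p.Prime → y < p → (p:ℝ) ≤ N → p ∈ Q) → ∀ t : ℝ, 1 ≤ t → t ≤ N →
    Real.log t * Sc Q t ≤ ∑ p ∈ pr y, Real.log p * Sc Q (t / p) + C * t := by
  classical
  obtain ⟨C, hC, hL⟩ := sumLambda_nonprime
  refine ⟨C + 1, by linarith, ?_⟩
  intro Q y N hQ t ht1 htN
  have ht0 : 0 < t := by linarith
  have hfl : 1 ≤ ⌊t⌋₊ := Nat.floor_pos.mpr ht1
  have hfl0 : (0:ℝ) < (⌊t⌋₊:ℝ) := by exact_mod_cast hfl
  have hflt : (⌊t⌋₊:ℝ) ≤ t := Nat.floor_le ht0.le
  -- (1)
  have h1 : Real.log t * Sc Q t - ∑ m ∈ Tset Q t, Real.log m ≤ t := by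
    have e1 : Real.log t * Sc Q t - ∑ m ∈ Tset Q t, Real.log m
        = ∑ m ∈ Tset Q t, (Real.log t - Real.log m) := by
      rw [Finset.sum_sub_distrib, Finset.sum_const, nsmul_eq_mul]
      unfold Sc
      ring
    rw [e1]
    have h2 : ∑ m ∈ Tset Q t, (Real.log t - Real.log m) ≤ ∑ m ∈ Finset.Ioc 0 ⌊t⌋₊, (Real.log t - Real.log m) := by
      apply Finset.sum_le_sum_of_subset_of_nonneg
      · intro m hm
        have hm' := (mem_filter.mp hm).1
        rw [mem_Icc] at hm'
        rw [mem_Ioc]
        exact ⟨by omega, hm'.2⟩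
      · intro m hm _
        rw [mem_Ioc] at hm
        have : (m:ℝ) ≤ t := (by exact_mod_cast hm.2 : (m:ℝ) ≤ (⌊t⌋₊:ℝ)).trans hflt
        have := Real.log_le_log (by exact_mod_cast hm.1) this
        linarith
    have h3 : ∑ m ∈ Finset.Ioc 0 ⌊t⌋₊, (Real.log t - Real.log m)
        = ⌊t⌋₊ * Real.log t - Real.log (⌊t⌋₊).factorial := by
      rw [Finset.sum_sub_distrib, Finset.sum_const, nsmul_eq_mul]
      congr 1
      · simp
      · rw [← Finset.prod_Ico_id_eq_factorial, Nat.cast_prod, Real.log_prod]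
        · apply Finset.sum_congr _ (fun _ _ => rfl)
          ext m
          simp only [mem_Ioc, mem_Ico]
          omega
        · intro m hm
          rw [mem_Ico] at hm
          have : (0:ℝ) < m := by exact_mod_cast (by omega : 0 < m)
          exact this.ne'
    have h4 : (⌊t⌋₊:ℝ) * Real.log ⌊t⌋₊ - ⌊t⌋₊ ≤ Real.log (⌊t⌋₊).factorial := by
      have h5 := Stirling.le_log_factorial_stirling (n := ⌊t⌋₊) (by omega)
      have h6 : 0 ≤ Real.log (⌊t⌋₊:ℝ) := Real.log_natCast_nonneg _
      have h7 : 0 ≤ Real.log (2 * Real.pi) := Real.log_nonneg (by linarith [Real.pi_gt_three])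
      linarith
    have h5 : (⌊t⌋₊:ℝ) * (Real.log t - Real.log ⌊t⌋₊) ≤ t - ⌊t⌋₊ := by
      rw [← Real.log_div ht0.ne' hfl0.ne']
      have h6 := Real.log_le_sub_one_of_pos (show 0 < t / (⌊t⌋₊:ℝ) by positivity)
      have h7 := mul_le_mul_of_nonneg_left h6 hfl0.le
      have h8 : (⌊t⌋₊:ℝ) * (t / (⌊t⌋₊:ℝ) - 1) = t - ⌊t⌋₊ := by field_simp
      linarith
    linarith
  -- (2)
  have h2 : ∑ m ∈ Tset Q t, Real.log m
      = ∑ d ∈ Finset.Ioc 0 ⌊t⌋₊, ArithmeticFunction.vonMangoldt d * (((Tset Q t).filter (fun m => d ∣ m)).card : ℝ) := by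
    have e1 : ∀ m ∈ Tset Q t, Real.log m = ∑ d ∈ Finset.Ioc 0 ⌊t⌋₊, if d ∣ m then ArithmeticFunction.vonMangoldt d else 0 := by
      intro m hm
      have hm' := (mem_filter.mp hm).1
      rw [mem_Icc] at hm'
      rw [← ArithmeticFunction.vonMangoldt_sum, ← Finset.sum_filter]
      apply Finset.sum_congr _ (fun _ _ => rfl)
      ext d
      simp only [Nat.mem_divisors, mem_filter, mem_Ioc]
      constructor
      · rintro ⟨h3, h4⟩
        refine ⟨⟨Nat.pos_of_dvd_of_pos h3 (by omega), ?_⟩, h3⟩
        exact (Nat.le_of_dvd (by omega) h3).trans hm'.2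
      · rintro ⟨_, h3⟩
        exact ⟨h3, by omega⟩
    rw [Finset.sum_congr rfl e1, Finset.sum_comm]
    apply Finset.sum_congr rfl
    intro d _
    rw [← Finset.sum_filter, Finset.sum_const, nsmul_eq_mul, mul_comm]
  have hsplit := Finset.sum_filter_add_sum_filter_not (Finset.Ioc 0 ⌊t⌋₊) (fun n => n.Prime)
    (fun d => ArithmeticFunction.vonMangoldt d * (((Tset Q t).filter (fun m => d ∣ m)).card : ℝ))
  have h3 : ∑ d ∈ (Finset.Ioc 0 ⌊t⌋₊).filter (fun n => n.Prime),
      ArithmeticFunction.vonMangoldt d * (((Tset Q t).filter (fun m => d ∣ m)).card : ℝ)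
      ≤ ∑ p ∈ pr y, Real.log p * Sc Q (t / p) := by
    have h4 : ∑ d ∈ ((Finset.Ioc 0 ⌊t⌋₊).filter (fun n => n.Prime)).filter (fun d : ℕ => ¬ (d:ℝ) ≤ y),
      ArithmeticFunction.vonMangoldt d * (((Tset Q t).filter (fun m => d ∣ m)).card : ℝ) = 0 := by
      apply Finset.sum_eq_zero
      intro d hd
      have hd1 := mem_filter.mp hd
      have hd2 := mem_filter.mp hd1.1
      rw [mem_Ioc] at hd2
      have hdy : y < d := by have := hd1.2; push Not at this; exact this
      have hdN : (d:ℝ) ≤ N := ((by exact_mod_cast hd2.1.2 : (d:ℝ) ≤ (⌊t⌋₊:ℝ)).trans hflt).trans htN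
      have hdQ := hQ d hd2.2 hdy hdN
      have : (Tset Q t).filter (fun m => d ∣ m) = ∅ := by
        rw [Finset.filter_eq_empty_iff]
        intro m hm
        exact (mem_Tset.mp hm).2 d hdQ
      rw [this]; simp
    have h5 := Finset.sum_filter_add_sum_filter_not ((Finset.Ioc 0 ⌊t⌋₊).filter (fun n => n.Prime))
      (fun d : ℕ => (d:ℝ) ≤ y)
      (fun d => ArithmeticFunction.vonMangoldt d * (((Tset Q t).filter (fun m => d ∣ m)).card : ℝ))
    rw [h4, add_zero] at h5
    rw [← h5]
    calc _ ≤ ∑ d ∈ ((Finset.Ioc 0 ⌊t⌋₊).filter (fun n => n.Prime)).filter (fun d : ℕ => (d:ℝ) ≤ y),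
          Real.log d * Sc Q (t / d) := by
          apply Finset.sum_le_sum
          intro d hd
          have hd1 := mem_filter.mp hd
          have hd2 := mem_filter.mp hd1.1
          rw [ArithmeticFunction.vonMangoldt_apply_prime hd2.2]
          exact mul_le_mul_of_nonneg_left (card_multiples_le Q hd2.2.pos t) (Real.log_natCast_nonneg d)
      _ ≤ _ := by
          apply Finset.sum_le_sum_of_subset_of_nonneg
          · intro d hd
            have hd1 := mem_filter.mp hd
            have hd2 := mem_filter.mp hd1.1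
            rw [mem_pr]
            exact ⟨hd2.2, hd1.2⟩
          · intro p _ _
            exact mul_nonneg (Real.log_natCast_nonneg p) (Sc_nonneg _ _)
  have h4 : ∑ d ∈ (Finset.Ioc 0 ⌊t⌋₊).filter (fun n => ¬ n.Prime),
      ArithmeticFunction.vonMangoldt d * (((Tset Q t).filter (fun m => d ∣ m)).card : ℝ) ≤ C * t := by
    calc _ ≤ ∑ d ∈ (Finset.Ioc 0 ⌊t⌋₊).filter (fun n => ¬ n.Prime), ArithmeticFunction.vonMangoldt d / (d:ℝ) * t := by
          apply Finset.sum_le_sum
          intro d hd
          have hd1 := mem_filter.mp hd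
          rw [mem_Ioc] at hd1
          have h5 := (card_multiples_le Q hd1.1.1 t).trans (Sc_le Q (by positivity : 0 ≤ t / d))
          have h6 := mul_le_mul_of_nonneg_left h5 (ArithmeticFunction.vonMangoldt_nonneg (n := d))
          calc _ ≤ _ := h6
            _ = _ := by ring
      _ = (∑ d ∈ (Finset.Ioc 0 ⌊t⌋₊).filter (fun n => ¬ n.Prime), ArithmeticFunction.vonMangoldt d / (d:ℝ)) * t := by
          rw [Finset.sum_mul]
      _ ≤ C * t := mul_le_mul_of_nonneg_right (hL ⌊t⌋₊ hfl) ht0.le
  linarith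

/-- Partial summation against Mertens for monotone functions. -/
lemma mertens_monotone : ∃ C : ℝ, 0 ≤ C ∧ ∀ (F : ℝ → ℝ), Monotone F → (∀ s, 0 ≤ F s) → (∀ s, F s ≤ 1) →
    ∀ K : ℕ, ∑ p ∈ pr (Real.exp K), Real.log p / p * F (Real.log p) ≤ (∫ s in (0:ℝ)..K, F s) + C := by
  obtain ⟨C1, hC1, hM⟩ := mertens_first
  refine ⟨2 * C1 + 1, by linarith, ?_⟩
  intro F hF hF0 hF1 K
  have key : ∀ K : ℕ, ∑ p ∈ pr (Real.exp K), Real.log p / p * F (Real.log p)
      ≤ ∑ k ∈ Finset.range K, F (1 + k) + F K * (mE (Real.exp K) - K + C1) := by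
    intro K
    induction K with
    | zero =>
      have h1 : pr (Real.exp ((0:ℕ):ℝ)) = ∅ := by
        rw [Finset.eq_empty_iff_forall_notMem]
        intro p hp
        rw [mem_pr] at hp
        have h3 := hp.1.two_le
        have h2 := hp.2
        simp at h2
        omega
      rw [h1]
      simp only [Finset.sum_empty, Finset.range_zero, zero_add]
      apply mul_nonneg (hF0 _)
      have := mE_nonneg (Real.exp ((0:ℕ):ℝ))
      simp only [Nat.cast_zero, Real.exp_zero, sub_zero] at *
      linarith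
    | succ K ih =>
      have hsub : pr (Real.exp K) ⊆ pr (Real.exp ((K+1:ℕ):ℝ)) := pr_mono (Real.exp_le_exp.mpr (by push_cast; linarith))
      rw [← Finset.sum_sdiff hsub]
      have h1 : ∑ p ∈ pr (Real.exp ((K+1:ℕ):ℝ)) \ pr (Real.exp K), Real.log p / p * F (Real.log p)
          ≤ F ((K+1:ℕ):ℝ) * (mE (Real.exp ((K+1:ℕ):ℝ)) - mE (Real.exp K)) := by
        have h2 : mE (Real.exp ((K+1:ℕ):ℝ)) - mE (Real.exp K)
            = ∑ p ∈ pr (Real.exp ((K+1:ℕ):ℝ)) \ pr (Real.exp K), Real.log p / p := by
          unfold mE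
          rw [← Finset.sum_sdiff hsub]
          ring
        rw [h2, Finset.mul_sum]
        apply Finset.sum_le_sum
        intro p hp
        rw [mem_sdiff] at hp
        have hp1 := mem_pr.mp hp.1
        have hp0 : (0:ℝ) < p := by exact_mod_cast hp1.1.pos
        have h3 : Real.log p ≤ ((K+1:ℕ):ℝ) := by
          have := Real.log_le_log hp0 hp1.2
          rwa [Real.log_exp] at this
        have h4 := hF h3
        have h5 := mul_le_mul_of_nonneg_left h4 (logdiv_nonneg p)
        linarith
      have h2 : F K * (mE (Real.exp K) - K + C1) ≤ F ((K+1:ℕ):ℝ) * (mE (Real.exp K) - K + C1) := by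
        apply mul_le_mul_of_nonneg_right
        · exact hF (by push_cast; linarith)
        · have := (abs_le.mp (hM (Real.exp K) (Real.one_le_exp (Nat.cast_nonneg K)))).1
          rw [Real.log_exp] at this
          linarith
      rw [Finset.sum_range_succ]
      have h3 : F (1 + (K:ℝ)) = F ((K+1:ℕ):ℝ) := by push_cast; rw [add_comm]
      rw [h3]
      push_cast at *
      nlinarith
  have h1 := key K
  have h2 : ∑ k ∈ Finset.range K, F (1 + k) ≤ ∫ s in (1:ℝ)..(1 + K), F s :=
    MonotoneOn.sum_le_integral (hF.monotoneOn _)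
  have hI : ∀ a b : ℝ, IntervalIntegrable F MeasureTheory.volume a b := fun a b => hF.intervalIntegrable
  have h3 : (∫ s in (1:ℝ)..(1 + K), F s) ≤ (∫ s in (0:ℝ)..K, F s) + 1 := by
    have e1 : (∫ s in (0:ℝ)..K, F s) + ∫ s in (K:ℝ)..(1+K), F s = ∫ s in (0:ℝ)..(1+K), F s :=
      intervalIntegral.integral_add_adjacent_intervals (hI _ _) (hI _ _)
    have e2 : (∫ s in (0:ℝ)..1, F s) + ∫ s in (1:ℝ)..(1+K), F s = ∫ s in (0:ℝ)..(1+K), F s :=
      intervalIntegral.integral_add_adjacent_intervals (hI _ _) (hI _ _)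
    have h4 : 0 ≤ ∫ s in (0:ℝ)..1, F s := intervalIntegral.integral_nonneg zero_le_one (fun s _ => hF0 s)
    have h5 : ∫ s in (K:ℝ)..(1+K), F s ≤ ∫ s in (K:ℝ)..(1+K), (1:ℝ) :=
      intervalIntegral.integral_mono_on (by linarith) (hI _ _) (by simp) (fun s _ => hF1 s)
    have h6 : ∫ s in (K:ℝ)..(1+K), (1:ℝ) = 1 := by simp
    linarith
  have h4 : F K * (mE (Real.exp K) - K + C1) ≤ 2 * C1 := by
    have h5 := abs_le.mp (hM (Real.exp K) (Real.one_le_exp (Nat.cast_nonneg K)))
    rw [Real.log_exp] at h5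
    have h6 : F K * (mE (Real.exp K) - K + C1) ≤ 1 * (mE (Real.exp K) - K + C1) :=
      mul_le_mul_of_nonneg_right (hF1 _) (by linarith)
    linarith
  linarith

/-- Upper bound for smooth-type counts. -/
lemma upper_induction : ∃ C1 C : ℝ, 0 ≤ C1 ∧ 0 ≤ C ∧ ∀ (Q : Finset ℕ) (K : ℕ) (N D : ℝ), 1 ≤ K → 0 ≤ D →
    (∀ p : ℕ, p.Prime → Real.exp K < p → (p:ℝ) ≤ N → p ∈ Q) → C ≤ D * (K - C1) →
    ∀ t : ℝ, 1 ≤ t → t ≤ N → Sc Q t ≤ t * (rho (Real.log t / K) + D) := by
  classical
  obtain ⟨C1, hC1, hM⟩ := mertens_first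
  obtain ⟨C4, hC4, hR⟩ := upper_recursion
  obtain ⟨C5, hC5, hS⟩ := mertens_monotone
  refine ⟨C1, C4 + C5, hC1, by linarith, ?_⟩
  intro Q K N D hK hD0 hQ hD
  have hK0 : (0:ℝ) < K := by exact_mod_cast hK
  have main : ∀ n : ℕ, ∀ t : ℝ, ⌊t⌋₊ = n → 1 ≤ t → t ≤ N →
      Sc Q t ≤ t * (rho (Real.log t / K) + (if t ≤ Real.exp K then 0 else D)) := by
    intro n
    induction n using Nat.strong_induction_on with
    | _ n ih =>
      intro t htn ht1 htN
      have ht0 : 0 < t := by linarith
      split_ifs with hcase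
      · have h1 : rho (Real.log t / K) = 1 := by
          apply rho_of_le_one
          rw [div_le_one hK0]
          have := Real.log_le_log ht0 hcase
          rwa [Real.log_exp] at this
        rw [h1]
        have := Sc_le Q ht0.le
        linarith
      · push Not at hcase
        have hexp1 : 1 < Real.exp K := Real.one_lt_exp_iff.mpr hK0
        have hlogt : 0 < Real.log t := Real.log_pos (by linarith)
        have hrec := hR Q (Real.exp K) N hQ t ht1 htN
        set u := Real.log t / K with hu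
        have hu1 : 1 ≤ u := by
          rw [hu, le_div_iff₀ hK0, one_mul]
          have := Real.log_le_log (Real.exp_pos K) hcase.le
          rwa [Real.log_exp] at this
        have h1 : ∑ p ∈ pr (Real.exp K), Real.log p * Sc Q (t / p)
            ≤ t * (∑ p ∈ pr (Real.exp K), Real.log p / p * rho (u - Real.log p / K)
              + D * ∑ p ∈ pr (Real.exp K), (if Real.exp K ≤ t / p then Real.log p / p else 0)) := by
          rw [Finset.mul_sum, ← Finset.sum_add_distrib, Finset.mul_sum]
          apply Finset.sum_le_sum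
          intro p hp
          have hp' := mem_pr.mp hp
          have hp0 : (0:ℝ) < p := by exact_mod_cast hp'.1.pos
          have hp1 : (1:ℝ) ≤ p := by exact_mod_cast hp'.1.one_lt.le
          have h2 : 1 ≤ t / p := by rw [le_div_iff₀ hp0]; linarith [hp'.2]
          have h3 := ih ⌊t/p⌋₊ (by
            rw [Nat.floor_div_natCast, ← htn]
            exact Nat.div_lt_self (Nat.floor_pos.mpr ht1) hp'.1.one_lt) (t/p) rfl h2
            ((div_le_self ht0.le hp1).trans htN)
          have h4 : Real.log (t/p) / K = u - Real.log p / K := by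
            rw [Real.log_div ht0.ne' hp0.ne', hu]; ring
          rw [h4] at h3
          have h5 : (if t / (p:ℝ) ≤ Real.exp K then (0:ℝ) else D) ≤ (if Real.exp K ≤ t / p then D else 0) := by
            split_ifs with c1 c2 c3
            · exact hD0
            · exact le_rfl
            · exact le_rfl
            · push Not at c1; linarith
          have h6 : Sc Q (t/p) ≤ t / p * (rho (u - Real.log p / K) + (if Real.exp K ≤ t / p then D else 0)) := by
            refine h3.trans ?_
            apply mul_le_mul_of_nonneg_left _ (by positivity)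
            linarith
          have h7 := mul_le_mul_of_nonneg_left h6 (Real.log_natCast_nonneg p)
          calc _ ≤ _ := h7
            _ = _ := by split_ifs <;> ring
        have h2 : ∑ p ∈ pr (Real.exp K), (if Real.exp K ≤ t / p then Real.log p / p else 0)
            ≤ Real.log t - K + C1 := by
          have htK : 1 ≤ t / Real.exp K := by rw [le_div_iff₀ (Real.exp_pos K)]; linarith
          rw [← Finset.sum_filter]
          calc _ ≤ mE (t / Real.exp K) := by
                unfold mE
                apply Finset.sum_le_sum_of_subset_of_nonneg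
                · intro p hp
                  have hp1 := mem_filter.mp hp
                  have hp2 := mem_pr.mp hp1.1
                  have hp0 : (0:ℝ) < p := by exact_mod_cast hp2.1.pos
                  rw [mem_pr]
                  refine ⟨hp2.1, ?_⟩
                  have := hp1.2
                  rw [le_div_iff₀ hp0] at this
                  rw [le_div_iff₀ (Real.exp_pos K)]
                  linarith
                · intro p _ _; exact logdiv_nonneg p
            _ ≤ Real.log (t / Real.exp K) + C1 := by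
                have := (abs_le.mp (hM _ htK)).2
                linarith
            _ = Real.log t - K + C1 := by
                rw [Real.log_div ht0.ne' (Real.exp_pos K).ne', Real.log_exp]
        have h3 : ∑ p ∈ pr (Real.exp K), Real.log p / p * rho (u - Real.log p / K)
            ≤ Real.log t * rho u + C5 := by
          have h4 := hS (fun s => rho (u - s / K)) (fun a b hab => by
            apply rho_anti
            have : a / K ≤ b / K := div_le_div_of_nonneg_right hab hK0.le
            linarith) (fun s => (rho_pos _).le) (fun s => rho_le_one _) K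
          have h5 : (∫ s in (0:ℝ)..K, rho (u - s / K)) = Real.log t * rho u := by
            rw [intervalIntegral.integral_comp_sub_div (fun x => rho x) hK0.ne' u]
            rw [div_self hK0.ne', zero_div, sub_zero, rho_integral hu1, smul_eq_mul, hu]
            field_simp
          rw [h5] at h4
          exact h4
        have h4 : D * ∑ p ∈ pr (Real.exp K), (if Real.exp K ≤ t / p then Real.log p / p else 0)
            ≤ D * (Real.log t - K + C1) := mul_le_mul_of_nonneg_left h2 hD0
        have h5 : Real.log t * Sc Q t ≤ Real.log t * (t * (rho u + D)) := by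
          calc Real.log t * Sc Q t ≤ _ := hrec
            _ ≤ t * ((Real.log t * rho u + C5) + D * (Real.log t - K + C1)) + C4 * t := by
                have h6 := mul_le_mul_of_nonneg_left (add_le_add h3 h4) ht0.le
                linarith
            _ = Real.log t * (t * (rho u + D)) + t * ((C4 + C5) - D * (K - C1)) := by ring
            _ ≤ Real.log t * (t * (rho u + D)) := by
                have : t * ((C4 + C5) - D * (K - C1)) ≤ 0 :=
                  mul_nonpos_of_nonneg_of_nonpos ht0.le (by linarith)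
                linarith
        exact le_of_mul_le_mul_left h5 hlogt
  intro t ht1 htN
  have h := main ⌊t⌋₊ t rfl ht1 htN
  refine h.trans ?_
  apply mul_le_mul_of_nonneg_left _ (by linarith)
  split_ifs <;> linarith

end Pool.Agent.CoprimeSieve
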