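import Mathlib
import Pool.Agent.CoprimeSieve.Defs
import Pool.Agent.CoprimeSieve.Lower
import Pool.Agent.CoprimeSieve.Upper

set_option autoImplicit false

open Finset Filter Topology

namespace Pool.Agent.CoprimeSieve

lemma unsieved_eq_Sc (n : ℕ) (A : Finset ℕ) : (unsieved n A : ℝ) = Sc A n := by
  unfold unsieved Sc Tset
  rw [Nat.floor_natCast]

lemma mem_Q {c : ℝ} {n q : ℕ} : q ∈ largestPrimes c n ↔ q.Prime ∧ q ≤ n ∧
    ∑ p ∈ (Finset.Icc q n).filter Nat.Prime, (1 : ℝ) / p ≤ c := by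
  unfold largestPrimes
  rw [mem_filter, mem_Icc]
  constructor
  · rintro ⟨⟨_, h2⟩, h3, h4⟩; exact ⟨h3, h2, h4⟩
  · rintro ⟨h3, h2, h4⟩; exact ⟨⟨h3.one_lt.le, h2⟩, h3, h4⟩

lemma sum_Icc_anti {q r n : ℕ} (h : q ≤ r) :
    ∑ p ∈ (Finset.Icc r n).filter Nat.Prime, (1 : ℝ) / p
      ≤ ∑ p ∈ (Finset.Icc q n).filter Nat.Prime, (1 : ℝ) / p := by
  apply Finset.sum_le_sum_of_subset_of_nonneg
  · intro p hp
    rw [mem_filter, mem_Icc] at *
    exact ⟨⟨by omega, hp.1.2⟩, hp.2⟩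
  · intro p _ _; positivity

/-- The reciprocal sum of `Q_n` is at most `c`. -/
lemma sum_Q_le {c : ℝ} (hc : 0 ≤ c) (n : ℕ) : ∑ q ∈ largestPrimes c n, (1:ℝ) / q ≤ c := by
  rcases (largestPrimes c n).eq_empty_or_nonempty with h | h
  · rw [h]; simpa using hc
  · have hm := Finset.min'_mem _ h
    set q0 := (largestPrimes c n).min' h with hq0
    have h1 := (mem_Q.mp hm).2.2
    refine le_trans ?_ h1
    apply Finset.sum_le_sum_of_subset_of_nonneg
    · intro q hq
      rw [mem_filter, mem_Icc]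
      exact ⟨⟨Finset.min'_le _ q hq, (mem_Q.mp hq).2.1⟩, (mem_Q.mp hq).1⟩
    · intro p _ _; positivity

lemma tendsto_sum_primes (Y : ℕ) :
    Tendsto (fun n : ℕ => ∑ p ∈ (Finset.Icc Y n).filter Nat.Prime, (1 : ℝ) / p) atTop atTop := by
  have h1 := not_summable_one_div_on_primes
  rw [not_summable_iff_tendsto_nat_atTop_of_nonneg (fun n => Set.indicator_nonneg (fun _ _ => by positivity) n)] at h1
  have h2 : Tendsto (fun n : ℕ => (∑ i ∈ Finset.range (n+1), Set.indicator {p : ℕ | p.Prime} (fun n : ℕ => (1:ℝ)/n) i)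
      - ∑ i ∈ Finset.range Y, Set.indicator {p : ℕ | p.Prime} (fun n : ℕ => (1:ℝ)/n) i) atTop atTop := by
    apply tendsto_atTop_add_const_right
    exact h1.comp (tendsto_add_atTop_nat 1)
  apply tendsto_atTop_mono _ h2
  intro n
  have h3 : ∑ i ∈ Finset.range (n+1), Set.indicator {p : ℕ | p.Prime} (fun n : ℕ => (1:ℝ)/n) i
      ≤ ∑ i ∈ Finset.range Y ∪ Finset.Icc Y n, Set.indicator {p : ℕ | p.Prime} (fun n : ℕ => (1:ℝ)/n) i := by
    apply Finset.sum_le_sum_of_subset_of_nonneg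
    · intro i hi
      rw [mem_union, mem_range, mem_Icc]
      rw [mem_range] at hi
      omega
    · intro i _ _; exact Set.indicator_nonneg (fun _ _ => by positivity) i
  have h4 : ∑ i ∈ Finset.range Y ∪ Finset.Icc Y n, Set.indicator {p : ℕ | p.Prime} (fun n : ℕ => (1:ℝ)/n) i
      = ∑ i ∈ Finset.range Y, Set.indicator {p : ℕ | p.Prime} (fun n : ℕ => (1:ℝ)/n) i
        + ∑ i ∈ Finset.Icc Y n, Set.indicator {p : ℕ | p.Prime} (fun n : ℕ => (1:ℝ)/n) i := by
    apply Finset.sum_union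
    rw [Finset.disjoint_left]
    intro i hi hi2
    rw [mem_range] at hi
    rw [mem_Icc] at hi2
    omega
  have h5 : ∑ i ∈ Finset.Icc Y n, Set.indicator {p : ℕ | p.Prime} (fun n : ℕ => (1:ℝ)/n) i
      = ∑ p ∈ (Finset.Icc Y n).filter Nat.Prime, (1 : ℝ) / p := by
    rw [Finset.sum_filter]
    apply Finset.sum_congr rfl
    intro i _
    simp [Set.indicator_apply]
  linarith

/-- For large `n` there is a prime `y0 ≥ Y`, `y0 ≤ n`, outside `Q_n`, with all larger primes `≤ n` in `Q_n`. -/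
lemma exists_threshold (c : ℝ) (hc : 0 ≤ c) (Y : ℕ) : ∃ n0 : ℕ, ∀ n : ℕ, n0 ≤ n → ∃ y0 : ℕ, y0.Prime ∧ Y ≤ y0 ∧ y0 ≤ n ∧
    y0 ∉ largestPrimes c n ∧ (∀ p : ℕ, p.Prime → y0 < p → p ≤ n → p ∈ largestPrimes c n) ∧
    (∀ q ∈ largestPrimes c n, y0 < q) := by
  obtain ⟨n0, hn0⟩ := (Filter.tendsto_atTop_atTop.mp (tendsto_sum_primes Y)) (c+1)
  refine ⟨n0, ?_⟩
  intro n hn
  have h1 := hn0 n hn
  set B := (Finset.Icc Y n).filter (fun p => p.Prime ∧ p ∉ largestPrimes c n) with hB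
  have hBne : B.Nonempty := by
    by_contra hcon
    rw [Finset.not_nonempty_iff_eq_empty] at hcon
    -- all primes in [Y,n] are in Q_n
    have hall : ∀ p ∈ (Finset.Icc Y n).filter Nat.Prime, p ∈ largestPrimes c n := by
      intro p hp
      by_contra h
      have : p ∈ B := by
        rw [hB, mem_filter]
        exact ⟨(mem_filter.mp hp).1, (mem_filter.mp hp).2, h⟩
      rw [hcon] at this
      exact absurd this (Finset.notMem_empty p)
    have hne : ((Finset.Icc Y n).filter Nat.Prime).Nonempty := by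
      by_contra h
      rw [Finset.not_nonempty_iff_eq_empty] at h
      rw [h, Finset.sum_empty] at h1
      linarith
    have hm := Finset.min'_mem _ hne
    have h3 := (mem_Q.mp (hall _ hm)).2.2
    have h4 : ∑ p ∈ (Finset.Icc Y n).filter Nat.Prime, (1 : ℝ) / p
        ≤ ∑ p ∈ (Finset.Icc (((Finset.Icc Y n).filter Nat.Prime).min' hne) n).filter Nat.Prime, (1 : ℝ) / p := by
      apply Finset.sum_le_sum_of_subset_of_nonneg
      · intro p hp
        have hp' := mem_filter.mp hp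
        rw [mem_filter, mem_Icc]
        exact ⟨⟨Finset.min'_le _ p hp, (mem_Icc.mp hp'.1).2⟩, hp'.2⟩
      · intro p _ _; positivity
    linarith
  have hm := Finset.max'_mem B hBne
  set y0 := B.max' hBne with hy0
  have hm' := mem_filter.mp hm
  rw [mem_Icc] at hm'
  refine ⟨y0, hm'.2.1, hm'.1.1, hm'.1.2, hm'.2.2, ?_, ?_⟩
  · intro p hp hp1 hp2
    by_contra h
    have : p ∈ B := by
      rw [hB, mem_filter, mem_Icc]
      exact ⟨⟨by omega, hp2⟩, hp, h⟩
    have := Finset.le_max' B p this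
    omega
  · intro q hq
    by_contra h
    push Not at h
    apply hm'.2.2
    rw [mem_Q]
    exact ⟨hm'.2.1, hm'.1.2, (sum_Icc_anti h).trans (mem_Q.mp hq).2.2⟩

/-- **Upper bound for `N_n(Q_n)`.** -/
theorem upper_Q (c : ℝ) (hc : 0 ≤ c) (ε : ℝ) (hε : 0 < ε) :
    ∃ n0 : ℕ, ∀ n : ℕ, n0 ≤ n → Sc (largestPrimes c n) n ≤ (rho (Real.exp c) + ε) * n := by
  obtain ⟨C1, C, hC1, hC, hU⟩ := upper_induction
  obtain ⟨C2, hC2, hM2⟩ := mertens_second_upper
  -- analytic facts as y → ∞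
  have hlog : Tendsto (fun y : ℕ => Real.log y) atTop atTop :=
    Real.tendsto_log_atTop.comp tendsto_natCast_atTop_atTop
  have ht1 : Tendsto (fun y : ℕ => 1 / (y:ℝ)) atTop (𝓝 0) := tendsto_one_div_atTop_nhds_zero_nat
  have ht2 : Tendsto (fun y : ℕ => C2 / Real.log y) atTop (𝓝 0) := hlog.const_div_atTop C2
  have ht3 : Tendsto (fun y : ℕ => 1 / (Real.log y + 1)) atTop (𝓝 0) :=
    (tendsto_atTop_add_const_right atTop 1 hlog).const_div_atTop 1
  have ht4 : Tendsto (fun y : ℕ => Real.exp (c - 1/(y:ℝ) - C2 / Real.log y) * (1 - 1 / (Real.log y + 1)))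
      atTop (𝓝 (Real.exp (c - 0 - 0) * (1 - 0))) := by
    apply Tendsto.mul
    · exact (Real.continuous_exp.tendsto _).comp ((tendsto_const_nhds.sub ht1).sub ht2)
    · exact tendsto_const_nhds.sub ht3
  simp only [sub_zero, mul_one] at ht4
  have hev1 : ∀ᶠ y : ℕ in atTop, Real.exp c - ε/2
      < Real.exp (c - 1/(y:ℝ) - C2 / Real.log y) * (1 - 1 / (Real.log y + 1)) :=
    ht4.eventually (lt_mem_nhds (by linarith))
  have hev2 : ∀ᶠ y : ℕ in atTop, C1 + 2 * C / ε + 1 ≤ Real.log y := hlog.eventually_ge_atTop _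
  obtain ⟨Y, hY⟩ := Filter.eventually_atTop.mp (hev1.and hev2)
  obtain ⟨n0, hn0⟩ := exists_threshold c hc (max Y 2)
  refine ⟨n0, ?_⟩
  intro n hn
  obtain ⟨y0, hy0p, hy0Y, hy0n, hy0Q, hyall, _⟩ := hn0 n hn
  obtain ⟨hf, hlogy⟩ := hY y0 ((le_max_left _ _).trans hy0Y)
  have hy2 : 2 ≤ y0 := hy0p.two_le
  have hy2' : (2:ℝ) ≤ y0 := by exact_mod_cast hy2
  have hy0n' : (y0:ℝ) ≤ n := by exact_mod_cast hy0n
  have hlogy0 : 0 < Real.log y0 := Real.log_pos (by linarith)
  have hlogn : 0 < Real.log n := Real.log_pos (by linarith)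
  -- c < sum
  have hsum : c < ∑ p ∈ (Finset.Icc y0 n).filter Nat.Prime, (1 : ℝ) / p := by
    by_contra h
    push Not at h
    exact hy0Q (mem_Q.mpr ⟨hy0p, hy0n, h⟩)
  have hsum2 : ∑ p ∈ (Finset.Icc y0 n).filter Nat.Prime, (1 : ℝ) / p
      = 1 / (y0:ℝ) + ∑ p ∈ (pr (n:ℝ)).filter (fun p : ℕ => (y0:ℝ) < (p:ℝ)), (1:ℝ) / p := by
    have e : (Finset.Icc y0 n).filter Nat.Prime = insert y0 ((pr (n:ℝ)).filter (fun p : ℕ => (y0:ℝ) < (p:ℝ))) := by
      ext p
      simp only [mem_filter, mem_Icc, mem_insert, mem_pr, Nat.cast_le, Nat.cast_lt]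
      constructor
      · rintro ⟨⟨h1, h2⟩, h3⟩
        rcases h1.eq_or_lt with h | h
        · exact Or.inl h.symm
        · exact Or.inr ⟨⟨h3, h2⟩, h⟩
      · rintro (h | ⟨⟨h1, h2⟩, h3⟩)
        · subst h; exact ⟨⟨le_rfl, hy0n⟩, hy0p⟩
        · exact ⟨⟨h3.le, h2⟩, h1⟩
    rw [e, Finset.sum_insert]
    simp
  have hM := hM2 y0 n hy2' hy0n'
  have h1 : c - 1/(y0:ℝ) - C2 / Real.log y0 < Real.log (Real.log n / Real.log y0) := by linarith
  have h2 : Real.exp (c - 1/(y0:ℝ) - C2 / Real.log y0) < Real.log n / Real.log y0 := by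
    rw [← Real.exp_log (show 0 < Real.log n / Real.log y0 by positivity)]
    exact Real.exp_lt_exp.mpr h1
  set K := ⌈Real.log y0⌉₊ with hK
  have hK1 : Real.log y0 ≤ K := Nat.le_ceil _
  have hK2 : (K:ℝ) < Real.log y0 + 1 := Nat.ceil_lt_add_one hlogy0.le
  have hK0 : (0:ℝ) < K := by linarith
  have hK1' : 1 ≤ K := by
    have : 0 < K := by exact_mod_cast hK0
    omega
  have hQall : ∀ p : ℕ, p.Prime → Real.exp K < p → (p:ℝ) ≤ n → p ∈ largestPrimes c n := by
    intro p hp h3 h4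
    apply hyall p hp _ (by exact_mod_cast h4)
    have h5 : (y0:ℝ) ≤ Real.exp K := by
      rw [← Real.exp_log (show (0:ℝ) < y0 by linarith)]
      exact Real.exp_le_exp.mpr hK1
    have : (y0:ℝ) < p := by linarith
    exact_mod_cast this
  have hD : C ≤ (ε/2) * (K - C1) := by
    have h3 : 2 * C / ε ≤ K - C1 := by linarith
    have h4 := mul_le_mul_of_nonneg_left h3 (show 0 ≤ ε/2 by linarith)
    have h5 : ε/2 * (2 * C / ε) = C := by field_simp
    linarith
  have hres := hU (largestPrimes c n) K n (ε/2) hK1' (by linarith) hQall hD n (by linarith) le_rfl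
  have h3 : Real.exp c - ε/2 ≤ Real.log n / K := by
    have h4 : Real.log n / (Real.log y0 + 1) ≤ Real.log n / K :=
      div_le_div_of_nonneg_left hlogn.le hK0 hK2.le
    have h5 : Real.log n / (Real.log y0 + 1) = (Real.log n / Real.log y0) * (1 - 1 / (Real.log y0 + 1)) := by
      have : Real.log y0 + 1 ≠ 0 := by linarith
      field_simp
      ring
    have h6 : 0 ≤ 1 - 1 / (Real.log y0 + 1) := by
      have : 1 / (Real.log y0 + 1) ≤ 1 := by rw [div_le_one (by linarith)]; linarith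
      linarith
    have h7 := mul_le_mul_of_nonneg_right h2.le h6
    linarith
  have h4 : rho (Real.log n / K) ≤ rho (Real.exp c) + ε/2 := by
    have h5 := rho_anti h3
    have h6 := rho_lip (show Real.exp c - ε/2 ≤ Real.exp c by linarith)
    linarith
  have hn0' : (0:ℝ) ≤ n := Nat.cast_nonneg n
  calc Sc (largestPrimes c n) n ≤ n * (rho (Real.log n / K) + ε/2) := hres
    _ ≤ n * ((rho (Real.exp c) + ε/2) + ε/2) := by
        apply mul_le_mul_of_nonneg_left _ hn0'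
        linarith
    _ = (rho (Real.exp c) + ε) * n := by ring

lemma rho_isDickman : IsDickman rho := by
  refine ⟨rho_cont.continuousOn, fun u hu => rho_of_le_one hu.2, fun u hu => rho_hasDerivAt hu⟩

lemma minUnsieved_spec {c : ℝ} (hc : 0 < c) (n : ℕ) :
    ∃ A : Finset ℕ, Admissible c n A ∧ minUnsieved c n = unsieved n A := by
  have hne : {N : ℕ | ∃ A : Finset ℕ, Admissible c n A ∧ N = unsieved n A}.Nonempty := by
    refine ⟨unsieved n ∅, ∅, ⟨by simp, by simp, by simpa using hc⟩, rfl⟩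
  exact Nat.sInf_mem hne

lemma minUnsieved_le {c : ℝ} {n : ℕ} {A : Finset ℕ} (h : Admissible c n A) :
    minUnsieved c n ≤ unsieved n A := Nat.sInf_le ⟨A, h, rfl⟩

lemma lower_min (c : ℝ) (hc : 0 < c) (ε : ℝ) (hε : 0 < ε) :
    ∃ n0 : ℕ, ∀ n : ℕ, n0 ≤ n → (rho (Real.exp c) - ε) * n ≤ minUnsieved c n := by
  obtain ⟨n0, hn0⟩ := lower_bound c ε hε
  refine ⟨n0, ?_⟩
  intro n hn
  obtain ⟨A, hA, hAe⟩ := minUnsieved_spec hc n
  rw [hAe, unsieved_eq_Sc]
  exact hn0 n hn A (fun a ha => (hA.1 a ha).1) hA.2.1 hA.2.2.le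

lemma lower_Q (c : ℝ) (hc : 0 < c) (ε : ℝ) (hε : 0 < ε) :
    ∃ n0 : ℕ, ∀ n : ℕ, n0 ≤ n → (rho (Real.exp c) - ε) * n ≤ unsieved n (largestPrimes c n) := by
  obtain ⟨n0, hn0⟩ := lower_bound c ε hε
  refine ⟨n0, ?_⟩
  intro n hn
  rw [unsieved_eq_Sc]
  refine hn0 n hn _ (fun a ha => (mem_Q.mp ha).1.two_le) ?_ (sum_Q_le hc.le n)
  intro a ha b hb hab
  exact (Nat.coprime_primes (mem_Q.mp ha).1 (mem_Q.mp hb).1).mpr hab

lemma upper_min (c : ℝ) (hc : 0 < c) (ε : ℝ) (hε : 0 < ε) :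
    ∃ n0 : ℕ, ∀ n : ℕ, n0 ≤ n → (minUnsieved c n : ℝ) ≤ (rho (Real.exp c) + ε) * n := by
  classical
  obtain ⟨n1, hn1⟩ := upper_Q c hc.le (ε/2) (by linarith)
  obtain ⟨Y, hY⟩ := exists_nat_gt (2/ε)
  obtain ⟨n2, hn2⟩ := exists_threshold c hc.le Y
  refine ⟨max n1 n2, ?_⟩
  intro n hn
  have h1 := hn1 n ((le_max_left _ _).trans hn)
  obtain ⟨y0, hy0p, hy0Y, hy0n, hy0Q, hyall, hyQ⟩ := hn2 n ((le_max_right _ _).trans hn)
  have hn0 : (0:ℝ) ≤ n := Nat.cast_nonneg n
  rcases (largestPrimes c n).eq_empty_or_nonempty with h | ⟨q, hq⟩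
  · have hadm : Admissible c n (largestPrimes c n) := by
      rw [h]; exact ⟨by simp, by simp, by simpa using hc⟩
    have h2 := minUnsieved_le hadm
    have h3 : (minUnsieved c n : ℝ) ≤ unsieved n (largestPrimes c n) := by exact_mod_cast h2
    rw [unsieved_eq_Sc] at h3
    nlinarith
  · have hqp := (mem_Q.mp hq).1
    have hq0 : (0:ℝ) < q := by exact_mod_cast hqp.pos
    have hadm : Admissible c n ((largestPrimes c n).erase q) := by
      refine ⟨?_, ?_, ?_⟩
      · intro a ha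
        have := mem_Q.mp (Finset.mem_of_mem_erase ha)
        exact ⟨this.1.one_lt, this.2.1⟩
      · intro a ha b hb hab
        exact (Nat.coprime_primes (mem_Q.mp (Finset.mem_of_mem_erase ha)).1
          (mem_Q.mp (Finset.mem_of_mem_erase hb)).1).mpr hab
      · have h2 := Finset.sum_erase_add _ (fun a : ℕ => (1:ℝ)/a) hq
        have h3 := sum_Q_le hc.le n
        have h4 : 0 < (1:ℝ)/q := by positivity
        linarith
    have h2 := minUnsieved_le hadm
    have h3 : (minUnsieved c n : ℝ) ≤ unsieved n ((largestPrimes c n).erase q) := by exact_mod_cast h2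
    rw [unsieved_eq_Sc] at h3
    have h4 := Sc_union ((largestPrimes c n).erase q) {q} (n:ℝ) hn0 (by
      intro d hd; rw [Finset.mem_singleton] at hd; subst hd; exact hqp.pos)
    have e1 : (largestPrimes c n).erase q ∪ {q} = largestPrimes c n := by
      rw [Finset.union_comm]
      exact Finset.insert_erase hq
    rw [e1] at h4
    have h5 : ∑ d ∈ ({q} : Finset ℕ).filter (fun d : ℕ => (d:ℝ) ≤ n), (n:ℝ) / d ≤ n * (ε / 2) := by
      calc _ ≤ ∑ d ∈ ({q} : Finset ℕ), (n:ℝ) / d := by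
            apply Finset.sum_le_sum_of_subset_of_nonneg (Finset.filter_subset _ _)
            intro d _ _; positivity
        _ = (n:ℝ) / q := by simp
        _ = n * (1 / q) := by ring
        _ ≤ n * (ε/2) := by
            apply mul_le_mul_of_nonneg_left _ hn0
            have h6 : (Y:ℝ) < q := by exact_mod_cast (lt_of_le_of_lt hy0Y (hyQ q hq))
            rw [div_le_iff₀ hq0]
            rw [div_lt_iff₀ hε] at hY
            nlinarith
    linarith

theorem tendsto_of_bounds {f : ℕ → ℝ} {r : ℝ}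
    (hl : ∀ ε : ℝ, 0 < ε → ∃ n0 : ℕ, ∀ n : ℕ, n0 ≤ n → (r - ε) * n ≤ f n)
    (hu : ∀ ε : ℝ, 0 < ε → ∃ n0 : ℕ, ∀ n : ℕ, n0 ≤ n → f n ≤ (r + ε) * n) :
    Tendsto (fun n : ℕ => f n / n) atTop (𝓝 r) := by
  rw [Metric.tendsto_atTop]
  intro ε hε
  obtain ⟨n1, h1⟩ := hl (ε/2) (by linarith)
  obtain ⟨n2, h2⟩ := hu (ε/2) (by linarith)
  refine ⟨max (max n1 n2) 1, ?_⟩
  intro n hn
  have hn1 : n1 ≤ n := ((le_max_left _ _).trans (le_max_left _ _)).trans hn
  have hn2 : n2 ≤ n := ((le_max_right _ _).trans (le_max_left _ _)).trans hn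
  have hn3 : 1 ≤ n := (le_max_right _ _).trans hn
  have hn0 : (0:ℝ) < n := by exact_mod_cast hn3
  rw [Real.dist_eq, abs_lt]
  have h3 : r - ε/2 ≤ f n / n := by rw [le_div_iff₀ hn0]; exact h1 n hn1
  have h4 : f n / n ≤ r + ε/2 := by rw [div_le_iff₀ hn0]; exact h2 n hn2
  constructor <;> linarith

theorem main_theorem (c : ℝ) (hc : 0 < c) :
    Tendsto (fun n : ℕ => (minUnsieved c n : ℝ) / n) atTop (𝓝 (rho (Real.exp c))) ∧
    Tendsto (fun n : ℕ => (unsieved n (largestPrimes c n) : ℝ) / n) atTop (𝓝 (rho (Real.exp c))) ∧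
    Tendsto (fun n : ℕ => (minUnsieved c n : ℝ) / unsieved n (largestPrimes c n)) atTop (𝓝 1) := by
  have h1 := tendsto_of_bounds (f := fun n => (minUnsieved c n : ℝ)) (r := rho (Real.exp c))
    (lower_min c hc) (upper_min c hc)
  have h2 := tendsto_of_bounds (f := fun n => (unsieved n (largestPrimes c n) : ℝ)) (r := rho (Real.exp c))
    (lower_Q c hc) (fun ε hε => by
      obtain ⟨n0, h⟩ := upper_Q c hc.le ε hε
      exact ⟨n0, fun n hn => by rw [unsieved_eq_Sc]; exact h n hn⟩)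
  refine ⟨h1, h2, ?_⟩
  have h3 := h1.div h2 (rho_pos _).ne'
  rw [div_self (rho_pos _).ne'] at h3
  apply h3.congr'
  filter_upwards [eventually_ge_atTop 1] with n hn
  have hn0 : (0:ℝ) < n := by exact_mod_cast hn
  simp only [Pi.div_apply]
  rw [div_div_div_cancel_right₀ hn0.ne']

end Pool.Agent.CoprimeSieve
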