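import Mathlib
import Pool.Agent.CoprimeSieve.Main

set_option autoImplicit false

open Finset Filter Topology

namespace Pool.Agent.CoprimeSieve

/-- Union bound with floors. -/
lemma Tset_union_floor (A D : Finset ℕ) (n : ℕ) :
    (Tset A (n:ℝ)).card ≤ (Tset (A ∪ D) (n:ℝ)).card + ∑ d ∈ D, n / d := by
  classical
  have hsub : Tset A (n:ℝ) ⊆ Tset (A ∪ D) (n:ℝ) ∪
      D.biUnion (fun d => (Finset.Ioc 0 n).filter (fun m => d ∣ m)) := by
    intro m hm
    rw [mem_Tset] at hm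
    rw [mem_union, mem_Tset]
    by_cases h : ∀ a ∈ A ∪ D, ¬ a ∣ m
    · exact Or.inl ⟨hm.1, h⟩
    · right
      push Not at h
      obtain ⟨a, ha, hdvd⟩ := h
      rw [mem_biUnion]
      rcases mem_union.mp ha with h1 | h1
      · exact absurd hdvd (hm.2 a h1)
      · refine ⟨a, h1, ?_⟩
        rw [mem_filter, mem_Ioc]
        exact ⟨⟨by omega, by exact_mod_cast hm.1.2⟩, hdvd⟩
  calc (Tset A (n:ℝ)).card ≤ _ := Finset.card_le_card hsub
    _ ≤ (Tset (A ∪ D) (n:ℝ)).card + (D.biUnion (fun d => (Finset.Ioc 0 n).filter (fun m => d ∣ m))).card :=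
        Finset.card_union_le _ _
    _ ≤ (Tset (A ∪ D) (n:ℝ)).card + ∑ d ∈ D, ((Finset.Ioc 0 n).filter (fun m => d ∣ m)).card := by
        gcongr
        exact Finset.card_biUnion_le
    _ = (Tset (A ∪ D) (n:ℝ)).card + ∑ d ∈ D, n / d := by
        congr 1
        apply Finset.sum_congr rfl
        intro d _
        exact Nat.Ioc_filter_dvd_card_eq_div n d

/-- A number with small prime factors in a short interval. -/
lemma exists_smooth (n F : ℕ) (h : (F + 1) * (F + 2) ≤ n) :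
    ∃ a : ℕ, 2 ≤ a ∧ a * (F + 1) ≤ n ∧ n < a * (F + 2) ∧ ∀ p : ℕ, p.Prime → p ∣ a → p < 2 * (F + 2) := by
  -- the largest `i` with `F + 2 ≤ n / ((F+1) 2^i)`
  have hex : ∃ i : ℕ, F + 2 ≤ n / ((F+1) * 2^i) ∧ n / ((F+1) * 2^i) < 2 * (F + 2) := by
    by_contra hcon
    push Not at hcon
    have hall : ∀ i : ℕ, F + 2 ≤ n / ((F+1) * 2^i) := by
      intro i
      induction i with
      | zero =>
        rw [pow_zero, mul_one, Nat.le_div_iff_mul_le (by omega)]
        nlinarith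
      | succ i ih =>
        have h1 := hcon i ih
        have h2 : n / ((F+1) * 2^(i+1)) = n / ((F+1) * 2^i) / 2 := by
          rw [Nat.div_div_eq_div_mul, pow_succ, mul_assoc]
        rw [h2]
        omega
    have h1 := hall n
    have h2 : n < (F+1) * 2^n := by
      have : n < 2^n := Nat.lt_two_pow_self
      nlinarith [Nat.zero_le (F * 2^n)]
    rw [Nat.div_eq_of_lt h2] at h1
    omega
  obtain ⟨i, hi1, hi2⟩ := hex
  set m := n / ((F+1) * 2^i) with hm
  have hpos : 0 < (F+1) * 2^i := by positivity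
  have h1 : m * ((F+1) * 2^i) ≤ n := Nat.div_mul_le_self n _
  have h2 : n < (m + 1) * ((F+1) * 2^i) := by
    have := Nat.lt_div_mul_add (a := n) hpos
    rw [← hm] at this
    nlinarith
  refine ⟨2^i * m, ?_, ?_, ?_, ?_⟩
  · have : 1 ≤ 2^i := Nat.one_le_two_pow
    nlinarith
  · calc 2^i * m * (F+1) = m * ((F+1) * 2^i) := by ring
      _ ≤ n := h1
  · calc n < (m + 1) * ((F+1) * 2^i) := h2
      _ = 2^i * ((m+1) * (F+1)) := by ring
      _ ≤ 2^i * (m * (F+2)) := by
          apply Nat.mul_le_mul_left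
          nlinarith
      _ = 2^i * m * (F+2) := by ring
  · intro p hp hpd
    rcases (Nat.Prime.dvd_mul hp).mp hpd with h3 | h3
    · have h4 := hp.dvd_of_dvd_pow h3
      have h5 := Nat.le_of_dvd (by norm_num) h4
      omega
    · have h4 := Nat.le_of_dvd (by omega) h3
      omega

/-- The exchange step. -/
lemma exchange (c : ℝ) (hc : 0 ≤ c) (n y0 : ℕ) (T : Finset ℕ)
    (hT : T ⊆ largestPrimes c n) (hyQ : ∀ q ∈ largestPrimes c n, y0 < q)
    (F : ℕ) (hF : F = ∑ q ∈ T, n / q) (hFy : 2 * (F + 2) ≤ y0)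
    (hFn : (F + 1) * (F + 2) ≤ n)
    (hsum : ((F:ℝ) + 2) / n ≤ ∑ q ∈ T, (1:ℝ) / q) :
    minUnsieved c n < unsieved n (largestPrimes c n) := by
  classical
  obtain ⟨a, ha2, ha3, ha4, ha5⟩ := exists_smooth n F hFn
  set Q := largestPrimes c n with hQ
  have hn0 : 0 < n := by
    have : 0 < (F+1)*(F+2) := by positivity
    omega
  have ha0 : (0:ℝ) < a := by exact_mod_cast (by omega : 0 < a)
  have hn0' : (0:ℝ) < n := by exact_mod_cast hn0
  -- coprimality
  have hcopa : ∀ q ∈ Q, Nat.Coprime q a := by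
    intro q hq
    have hqp := (mem_Q.mp hq).1
    rw [hqp.coprime_iff_not_dvd]
    intro hdvd
    have h1 := ha5 q hqp hdvd
    have h2 := hyQ q hq
    omega
  have haQ : a ∉ Q := by
    intro h
    have h1 := hcopa a h
    rw [Nat.coprime_self] at h1
    omega
  have haQT : a ∉ Q \ T := fun h => haQ (mem_sdiff.mp h).1
  have hadm : Admissible c n (insert a (Q \ T)) := by
    refine ⟨?_, ?_, ?_⟩
    · intro b hb
      rcases mem_insert.mp hb with h | h
      · subst h
        refine ⟨by omega, ?_⟩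
        nlinarith
      · have h1 := mem_Q.mp (mem_sdiff.mp h).1
        exact ⟨h1.1.one_lt, h1.2.1⟩
    · intro b hb d hd hbd
      rcases mem_insert.mp hb with h | h <;> rcases mem_insert.mp hd with h' | h'
      · exact absurd (h.trans h'.symm) hbd
      · rw [h]; exact (hcopa d (mem_sdiff.mp h').1).symm
      · rw [h']; exact hcopa b (mem_sdiff.mp h).1
      · exact (Nat.coprime_primes (mem_Q.mp (mem_sdiff.mp h).1).1
          (mem_Q.mp (mem_sdiff.mp h').1).1).mpr hbd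
    · rw [Finset.sum_insert haQT]
      have h1 := Finset.sum_sdiff hT (f := fun q : ℕ => (1:ℝ)/q)
      have h2 := sum_Q_le hc n
      rw [← hQ] at h2
      have h3 : (1:ℝ) / a < ((F:ℝ) + 2) / n := by
        rw [div_lt_div_iff₀ ha0 hn0']
        have : (n:ℝ) < a * (F + 2) := by exact_mod_cast ha4
        linarith
      linarith
  have h1 := minUnsieved_le hadm
  -- count
  have h2 : Sc (insert a (Q \ T)) n = Sc (Q \ T) n - Sc (Q \ T) (n / a) :=
    Sc_insert (by omega) (fun q hq => hcopa q (mem_sdiff.mp hq).1) n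
  have h3 : ((F:ℝ) + 1) ≤ Sc (Q \ T) ((n:ℝ) / a) := by
    have hsub : Finset.Icc 1 (F+1) ⊆ Tset (Q \ T) ((n:ℝ)/a) := by
      intro k hk
      rw [mem_Icc] at hk
      rw [mem_Tset]
      refine ⟨⟨hk.1, ?_⟩, ?_⟩
      · rw [le_div_iff₀ ha0]
        have h4 : k * a ≤ n := by nlinarith
        exact_mod_cast h4
      · intro q hq hdvd
        have h4 := Nat.le_of_dvd (by omega) hdvd
        have h5 := hyQ q (mem_sdiff.mp hq).1
        omega
    have h4 := Finset.card_le_card hsub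
    rw [Nat.card_Icc] at h4
    unfold Sc
    have : ((F + 1 : ℕ) : ℝ) ≤ ((Tset (Q \ T) ((n:ℝ)/a)).card : ℝ) := by exact_mod_cast (by omega : F + 1 ≤ _)
    push_cast at this
    exact this
  have h4 : Sc (Q \ T) n ≤ Sc Q n + F := by
    have h5 := Tset_union_floor (Q \ T) T n
    rw [Finset.sdiff_union_of_subset hT, ← hF] at h5
    unfold Sc
    exact_mod_cast h5
  have h5 : (unsieved n (insert a (Q \ T)) : ℝ) + 1 ≤ unsieved n Q := by
    rw [unsieved_eq_Sc, unsieved_eq_Sc, h2]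
    linarith
  have h6 : unsieved n (insert a (Q \ T)) + 1 ≤ unsieved n Q := by exact_mod_cast h5
  omega

/-- `∑_{x^{1/2^j} < p ≤ x} 1/p ≥ j/4` for large `x`. -/
lemma sum_inv_primes_lower (j : ℕ) : ∃ x0 : ℝ, 1 ≤ x0 ∧ ∀ x : ℝ, x0 ≤ x →
    (j:ℝ) / 4 ≤ ∑ p ∈ (pr x).filter (fun p : ℕ => x ^ ((1:ℝ) / 2^j) < (p:ℝ)), (1:ℝ) / p := by
  obtain ⟨C, hC, hM⟩ := mertens_first
  induction j with
  | zero =>
    refine ⟨1, le_rfl, ?_⟩
    intro x _
    simp only [Nat.cast_zero, zero_div]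
    exact Finset.sum_nonneg (fun p _ => by positivity)
  | succ j ih =>
    obtain ⟨x0, hx0, h⟩ := ih
    refine ⟨max (x0^2) (Real.exp (8 * C + 1)), ?_, ?_⟩
    · refine le_trans ?_ (le_max_left _ _)
      nlinarith
    · intro x hx
      have hx1 : x0^2 ≤ x := (le_max_left _ _).trans hx
      have hx2 : Real.exp (8 * C + 1) ≤ x := (le_max_right _ _).trans hx
      have hxpos : 0 < x := lt_of_lt_of_le (Real.exp_pos _) hx2
      have hlogx : 8 * C + 1 ≤ Real.log x := by
        rw [← Real.log_exp (8 * C + 1)]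
        exact Real.log_le_log (Real.exp_pos _) hx2
      have hlogx0 : 0 < Real.log x := by linarith
      have hx1' : 1 ≤ x := by
        have : (1:ℝ) ≤ x0^2 := by nlinarith
        linarith
      set s := Real.sqrt x with hs
      have hsx0 : x0 ≤ s := by
        rw [hs]
        exact Real.le_sqrt_of_sq_le hx1
      have hs1 : 1 ≤ s := by linarith
      have hss : s ≤ x := by
        have h2 : s * s = x := Real.mul_self_sqrt hxpos.le
        nlinarith
      have hlogs : Real.log s = Real.log x / 2 := Real.log_sqrt hxpos.le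
      have hpow : x ^ ((1:ℝ) / 2^(j+1)) = s ^ ((1:ℝ) / 2^j) := by
        rw [hs, Real.sqrt_eq_rpow, ← Real.rpow_mul hxpos.le]
        congr 1
        rw [pow_succ]
        field_simp
      have hple : s ^ ((1:ℝ) / 2^j) ≤ s := by
        calc s ^ ((1:ℝ) / 2^j) ≤ s ^ (1:ℝ) := by
              apply Real.rpow_le_rpow_of_exponent_le hs1
              rw [div_le_one (by positivity)]
              exact one_le_pow₀ (by norm_num)
          _ = s := Real.rpow_one s
      have h1 := h s hsx0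
      have e : (pr x).filter (fun p : ℕ => x ^ ((1:ℝ) / 2^(j+1)) < (p:ℝ))
          = (pr x).filter (fun p : ℕ => s < (p:ℝ)) ∪ (pr s).filter (fun p : ℕ => s ^ ((1:ℝ) / 2^j) < (p:ℝ)) := by
        rw [hpow]
        ext p
        simp only [mem_filter, mem_union, mem_pr]
        constructor
        · rintro ⟨⟨h2, h3⟩, h4⟩
          rcases le_or_gt (p:ℝ) s with h5 | h5
          · exact Or.inr ⟨⟨h2, h5⟩, h4⟩
          · exact Or.inl ⟨⟨h2, h3⟩, h5⟩
        · rintro (⟨⟨h2, h3⟩, h4⟩ | ⟨⟨h2, h3⟩, h4⟩)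
          · exact ⟨⟨h2, h3⟩, lt_of_le_of_lt hple h4⟩
          · exact ⟨⟨h2, h3.trans hss⟩, h4⟩
      rw [e, Finset.sum_union]
      · have h2 : (1:ℝ)/4 ≤ ∑ p ∈ (pr x).filter (fun p : ℕ => s < (p:ℝ)), (1:ℝ) / p := by
          have h3 : ∑ p ∈ (pr x).filter (fun p : ℕ => s < (p:ℝ)), Real.log p / p = mE x - mE s := by
            have h4 := Finset.sum_filter_add_sum_filter_not (pr x) (fun p : ℕ => s < (p:ℝ))
              (fun p => Real.log p / (p:ℝ))
            have h5 : (pr x).filter (fun p : ℕ => ¬ s < (p:ℝ)) = pr s := by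
              ext p
              simp only [mem_filter, mem_pr, not_lt]
              constructor
              · rintro ⟨⟨h2, _⟩, h4⟩; exact ⟨h2, h4⟩
              · rintro ⟨h2, h4⟩; exact ⟨⟨h2, h4.trans hss⟩, h4⟩
            rw [h5] at h4
            unfold mE
            linarith
          have h4 : ∑ p ∈ (pr x).filter (fun p : ℕ => s < (p:ℝ)), Real.log p / p
              ≤ Real.log x * ∑ p ∈ (pr x).filter (fun p : ℕ => s < (p:ℝ)), (1:ℝ) / p := by
            rw [Finset.mul_sum]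
            apply Finset.sum_le_sum
            intro p hp
            have hp' := mem_pr.mp (mem_filter.mp hp).1
            have hp0 : (0:ℝ) < p := by exact_mod_cast hp'.1.pos
            have := Real.log_le_log hp0 hp'.2
            rw [div_eq_mul_one_div]
            exact mul_le_mul_of_nonneg_right this (by positivity)
          have m1 := (abs_le.mp (hM x hx1')).1
          have m2 := (abs_le.mp (hM s hs1)).2
          have h5 : Real.log x * (1/4) ≤ Real.log x * ∑ p ∈ (pr x).filter (fun p : ℕ => s < (p:ℝ)), (1:ℝ) / p := by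
            linarith
          exact le_of_mul_le_mul_left h5 hlogx0
        push_cast
        linarith
      · rw [Finset.disjoint_left]
        intro p hp hp2
        rw [mem_filter, mem_pr] at *
        linarith [hp.2, hp2.1.2]

lemma ev_linear_log (a b δ : ℝ) (hδ : 0 < δ) : ∀ᶠ n : ℕ in atTop, a * Real.log n + b ≤ (n:ℝ) ^ δ := by
  have h1 : Tendsto (fun x : ℝ => x ^ δ) atTop atTop := tendsto_rpow_atTop hδ
  have h2 : ∀ᶠ x : ℝ in atTop, |a| * |Real.log x| ≤ x ^ δ / 2 := by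
    have h3 := (isLittleO_log_rpow_atTop hδ).bound (show (0:ℝ) < 1 / (2 * (|a| + 1)) by positivity)
    filter_upwards [h3, eventually_ge_atTop (0:ℝ)] with x hx hx0
    rw [Real.norm_eq_abs, Real.norm_eq_abs, abs_of_nonneg (Real.rpow_nonneg hx0 δ)] at hx
    have h4 : |a| * |Real.log x| ≤ |a| * (1 / (2 * (|a| + 1)) * x ^ δ) :=
      mul_le_mul_of_nonneg_left hx (abs_nonneg a)
    have h5 : |a| * (1 / (2 * (|a| + 1)) * x ^ δ) = (|a| / (|a| + 1)) * (x ^ δ / 2) := by
      field_simp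
    have h6 : |a| / (|a| + 1) ≤ 1 := by
      rw [div_le_one (by positivity)]; linarith
    have h7 : 0 ≤ x ^ δ / 2 := by
      have := Real.rpow_nonneg hx0 δ
      positivity
    have h8 := mul_le_mul_of_nonneg_right h6 h7
    linarith
  have h3 : ∀ᶠ x : ℝ in atTop, b ≤ x ^ δ / 2 := by
    have := h1.eventually_ge_atTop (2 * b)
    filter_upwards [this] with x hx
    linarith
  have h4 : ∀ᶠ x : ℝ in atTop, a * Real.log x + b ≤ x ^ δ := by
    filter_upwards [h2, h3] with x hx hx'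
    have h5 : a * Real.log x ≤ |a| * |Real.log x| := by
      rw [← abs_mul]; exact le_abs_self _
    linarith
  exact tendsto_natCast_atTop_atTop.eventually h4

/-- Few integers `q` in `(n/X, n]` have `{n/q} < η`. -/
lemma count_small_frac (n X : ℕ) (hX : 1 ≤ X) (η : ℝ) (hη : 0 < η) :
    ((((Finset.Icc 1 n).filter (fun q : ℕ => (n:ℝ) / X < q ∧ (n:ℝ) / q - ((n / q : ℕ) : ℝ) < η)).card : ℕ) : ℝ)
      ≤ X * (n * η + 1) := by
  classical
  have hsub : (Finset.Icc 1 n).filter (fun q : ℕ => (n:ℝ) / X < q ∧ (n:ℝ) / q - ((n / q : ℕ) : ℝ) < η)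
      ⊆ (Finset.Icc 1 X).biUnion (fun j => Finset.Ioc ⌊(n:ℝ) / (j + η)⌋₊ ⌊(n:ℝ) / j⌋₊) := by
    intro q hq
    rw [mem_filter, mem_Icc] at hq
    obtain ⟨⟨hq1, hqn⟩, hqX, hfr⟩ := hq
    have hq0 : (0:ℝ) < q := by exact_mod_cast hq1
    have hX0 : (0:ℝ) < X := by exact_mod_cast hX
    have hn0 : (0:ℝ) < n := by exact_mod_cast (by omega : 0 < n)
    have hj1 : 1 ≤ n / q := by
      rw [Nat.one_le_div_iff hq1]; exact hqn
    have hjX : n / q ≤ X := by
      have h1 : ((n / q : ℕ) : ℝ) ≤ (n:ℝ) / q := Nat.cast_div_le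
      have h2 : (n:ℝ) / q ≤ X := by
        rw [div_lt_iff₀ hX0] at hqX
        rw [div_le_iff₀ hq0]
        linarith
      have h3 : ((n / q : ℕ) : ℝ) ≤ X := h1.trans h2
      exact_mod_cast h3
    rw [mem_biUnion]
    refine ⟨n / q, mem_Icc.mpr ⟨hj1, hjX⟩, ?_⟩
    have hj0 : (0:ℝ) < ((n / q : ℕ) : ℝ) := by exact_mod_cast hj1
    rw [mem_Ioc]
    constructor
    · rw [Nat.floor_lt (by positivity), div_lt_iff₀ (by positivity)]
      have h1 : (n:ℝ) / q < ((n / q : ℕ) : ℝ) + η := by linarith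
      rw [div_lt_iff₀ hq0] at h1
      linarith
    · rw [Nat.le_floor_iff (by positivity), le_div_iff₀ hj0]
      have : q * (n / q) ≤ n := Nat.mul_div_le n q
      exact_mod_cast this
  have h1 := Finset.card_le_card hsub
  have h2 := h1.trans Finset.card_biUnion_le
  have h3 : ((∑ j ∈ Finset.Icc 1 X, (Finset.Ioc ⌊(n:ℝ) / (j + η)⌋₊ ⌊(n:ℝ) / j⌋₊).card : ℕ) : ℝ)
      ≤ ∑ j ∈ Finset.Icc 1 X, ((n:ℝ) * η + 1) := by
    push_cast
    apply Finset.sum_le_sum
    intro j hj
    rw [mem_Icc] at hj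
    have hj1 : (1:ℝ) ≤ j := by exact_mod_cast hj.1
    rw [Nat.card_Ioc]
    have hle : ⌊(n:ℝ) / (j + η)⌋₊ ≤ ⌊(n:ℝ) / j⌋₊ := by
      apply Nat.floor_le_floor
      apply div_le_div_of_nonneg_left (Nat.cast_nonneg n) (by linarith) (by linarith)
    rw [Nat.cast_sub hle]
    have h4 : (⌊(n:ℝ) / j⌋₊ : ℝ) ≤ (n:ℝ) / j := Nat.floor_le (by positivity)
    have h5 := (Nat.lt_floor_add_one ((n:ℝ) / (j + η))).le
    have h6 : (n:ℝ) / j - (n:ℝ) / (j + η) ≤ n * η := by
      rw [div_sub_div _ _ (by linarith) (by linarith), div_le_iff₀ (by positivity)]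
      have h7 : (n:ℝ) * (j + η) - j * n = n * η := by ring
      rw [h7]
      have h8 : (1:ℝ) ≤ j * (j + η) := by nlinarith
      have h9 : 0 ≤ (n:ℝ) * η := by positivity
      nlinarith
    linarith
  have h4 : (((Finset.Icc 1 n).filter (fun q : ℕ => (n:ℝ) / X < q ∧ (n:ℝ) / q - ((n / q : ℕ) : ℝ) < η)).card : ℝ)
      ≤ ((∑ j ∈ Finset.Icc 1 X, (Finset.Ioc ⌊(n:ℝ) / (j + η)⌋₊ ⌊(n:ℝ) / j⌋₊).card : ℕ) : ℝ) := by
    exact_mod_cast h2
  refine (h4.trans h3).trans ?_
  rw [Finset.sum_const, Nat.card_Icc, nsmul_eq_mul]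
  simp

/-- **The exact form fails for every `c > 0` and all large `n`.** -/
theorem strong_false (c : ℝ) (hc : 0 < c) :
    ∀ᶠ n : ℕ in atTop, minUnsieved c n < unsieved n (largestPrimes c n) := by
  classical
  obtain ⟨C, hC, hM⟩ := mertens_first
  obtain ⟨X, hX⟩ := exists_nat_gt (Real.exp (2 * C + 1))
  have hX0 : (0:ℝ) < X := lt_trans (Real.exp_pos _) hX
  have hX1 : 1 ≤ X := by
    have : 0 < X := by exact_mod_cast hX0
    omega
  have hX1' : (1:ℝ) ≤ X := by exact_mod_cast hX1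
  have hlogX : 2 * C + 1 ≤ Real.log X := by
    rw [← Real.log_exp (2 * C + 1)]
    exact Real.log_le_log (Real.exp_pos _) hX.le
  obtain ⟨j, hj⟩ := exists_nat_gt (4 * c)
  obtain ⟨x0, hx0, hsl⟩ := sum_inv_primes_lower j
  set δ : ℝ := (1:ℝ) / 2 ^ j with hδ
  have hδ0 : 0 < δ := by positivity
  obtain ⟨n0, hn0⟩ := exists_threshold c hc.le 2
  have hlogt : Tendsto (fun n : ℕ => Real.log n) atTop atTop :=
    Real.tendsto_log_atTop.comp tendsto_natCast_atTop_atTop
  have ev1 := ev_linear_log (2 * (X * (8 * X^2))) (2 * (X + 3)) δ hδ0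
  have ev2 := ev_linear_log (X * (8 * X^2)) (X + 3) (1/2) (by norm_num)
  have ev3 := ev_linear_log (8 * X^2) (X + 2) (1/2) (by norm_num)
  have ev4 := ev_linear_log (2 * X) 0 (1/2) (by norm_num)
  have ev5 := hlogt.eventually_ge_atTop (Real.log X + (Real.log X + 2 * C) / c + 1)
  have ev6 := tendsto_natCast_atTop_atTop.eventually_ge_atTop x0
  filter_upwards [ev1, ev2, ev3, ev4, ev5, ev6, eventually_ge_atTop n0, eventually_ge_atTop 2] with n
    e1 e2 e3 e4 e5 e6 e7 e8
  set L := Real.log n with hL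
  have hlogX0 : 0 ≤ Real.log X := Real.log_nonneg hX1'
  have hL1 : 1 ≤ L := by
    have : 0 ≤ (Real.log X + 2 * C) / c := by positivity
    linarith
  have hn2 : (2:ℝ) ≤ n := by exact_mod_cast e8
  have hnpos : (0:ℝ) < n := by linarith
  have hsqrt : (n:ℝ) ^ ((1:ℝ)/2) * (n:ℝ) ^ ((1:ℝ)/2) = n := by
    rw [← Real.rpow_add hnpos]; norm_num
  have hXn : (X:ℝ) ≤ n := by
    have h1 : Real.log X ≤ Real.log n := by
      have : 0 ≤ (Real.log X + 2 * C) / c := by positivity
      linarith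
    exact (Real.log_le_log_iff hX0 hnpos).mp h1
  have hnX1 : 1 ≤ (n:ℝ) / X := by rw [le_div_iff₀ hX0]; linarith
  obtain ⟨y0, hy0p, hy02, hy0n, hy0Q, hyall, hyQ⟩ := hn0 n e7
  -- y0 is at least n^δ
  have hy0δ : (n:ℝ) ^ δ ≤ y0 := by
    by_contra hcon
    push Not at hcon
    have h1 := hsl n e6
    have h2 : ∑ p ∈ (pr (n:ℝ)).filter (fun p : ℕ => (n:ℝ) ^ δ < (p:ℝ)), (1:ℝ) / p ≤ c := by
      refine le_trans ?_ (sum_Q_le hc.le n)
      apply Finset.sum_le_sum_of_subset_of_nonneg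
      · intro p hp
        rw [mem_filter, mem_pr] at hp
        apply hyall p hp.1.1 _ (by exact_mod_cast hp.1.2)
        have : (y0:ℝ) < p := lt_trans hcon hp.2
        exact_mod_cast this
      · intro p _ _; positivity
    linarith
  -- primes in (n/X, n]
  set R := (pr (n:ℝ)).filter (fun p : ℕ => (n:ℝ) / X < (p:ℝ)) with hR
  have hRsum : ∑ p ∈ R, Real.log p / p = mE n - mE ((n:ℝ) / X) := by
    have h4 := Finset.sum_filter_add_sum_filter_not (pr (n:ℝ)) (fun p : ℕ => (n:ℝ) / X < (p:ℝ))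
      (fun p => Real.log p / (p:ℝ))
    have h5 : (pr (n:ℝ)).filter (fun p : ℕ => ¬ (n:ℝ) / X < (p:ℝ)) = pr ((n:ℝ) / X) := by
      ext p
      simp only [mem_filter, mem_pr, not_lt]
      constructor
      · rintro ⟨⟨h2, _⟩, h4⟩; exact ⟨h2, h4⟩
      · rintro ⟨h2, h4⟩; exact ⟨⟨h2, h4.trans (div_le_self hnpos.le hX1')⟩, h4⟩
    rw [h5] at h4
    unfold mE
    linarith
  have m1 := abs_le.mp (hM n (by linarith))
  have m2 := abs_le.mp (hM ((n:ℝ)/X) hnX1)
  rw [Real.log_div hnpos.ne' hX0.ne'] at m2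
  have hRlow : 1 ≤ ∑ p ∈ R, Real.log p / (p:ℝ) := by rw [hRsum]; linarith
  have hRup : ∑ p ∈ R, Real.log p / (p:ℝ) ≤ Real.log X + 2 * C := by rw [hRsum]; linarith
  -- all primes of R are in Q
  have hRQ : ∀ q ∈ R, q ∈ largestPrimes c n := by
    intro q hq
    have hq1 := mem_filter.mp hq
    have hq2 := mem_pr.mp hq1.1
    rw [mem_Q]
    refine ⟨hq2.1, by exact_mod_cast hq2.2, ?_⟩
    have h1 : ∑ p ∈ (Finset.Icc q n).filter Nat.Prime, (1 : ℝ) / p ≤ ∑ p ∈ R, (1:ℝ) / p := by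
      apply Finset.sum_le_sum_of_subset_of_nonneg
      · intro p hp
        rw [mem_filter, mem_Icc] at hp
        rw [hR, mem_filter, mem_pr]
        refine ⟨⟨hp.2, by exact_mod_cast hp.1.2⟩, ?_⟩
        have : (q:ℝ) ≤ p := by exact_mod_cast hp.1.1
        linarith [hq1.2]
      · intro p _ _; positivity
    have h2 : (L - Real.log X) * ∑ p ∈ R, (1:ℝ) / p ≤ ∑ p ∈ R, Real.log p / (p:ℝ) := by
      rw [Finset.mul_sum]
      apply Finset.sum_le_sum
      intro p hp
      have hp1 := mem_filter.mp hp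
      have h3 : L - Real.log X ≤ Real.log p := by
        rw [hL, ← Real.log_div hnpos.ne' hX0.ne']
        exact Real.log_le_log (by positivity) hp1.2.le
      rw [div_eq_mul_one_div (Real.log (p:ℝ))]
      exact mul_le_mul_of_nonneg_right h3 (by positivity)
    have h3 : (Real.log X + 2 * C) / c ≤ L - Real.log X := by linarith
    have h4 : Real.log X + 2 * C ≤ (L - Real.log X) * c := by
      rw [div_le_iff₀ hc] at h3; exact h3
    have h5 : 0 < L - Real.log X := by
      have : 0 ≤ (Real.log X + 2 * C) / c := by positivity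
      linarith
    have h6 : (L - Real.log X) * ∑ p ∈ R, (1:ℝ) / p ≤ (L - Real.log X) * c := by linarith
    exact h1.trans (le_of_mul_le_mul_left h6 h5)
  -- size of R
  have hRcard : (n:ℝ) / (X * L) ≤ (R.card : ℝ) := by
    have h1 : ∑ p ∈ R, Real.log p / (p:ℝ) ≤ ∑ p ∈ R, (X * L / n) := by
      apply Finset.sum_le_sum
      intro p hp
      have hp1 := mem_filter.mp hp
      have hp2 := mem_pr.mp hp1.1
      have hp0 : (0:ℝ) < p := by exact_mod_cast hp2.1.pos
      have h2 : Real.log p ≤ L := Real.log_le_log hp0 hp2.2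
      have h3 := hp1.2
      rw [div_lt_iff₀ hX0] at h3
      rw [div_le_div_iff₀ hp0 hnpos]
      have h4 : 0 ≤ Real.log p := Real.log_natCast_nonneg p
      calc Real.log p * n ≤ L * n := mul_le_mul_of_nonneg_right h2 hnpos.le
        _ ≤ L * (p * X) := mul_le_mul_of_nonneg_left h3.le (by linarith)
        _ = X * L * p := by ring
    rw [Finset.sum_const, nsmul_eq_mul] at h1
    rw [div_le_iff₀ (by positivity)]
    have h2 : 1 ≤ (R.card:ℝ) * (X * L / n) := hRlow.trans h1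
    have h3 : (R.card:ℝ) * (X * L / n) = (R.card * (X * L)) / n := by ring
    rw [h3, le_div_iff₀ hnpos] at h2
    linarith
  -- choose η
  set η : ℝ := 1 / (4 * X^2 * L) with hη
  have hη0 : 0 < η := by positivity
  set T0 := R.filter (fun q : ℕ => η ≤ (n:ℝ) / q - ((n / q : ℕ) : ℝ)) with hT0
  have hbad := count_small_frac n X hX1 η hη0
  have hT0card : (n:ℝ) / (X * L) - X * (n * η + 1) ≤ (T0.card : ℝ) := by
    have h1 := Finset.card_filter_add_card_filter_not (s := R) (fun q : ℕ => η ≤ (n:ℝ) / q - ((n / q : ℕ) : ℝ))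
    have h2 : (R.filter (fun q : ℕ => ¬ η ≤ (n:ℝ) / q - ((n / q : ℕ) : ℝ))).card
        ≤ ((Finset.Icc 1 n).filter (fun q : ℕ => (n:ℝ) / X < q ∧ (n:ℝ) / q - ((n / q : ℕ) : ℝ) < η)).card := by
      apply Finset.card_le_card
      intro q hq
      have hq1 := mem_filter.mp hq
      have hq2 := mem_filter.mp hq1.1
      have hq3 := mem_pr.mp hq2.1
      rw [mem_filter, mem_Icc]
      refine ⟨⟨hq3.1.one_lt.le, by exact_mod_cast hq3.2⟩, hq2.2, ?_⟩
      have := hq1.2
      push Not at this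
      exact this
    have h3 : (R.card : ℝ) = T0.card + ((R.filter (fun q : ℕ => ¬ η ≤ (n:ℝ) / q - ((n / q : ℕ) : ℝ))).card : ℝ) := by
      exact_mod_cast h1.symm
    have h4 : ((R.filter (fun q : ℕ => ¬ η ≤ (n:ℝ) / q - ((n / q : ℕ) : ℝ))).card : ℝ) ≤ X * (n * η + 1) := by
      refine le_trans ?_ hbad
      exact_mod_cast h2
    linarith
  set K := ⌈8 * (X:ℝ)^2 * L⌉₊ with hK
  have hK1 : 8 * (X:ℝ)^2 * L ≤ K := Nat.le_ceil _
  have hK2 : (K:ℝ) < 8 * (X:ℝ)^2 * L + 1 := Nat.ceil_lt_add_one (by positivity)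
  have hKT0 : K ≤ T0.card := by
    have h1 : X * (n * η) = n / (4 * X * L) := by
      rw [hη]; field_simp
    have h2 : (n:ℝ) / (X * L) - n / (4 * X * L) - X ≤ T0.card := by
      have : X * (n * η + 1) = n / (4 * X * L) + X := by rw [mul_add, h1, mul_one]
      linarith
    have h3 : (n:ℝ) / (2 * X * L) ≤ (n:ℝ) / (X * L) - n / (4 * X * L) := by
      have h4 : (n:ℝ) / (X * L) - n / (4 * X * L) - (n:ℝ) / (2 * X * L) = n / (4 * X * L) := by
        field_simp; ring
      have h5 : 0 ≤ (n:ℝ) / (4 * X * L) := by positivity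
      linarith
    have h4 : 8 * (X:ℝ)^2 * L + 1 + X ≤ n / (2 * X * L) := by
      rw [le_div_iff₀ (by positivity)]
      have h5 : 8 * (X:ℝ)^2 * L + 1 + X ≤ (n:ℝ) ^ ((1:ℝ)/2) := by linarith
      have h6 : 2 * X * L ≤ (n:ℝ) ^ ((1:ℝ)/2) := by linarith
      calc _ ≤ (n:ℝ) ^ ((1:ℝ)/2) * (n:ℝ) ^ ((1:ℝ)/2) :=
            mul_le_mul h5 h6 (by positivity) (Real.rpow_nonneg hnpos.le _)
        _ = n := hsqrt
    have h5 : (K:ℝ) ≤ T0.card := by linarith
    exact_mod_cast h5
  obtain ⟨T, hTT0, hTcard⟩ := Finset.exists_subset_card_eq hKT0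
  set F := ∑ q ∈ T, n / q with hF
  have hTR : ∀ q ∈ T, q ∈ R := fun q hq => (mem_filter.mp (hTT0 hq)).1
  have hFle : (F:ℝ) ≤ X * K := by
    rw [hF, ← hTcard]
    push_cast
    calc ∑ q ∈ T, ((n / q : ℕ) : ℝ) ≤ ∑ q ∈ T, (X:ℝ) := by
          apply Finset.sum_le_sum
          intro q hq
          have hq1 := mem_filter.mp (hTR q hq)
          have hq2 := mem_pr.mp hq1.1
          have hq0 : (0:ℝ) < q := by exact_mod_cast hq2.1.pos
          have h1 : ((n / q : ℕ) : ℝ) ≤ (n:ℝ) / q := Nat.cast_div_le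
          have h2 := hq1.2
          rw [div_lt_iff₀ hX0] at h2
          refine h1.trans ?_
          rw [div_le_iff₀ hq0]
          linarith
      _ = X * T.card := by rw [Finset.sum_const, nsmul_eq_mul, mul_comm]
  have hFsmall : (F:ℝ) + 2 ≤ X * (8 * X^2) * L + (X + 3) := by
    have h1 : (X:ℝ) * K ≤ X * (8 * (X:ℝ)^2 * L + 1) := mul_le_mul_of_nonneg_left hK2.le hX0.le
    nlinarith
  apply exchange c hc.le n y0 T (fun q hq => hRQ q (hTR q hq)) hyQ F hF
  · -- 2 (F+2) ≤ y0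
    have h1 : 2 * ((F:ℝ) + 2) ≤ y0 := by
      calc 2 * ((F:ℝ) + 2) ≤ 2 * (X * (8 * X^2)) * L + 2 * (X + 3) := by linarith
        _ ≤ (n:ℝ) ^ δ := e1
        _ ≤ y0 := hy0δ
    exact_mod_cast h1
  · -- (F+1)(F+2) ≤ n
    have h1 : (F:ℝ) + 2 ≤ (n:ℝ) ^ ((1:ℝ)/2) := hFsmall.trans e2
    have h2 : ((F:ℝ) + 1) * (F + 2) ≤ n := by
      calc ((F:ℝ) + 1) * (F + 2) ≤ (n:ℝ) ^ ((1:ℝ)/2) * (n:ℝ) ^ ((1:ℝ)/2) :=
            mul_le_mul (by linarith) h1 (by positivity) (Real.rpow_nonneg hnpos.le _)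
        _ = n := hsqrt
    exact_mod_cast h2
  · -- the reciprocal sum
    rw [div_le_iff₀ hnpos, Finset.sum_mul]
    have h1 : ∑ q ∈ T, (((n / q : ℕ) : ℝ) + η) ≤ ∑ q ∈ T, (1:ℝ) / q * n := by
      apply Finset.sum_le_sum
      intro q hq
      have h2 := (mem_filter.mp (hTT0 hq)).2
      have h3 : (1:ℝ) / q * n = n / q := by ring
      rw [h3]
      linarith
    rw [Finset.sum_add_distrib, Finset.sum_const, nsmul_eq_mul, hTcard] at h1
    have h2 : ((F:ℕ):ℝ) = ∑ q ∈ T, ((n / q : ℕ) : ℝ) := by rw [hF]; push_cast; rfl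
    have h3 : 2 ≤ (K:ℝ) * η := by
      have h4 : 8 * (X:ℝ)^2 * L * η = 2 := by rw [hη]; field_simp; norm_num
      have h5 := mul_le_mul_of_nonneg_right hK1 hη0.le
      linarith
    rw [h2]
    linarith

end Pool.Agent.CoprimeSieve
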